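import Pool.Agent.PCM.P14
import Pool.Agent.PCM.P5

set_option autoImplicit false

/-!
# [UOD-A1] the decomposition `h = h_0 + Σ z_i h_i` in the Drury-Arveson space
-/

open Filter Topology Finset

namespace UOD

open PCM

variable {d : ℕ}

/-- degree of a multi-index -/
def dg (α : Fin d →₀ ℕ) : ℕ := ∑ i, α i

/-- the `i`-th quotient of `h` -/
noncomputable def q (h : A d) (i : Fin d) : A d := fun α =>
  MvPowerSeries.coeff (α + Finsupp.single i 1) h * (((α i : ℝ) + 1) / ((dg α : ℝ) + 1) : ℝ)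

theorem coeff_q (h : A d) (i : Fin d) (α : Fin d →₀ ℕ) :
    MvPowerSeries.coeff α (q h i) =
      MvPowerSeries.coeff (α + Finsupp.single i 1) h * (((α i : ℝ) + 1) / ((dg α : ℝ) + 1) : ℝ) := rfl

/-- norm with weights depending on the degree -/
noncomputable def NF (F : ℕ → ℝ) (h : A d) : ℝ :=
  ∑' α, wt α * ‖MvPowerSeries.coeff α h‖ ^ 2 * F (dg α)

theorem dg_add (α : Fin d →₀ ℕ) (i : Fin d) : dg (α + Finsupp.single i 1) = dg α + 1 := by
  unfold dg
  simp only [Finsupp.add_apply, Finset.sum_add_distrib]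
  congr 1
  rw [Finset.sum_eq_single i]
  · simp
  · intro j _ hj
    simp [Finsupp.single_apply, Ne.symm hj]
  · simp

theorem dg_eq_zero {α : Fin d →₀ ℕ} (h : dg α = 0) : α = 0 := by
  unfold dg at h
  ext i
  have := Finset.sum_eq_zero_iff.1 h i (Finset.mem_univ i)
  simpa using this

theorem dg_zero : dg (0 : Fin d →₀ ℕ) = 0 := by simp [dg]

theorem wt_add (α : Fin d →₀ ℕ) (i : Fin d) :
    wt (α + Finsupp.single i 1) * ((dg α : ℝ) + 1) = wt α * ((α i : ℝ) + 1) := by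
  classical
  have h1 : (∑ j, (α + Finsupp.single i 1 : Fin d →₀ ℕ) j) = dg α + 1 := dg_add α i
  have h2 : (∏ j, (((α + Finsupp.single i 1 : Fin d →₀ ℕ) j).factorial : ℝ)) =
      ((α i : ℝ) + 1) * ∏ j, ((α j).factorial : ℝ) := by
    rw [← Finset.mul_prod_erase _ _ (Finset.mem_univ i),
      ← Finset.mul_prod_erase (s := Finset.univ) (a := i) (fun j => ((α j).factorial : ℝ)) (Finset.mem_univ i)]
    have h3 : (α + Finsupp.single i 1 : Fin d →₀ ℕ) i = α i + 1 := by simp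
    rw [h3, Nat.factorial_succ]
    have h4 : ∏ j ∈ Finset.univ.erase i, (((α + Finsupp.single i 1 : Fin d →₀ ℕ) j).factorial : ℝ) =
        ∏ j ∈ Finset.univ.erase i, ((α j).factorial : ℝ) := by
      refine Finset.prod_congr rfl fun j hj => ?_
      have : (α + Finsupp.single i 1 : Fin d →₀ ℕ) j = α j := by
        have hji : i ≠ j := (Finset.ne_of_mem_erase hj).symm
        simp [Finsupp.single_apply, hji]
      rw [this]
    rw [h4]
    push_cast
    ring
  unfold wt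
  rw [h1, h2, Nat.factorial_succ]
  have h5 : ((∑ j, α j).factorial : ℝ) = ((dg α).factorial : ℝ) := rfl
  rw [h5]
  have h6 : (0 : ℝ) < ((dg α).factorial : ℝ) := by positivity
  have h7 : (0 : ℝ) < (dg α : ℝ) + 1 := by positivity
  push_cast
  field_simp

theorem wt_nonneg (α : Fin d →₀ ℕ) : 0 ≤ wt α := (p12_pos α).le

theorem add_inj (i : Fin d) : Function.Injective fun α : Fin d →₀ ℕ => α + Finsupp.single i 1 :=
  fun _ _ h => add_right_cancel h

/-- a function on multi-indices with a factor `β i` -/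
theorem tsum_shift {E : Type*} [NormedAddCommGroup E] (i : Fin d) (t : (Fin d →₀ ℕ) → E)
    (ht : ∀ β, β i = 0 → t β = 0) : ∑' α, t (α + Finsupp.single i 1) = ∑' β, t β := by
  refine (add_inj i).tsum_eq ?_
  intro β hβ
  have h1 : β i ≠ 0 := fun h => hβ (ht β h)
  refine ⟨β - Finsupp.single i 1, ?_⟩
  show β - Finsupp.single i 1 + Finsupp.single i 1 = β
  apply tsub_add_cancel_of_le
  rw [Finsupp.single_le_iff]
  omega

theorem sum_ratio {β : Fin d →₀ ℕ} (h : β ≠ 0) : ∑ i, ((β i : ℝ) / (dg β : ℝ)) = 1 := by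
  have h1 : (dg β : ℝ) ≠ 0 := by
    intro h2
    exact h (dg_eq_zero (by exact_mod_cast h2))
  rw [← Finset.sum_div, div_eq_one_iff_eq h1]
  unfold dg
  push_cast
  rfl

theorem ratio_nonneg (β : Fin d →₀ ℕ) (i : Fin d) : 0 ≤ (β i : ℝ) / (dg β : ℝ) := by positivity

theorem ratio_le (β : Fin d →₀ ℕ) (i : Fin d) : (β i : ℝ) / (dg β : ℝ) ≤ 1 := by
  apply div_le_one_of_le₀ _ (by positivity)
  have : β i ≤ dg β := Finset.single_le_sum (f := fun j => β j) (fun _ _ => Nat.zero_le _) (Finset.mem_univ i)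
  exact_mod_cast this

/-- `t_i` -/
noncomputable def tt (F : ℕ → ℝ) (h : A d) (i : Fin d) (β : Fin d →₀ ℕ) : ℝ :=
  wt β * ‖MvPowerSeries.coeff β h‖ ^ 2 * F (dg β) * ((β i : ℝ) / (dg β : ℝ))

theorem tt_shift (F F' : ℕ → ℝ) (hF : ∀ m, F' (m + 1) = F m) (h : A d) (i : Fin d)
    (α : Fin d →₀ ℕ) : tt F' h i (α + Finsupp.single i 1) =
      wt α * ‖MvPowerSeries.coeff α (q h i)‖ ^ 2 * F (dg α) := by
  unfold tt
  rw [coeff_q, norm_mul, mul_pow, dg_add, hF]
  have h1 : ‖((((α i : ℝ) + 1) / ((dg α : ℝ) + 1) : ℝ) : ℂ)‖ = ((α i : ℝ) + 1) / ((dg α : ℝ) + 1) := by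
    rw [Complex.norm_real, Real.norm_of_nonneg (by positivity)]
  rw [h1]
  have h2 : (((α + Finsupp.single i 1 : Fin d →₀ ℕ) i : ℕ) : ℝ) = (α i : ℝ) + 1 := by simp
  rw [h2]
  have h3 : ((dg α + 1 : ℕ) : ℝ) = (dg α : ℝ) + 1 := by push_cast; ring
  rw [h3]
  have h4 := wt_add α i
  have h5 : (0 : ℝ) < (dg α : ℝ) + 1 := by positivity
  have h6 : wt (α + Finsupp.single i 1) = wt α * (((α i : ℝ) + 1) / ((dg α : ℝ) + 1)) := by
    field_simp
    linarith
  rw [h6]
  ring

theorem NF_q (F F' : ℕ → ℝ) (hF : ∀ m, F' (m + 1) = F m) (h : A d) (i : Fin d) :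
    NF F (q h i) = ∑' β, tt F' h i β := by
  unfold NF
  rw [← tsum_shift i (tt F' h i)]
  · exact tsum_congr fun α => (tt_shift F F' hF h i α).symm
  · intro β hβ
    unfold tt
    rw [hβ]
    simp

theorem summable_tt {F : ℕ → ℝ} {K : ℝ} (hF : ∀ m, |F m| ≤ K) {h : A d} (hh : h ∈ H2 d)
    (i : Fin d) : Summable (tt F h i) := by
  have hs : Summable fun α => wt α * ‖MvPowerSeries.coeff α h‖ ^ 2 := hh
  refine Summable.of_norm_bounded (g := fun α => K * (wt α * ‖MvPowerSeries.coeff α h‖ ^ 2)) (hs.mul_left K) ?_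
  intro β
  unfold tt
  have h0 : 0 ≤ wt β * ‖MvPowerSeries.coeff β h‖ ^ 2 := mul_nonneg (wt_nonneg β) (by positivity)
  have hK : 0 ≤ K := (abs_nonneg _).trans (hF 0)
  rw [Real.norm_eq_abs, abs_mul, abs_mul, abs_of_nonneg h0, abs_of_nonneg (ratio_nonneg β i)]
  calc wt β * ‖MvPowerSeries.coeff β h‖ ^ 2 * |F (dg β)| * ((β i : ℝ) / (dg β : ℝ))
      ≤ wt β * ‖MvPowerSeries.coeff β h‖ ^ 2 * K * 1 := by
        gcongr
        · exact hF _
        · exact ratio_le β i
    _ = _ := by ring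

/-- **the norm identity** -/
theorem NF_step {F F' : ℕ → ℝ} (hF : ∀ m, F' (m + 1) = F m) {K : ℝ} (hK : ∀ m, |F' m| ≤ K)
    {h : A d} (hh : h ∈ H2 d) :
    NF F' h = ‖MvPowerSeries.coeff 0 h‖ ^ 2 * F' 0 + ∑ i, NF F (q h i) := by
  classical
  have h1 : ∑ i, NF F (q h i) = ∑' β, ∑ i, tt F' h i β := by
    rw [Summable.tsum_finsetSum fun i _ => summable_tt hK hh i]
    exact Finset.sum_congr rfl fun i _ => NF_q F F' hF h i
  have h2 : ∀ β : Fin d →₀ ℕ, wt β * ‖MvPowerSeries.coeff β h‖ ^ 2 * F' (dg β) =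
      (if β = 0 then ‖MvPowerSeries.coeff 0 h‖ ^ 2 * F' 0 else 0) + ∑ i, tt F' h i β := by
    intro β
    by_cases hβ : β = 0
    · rw [hβ, if_pos rfl]
      have e1 : wt (0 : Fin d →₀ ℕ) = 1 := by simp [wt]
      have e2 : ∑ i, tt F' h i (0 : Fin d →₀ ℕ) = 0 := by
        refine Finset.sum_eq_zero fun i _ => ?_
        simp [tt]
      rw [e1, e2, dg_zero]
      ring
    · rw [if_neg hβ, zero_add]
      unfold tt
      rw [← Finset.mul_sum, sum_ratio hβ, mul_one]
  have h3 : Summable fun β : Fin d →₀ ℕ => ∑ i, tt F' h i β :=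
    summable_sum fun i _ => summable_tt hK hh i
  have h4 : Summable fun β : Fin d →₀ ℕ => (if β = 0 then ‖MvPowerSeries.coeff 0 h‖ ^ 2 * F' 0 else (0 : ℝ)) := by
    apply summable_of_ne_finset_zero (s := {0})
    intro β hβ
    rw [if_neg (by simpa using hβ)]
  unfold NF at h1 ⊢
  rw [tsum_congr h2, h4.tsum_add h3, tsum_ite_eq, h1]

theorem q_mem {h : A d} (hh : h ∈ H2 d) (i : Fin d) : q h i ∈ H2 d := by
  have h1 := summable_tt (F := fun _ => 1) (K := 1) (fun m => by simp) hh i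
  have h2 := h1.comp_injective (add_inj i)
  have h3 : (tt (fun _ => 1) h i ∘ fun α => α + Finsupp.single i 1) =
      fun α => wt α * ‖MvPowerSeries.coeff α (q h i)‖ ^ 2 := by
    funext α
    show tt (fun _ => 1) h i (α + Finsupp.single i 1) = _
    rw [tt_shift (fun _ => 1) (fun _ => 1) (fun _ => rfl) h i α, mul_one]
  rw [h3] at h2
  exact h2

/-- **the values** -/
theorem ev_step {h : A d} (hh : h ∈ H2 d) {z : Fin d → ℂ} (hz : z ∈ Ball d) :
    ev h z = MvPowerSeries.coeff 0 h + ∑ i, z i * ev (q h i) z := by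
  classical
  have hc := conv_of_mem hh
  obtain ⟨s, hs⟩ : ∃ s : Fin d → (Fin d →₀ ℕ) → ℂ, ∀ i β, s i β =
      MvPowerSeries.coeff β h * (∏ j, z j ^ β j) * (((β i : ℝ) / (dg β : ℝ) : ℝ) : ℂ) := ⟨_, fun _ _ => rfl⟩
  have hsum : ∀ i, Summable (s i) := by
    intro i
    refine Summable.of_norm_bounded (g := fun α => ‖MvPowerSeries.coeff α h‖ * ∏ i, ‖z i‖ ^ α i) (hc z hz) ?_
    intro β
    rw [hs, norm_mul, norm_mul, norm_prod, Complex.norm_real, Real.norm_of_nonneg (ratio_nonneg β i)]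
    have e1 : ∏ j, ‖z j ^ β j‖ = ∏ j, ‖z j‖ ^ β j := Finset.prod_congr rfl fun j _ => norm_pow _ _
    rw [e1]
    have e2 : 0 ≤ ‖MvPowerSeries.coeff β h‖ * ∏ j, ‖z j‖ ^ β j := by positivity
    calc _ ≤ ‖MvPowerSeries.coeff β h‖ * (∏ j, ‖z j‖ ^ β j) * 1 :=
          mul_le_mul_of_nonneg_left (ratio_le β i) e2
      _ = _ := mul_one _
  have h1 : ∀ i, z i * ev (q h i) z = ∑' β, s i β := by
    intro i
    rw [← tsum_shift i (s i) (by intro β hβ; rw [hs, hβ]; simp)]
    unfold ev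
    rw [← tsum_mul_left]
    refine tsum_congr fun α => ?_
    rw [coeff_q, hs]
    have e1 : ∏ j, z j ^ (α + Finsupp.single i 1 : Fin d →₀ ℕ) j = z i * ∏ j, z j ^ α j := by
      have : ∀ j, z j ^ (α + Finsupp.single i 1 : Fin d →₀ ℕ) j = z j ^ α j * z j ^ (Finsupp.single i 1 : Fin d →₀ ℕ) j := by
        intro j
        rw [Finsupp.add_apply, pow_add]
      rw [Finset.prod_congr rfl fun j _ => this j, Finset.prod_mul_distrib, mul_comm]
      congr 1
      rw [Finset.prod_eq_single i]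
      · simp
      · intro j _ hj
        simp [Finsupp.single_apply, Ne.symm hj]
      · simp
    rw [e1, dg_add]
    have e2 : (((α + Finsupp.single i 1 : Fin d →₀ ℕ) i : ℕ) : ℝ) = (α i : ℝ) + 1 := by simp
    rw [e2]
    push_cast
    ring
  rw [Finset.sum_congr rfl fun i _ => h1 i, ← Summable.tsum_finsetSum fun i _ => hsum i]
  have h2 : ∀ β : Fin d →₀ ℕ, MvPowerSeries.coeff β h * ∏ j, z j ^ β j =
      (if β = 0 then MvPowerSeries.coeff 0 h else 0) + ∑ i, s i β := by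
    intro β
    by_cases hβ : β = 0
    · rw [hβ, if_pos rfl]
      have : ∑ i, s i (0 : Fin d →₀ ℕ) = 0 := Finset.sum_eq_zero fun i _ => by rw [hs]; simp
      rw [this]
      simp
    · rw [if_neg hβ, zero_add]
      have e : ∀ i, s i β = MvPowerSeries.coeff β h * (∏ j, z j ^ β j) * (((β i : ℝ) / (dg β : ℝ) : ℝ) : ℂ) :=
        fun i => hs i β
      rw [Finset.sum_congr rfl fun i _ => e i, ← Finset.mul_sum, ← Complex.ofReal_sum, sum_ratio hβ]
      simp
  have h3 : Summable fun β : Fin d →₀ ℕ => ∑ i, s i β := summable_sum fun i _ => hsum i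
  have h4 : Summable fun β : Fin d →₀ ℕ => (if β = 0 then MvPowerSeries.coeff 0 h else (0 : ℂ)) := by
    apply summable_of_ne_finset_zero (s := {0})
    intro β hβ
    rw [if_neg (by simpa using hβ)]
  show (∑' β, MvPowerSeries.coeff β h * ∏ j, z j ^ β j) = _
  rw [tsum_congr h2, h4.tsum_add h3, tsum_ite_eq]

/-- the weights -/
noncomputable def FF (K : ℝ) (M : ℕ) : ℕ → ℝ := fun m => if m < M then 1 else K

theorem NF_lim {K : ℝ} (hK : 1 ≤ K) {h : A d} (hh : h ∈ H2 d) :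
    Tendsto (fun M => NF (FF K M) h) atTop (𝓝 (nrm h ^ 2)) := by
  have hs : Summable fun α => wt α * ‖MvPowerSeries.coeff α h‖ ^ 2 := hh
  have h1 : nrm h ^ 2 = ∑' α, wt α * ‖MvPowerSeries.coeff α h‖ ^ 2 := by
    unfold nrm
    rw [Real.sq_sqrt]
    exact tsum_nonneg fun α => mul_nonneg (wt_nonneg α) (by positivity)
  rw [h1]
  unfold NF
  refine tendsto_tsum_of_dominated_convergence (bound := fun α => K * (wt α * ‖MvPowerSeries.coeff α h‖ ^ 2))
    (hs.mul_left K) ?_ ?_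
  · intro α
    apply tendsto_const_nhds.congr'
    filter_upwards [eventually_gt_atTop (dg α)] with M hM
    unfold FF
    rw [if_pos hM, mul_one]
  · refine Eventually.of_forall fun M α => ?_
    have h0 : 0 ≤ wt α * ‖MvPowerSeries.coeff α h‖ ^ 2 := mul_nonneg (wt_nonneg α) (by positivity)
    rw [norm_mul, Real.norm_of_nonneg h0, mul_comm]
    apply mul_le_mul_of_nonneg_right _ h0
    unfold FF
    split_ifs
    · rw [norm_one]; exact hK
    · rw [Real.norm_of_nonneg (by linarith)]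

end UOD
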