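import Pool.Agent.UOD.A1

set_option autoImplicit false

/-!
# [UOD-A2] analytic discs through the origin contract the Drury-Arveson space into the Hardy space
-/

open Filter Topology Finset Metric

namespace UOD

open PCM

variable {d : ℕ}

/-- an analytic disc in the ball, through the origin -/
structure IsDisc (d : ℕ) (φ : ℂ → Fin d → ℂ) : Prop where
  diff : ∀ i, DifferentiableOn ℂ (fun w => φ w i) (ball 0 1)
  maps : ∀ w ∈ ball (0 : ℂ) 1, φ w ∈ Ball d
  zero : φ 0 = 0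

theorem exists_rad {φ : ℂ → Fin d → ℂ} (hφ : IsDisc d φ) {ρ : ℝ} (h0 : 0 ≤ ρ) (h1 : ρ < 1) :
    ∃ s : ℝ, 0 < s ∧ s < 1 ∧ ∀ w ∈ closedBall (0 : ℂ) ρ, ∑ i, ‖φ w i‖ ^ 2 ≤ s ^ 2 := by
  have hsub : closedBall (0 : ℂ) ρ ⊆ ball 0 1 := closedBall_subset_ball h1
  have hc : ContinuousOn (fun w => ∑ i, ‖φ w i‖ ^ 2) (closedBall (0 : ℂ) ρ) := by
    apply continuousOn_finsetSum
    intro i _
    exact (((hφ.diff i).continuousOn.mono hsub).norm).pow 2
  obtain ⟨w0, hw0, hmax⟩ := (isCompact_closedBall (0 : ℂ) ρ).exists_isMaxOn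
    ⟨0, mem_closedBall_self h0⟩ hc
  have h2 : ∑ i, ‖φ w0 i‖ ^ 2 < 1 := hφ.maps w0 (hsub hw0)
  obtain ⟨m, hm⟩ : ∃ m, m = ∑ i, ‖φ w0 i‖ ^ 2 := ⟨_, rfl⟩
  rw [← hm] at h2
  have hm0 : 0 ≤ m := by rw [hm]; positivity
  refine ⟨Real.sqrt ((1 + m) / 2), Real.sqrt_pos.2 (by linarith), ?_, ?_⟩
  · rw [Real.sqrt_lt' one_pos]
    linarith
  · intro w hw
    rw [Real.sq_sqrt (by linarith)]
    have h3 : ∑ i, ‖φ w i‖ ^ 2 ≤ ∑ i, ‖φ w0 i‖ ^ 2 := hmax hw
    linarith

theorem diffOn_ball {φ : ℂ → Fin d → ℂ} (hφ : IsDisc d φ) {h : A d} (hh : Conv h) {ρ : ℝ}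
    (h0 : 0 ≤ ρ) (h1 : ρ < 1) : DifferentiableOn ℂ (fun w => ev h (φ w)) (ball 0 ρ) := by
  obtain ⟨s, hs0, hs1, hs⟩ := exists_rad hφ h0 h1
  obtain ⟨b, hb, hb2⟩ := exists_majorant h hh s hs0.le hs1
  have hsub : ball (0 : ℂ) ρ ⊆ ball 0 1 := ball_subset_ball h1.le
  unfold ev
  refine Complex.differentiableOn_tsum_of_summable_norm hb ?_ isOpen_ball ?_
  · intro α
    apply DifferentiableOn.const_mul
    apply DifferentiableOn.fun_finset_prod
    intro i _
    exact ((hφ.diff i).mono hsub).pow _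
  · intro α w hw
    have h3 := hs w (ball_subset_closedBall hw)
    have h4 : ∑ i, ‖φ w i / (s : ℂ)‖ ^ 2 ≤ 1 := by
      have e : ∀ i, ‖φ w i / (s : ℂ)‖ ^ 2 = ‖φ w i‖ ^ 2 / s ^ 2 := by
        intro i
        rw [norm_div, Complex.norm_real, Real.norm_of_nonneg hs0.le, div_pow]
      rw [Finset.sum_congr rfl fun i _ => e i, ← Finset.sum_div]
      exact div_le_one_of_le₀ h3 (by positivity)
    refine le_trans (le_of_eq ?_) (hb2 (fun i => φ w i / (s : ℂ)) h4 α)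
    rw [norm_mul, norm_prod]
    congr 1
    refine Finset.prod_congr rfl fun i _ => ?_
    rw [norm_pow, norm_div, Complex.norm_real, Real.norm_of_nonneg hs0.le, mul_div_cancel₀ _ hs0.ne']

theorem diffOn {φ : ℂ → Fin d → ℂ} (hφ : IsDisc d φ) {h : A d} (hh : Conv h) :
    DifferentiableOn ℂ (fun w => ev h (φ w)) (ball 0 1) := by
  intro w hw
  have hw1 : ‖w‖ < 1 := by simpa using hw
  have h1 := diffOn_ball hφ hh (ρ := (1 + ‖w‖) / 2) (by positivity) (by linarith)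
  have h2 : w ∈ ball (0 : ℂ) ((1 + ‖w‖) / 2) := by simp; linarith
  exact ((h1 w h2).differentiableAt (isOpen_ball.mem_nhds h2)).differentiableWithinAt

theorem contSphere {g : ℂ → ℂ} (hg : DifferentiableOn ℂ g (ball 0 1)) {r : ℝ} (hr0 : 0 < r)
    (hr1 : r < 1) : ContinuousOn g (sphere 0 |r|) := by
  apply hg.continuousOn.mono
  rw [abs_of_pos hr0]
  exact sphere_subset_closedBall.trans (closedBall_subset_ball hr1)

theorem mean {g : ℂ → ℂ} (hg : DifferentiableOn ℂ g (ball 0 1)) {r : ℝ} (hr0 : 0 < r)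
    (hr1 : r < 1) : Real.circleAverage g 0 r = g 0 := by
  apply DiffContOnCl.circleAverage
  rw [abs_of_pos hr0]
  apply DifferentiableOn.diffContOnCl
  rw [closure_ball _ hr0.ne']
  exact hg.mono (closedBall_subset_ball hr1)

theorem orth {g : ℂ → ℂ} (hg : DifferentiableOn ℂ g (ball 0 1)) (hg0 : g 0 = 0) (c : ℂ) {r : ℝ}
    (hr0 : 0 < r) (hr1 : r < 1) :
    Real.circleAverage (fun w => ‖c + g w‖ ^ 2) 0 r =
      ‖c‖ ^ 2 + Real.circleAverage (fun w => ‖g w‖ ^ 2) 0 r := by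
  have hc := contSphere hg hr0 hr1
  have i1 : CircleIntegrable (fun w => ‖g w‖ ^ 2) 0 r := ((hc.norm).pow 2).circleIntegrable'
  have i2 : CircleIntegrable (fun _ : ℂ => ‖c‖ ^ 2) 0 r := continuousOn_const.circleIntegrable'
  have hg2 : DifferentiableOn ℂ (fun w => (2 * (starRingEnd ℂ) c) * g w) (ball 0 1) := hg.const_mul _
  have i3 : CircleIntegrable (fun w => (2 * (starRingEnd ℂ) c) * g w) 0 r :=
    (contSphere hg2 hr0 hr1).circleIntegrable'
  have i4 : CircleIntegrable (fun w => Complex.reCLM ((2 * (starRingEnd ℂ) c) * g w)) 0 r :=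
    (Complex.reCLM.continuous.comp_continuousOn (contSphere hg2 hr0 hr1)).circleIntegrable'
  have h3 : Real.circleAverage (fun w => Complex.reCLM ((2 * (starRingEnd ℂ) c) * g w)) 0 r = 0 := by
    have h4 := Complex.reCLM.circleAverage_comp_comm i3
    have h5 := mean hg2 hr0 hr1
    rw [h5, hg0, mul_zero, map_zero] at h4
    exact h4
  have h6 : (fun w => ‖c + g w‖ ^ 2) = fun w => (‖c‖ ^ 2 + ‖g w‖ ^ 2) +
      Complex.reCLM ((2 * (starRingEnd ℂ) c) * g w) := by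
    funext w
    rw [← Complex.normSq_eq_norm_sq, Complex.normSq_add, Complex.normSq_eq_norm_sq,
      Complex.normSq_eq_norm_sq]
    have e1 : Complex.reCLM ((2 * (starRingEnd ℂ) c) * g w) = 2 * (c * (starRingEnd ℂ) (g w)).re := by
      simp [Complex.mul_re, Complex.mul_im]
      ring
    rw [e1]
  have i12 : CircleIntegrable (fun w => ‖c‖ ^ 2 + ‖g w‖ ^ 2) 0 r := i2.add i1
  rw [h6, Real.circleAverage_fun_add i12 i4, Real.circleAverage_fun_add i2 i1, h3,
    Real.circleAverage_const, add_zero]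

theorem base {φ : ℂ → Fin d → ℂ} (hφ : IsDisc d φ) {r : ℝ} (hr0 : 0 < r) (hr1 : r < 1) :
    ∃ K : ℝ, 1 ≤ K ∧ ∀ h ∈ H2 d, Real.circleAverage (fun w => ‖ev h (φ w)‖ ^ 2) 0 r ≤ K * nrm h ^ 2 := by
  obtain ⟨s, hs0, hs1, hs⟩ := exists_rad hφ hr0.le hr1
  have hs2 : 0 < 1 - s ^ 2 := by nlinarith
  refine ⟨(1 - s ^ 2)⁻¹, (one_le_inv₀ hs2).2 (by nlinarith), fun h hh => ?_⟩
  apply Real.circleAverage_mono_on_of_le_circle
  · exact (((contSphere (diffOn hφ (conv_of_mem hh)) hr0 hr1).norm).pow 2).circleIntegrable'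
  · intro w hw
    have hw1 : w ∈ closedBall (0 : ℂ) r := by
      rw [abs_of_pos hr0] at hw
      exact sphere_subset_closedBall hw
    have h1 := ev_bound hh (hφ.maps w (closedBall_subset_ball hr1 hw1))
    have h2 := hs w hw1
    have h3 : 0 < 1 - ∑ i, ‖φ w i‖ ^ 2 := by linarith
    calc ‖ev h (φ w)‖ ^ 2 ≤ (nrm h / Real.sqrt (1 - ∑ i, ‖φ w i‖ ^ 2)) ^ 2 :=
          pow_le_pow_left₀ (norm_nonneg _) h1 2
      _ = (1 - ∑ i, ‖φ w i‖ ^ 2)⁻¹ * nrm h ^ 2 := by
          rw [div_pow, Real.sq_sqrt h3.le]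
          field_simp
      _ ≤ (1 - s ^ 2)⁻¹ * nrm h ^ 2 := by
          apply mul_le_mul_of_nonneg_right _ (by positivity)
          exact inv_anti₀ hs2 (by linarith)

theorem iter {φ : ℂ → Fin d → ℂ} (hφ : IsDisc d φ) {r : ℝ} (hr0 : 0 < r) (hr1 : r < 1) {K : ℝ}
    (hK : 1 ≤ K)
    (hb : ∀ h ∈ H2 d, Real.circleAverage (fun w => ‖ev h (φ w)‖ ^ 2) 0 r ≤ K * nrm h ^ 2) (M : ℕ) :
    ∀ h ∈ H2 d, Real.circleAverage (fun w => ‖ev h (φ w)‖ ^ 2) 0 r ≤ NF (FF K M) h := by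
  induction M with
  | zero =>
    intro h hh
    refine (hb h hh).trans (le_of_eq ?_)
    have h1 : nrm h ^ 2 = ∑' α, wt α * ‖MvPowerSeries.coeff α h‖ ^ 2 := by
      unfold nrm
      rw [Real.sq_sqrt]
      exact tsum_nonneg fun α => mul_nonneg (wt_nonneg α) (by positivity)
    rw [h1, ← tsum_mul_left]
    unfold NF
    refine tsum_congr fun α => ?_
    simp only [FF, Nat.not_lt_zero, if_false]
    ring
  | succ M ih =>
    intro h hh
    have hF : ∀ m, FF K (M + 1) (m + 1) = FF K M m := by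
      intro m
      unfold FF
      by_cases hm : m < M
      · rw [if_pos hm, if_pos (by omega)]
      · rw [if_neg hm, if_neg (by omega)]
    have hKb : ∀ m, |FF K (M + 1) m| ≤ K := by
      intro m
      unfold FF
      split_ifs
      · rw [abs_one]; exact hK
      · rw [abs_of_nonneg (by linarith)]
    rw [NF_step hF hKb hh]
    have h00 : FF K (M + 1) 0 = 1 := by simp [FF]
    rw [h00, mul_one]
    -- the analytic functions
    have hd : ∀ i, DifferentiableOn ℂ (fun w => ev (q h i) (φ w)) (ball 0 1) :=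
      fun i => diffOn hφ (conv_of_mem (q_mem hh i))
    have hG : DifferentiableOn ℂ (fun w => ∑ i, φ w i * ev (q h i) (φ w)) (ball 0 1) :=
      DifferentiableOn.fun_sum fun i _ => (hφ.diff i).mul (hd i)
    have hG0 : (∑ i, φ 0 i * ev (q h i) (φ 0)) = 0 := by
      rw [hφ.zero]
      simp
    have e1 : Real.circleAverage (fun w => ‖ev h (φ w)‖ ^ 2) 0 r =
        Real.circleAverage (fun w => ‖MvPowerSeries.coeff 0 h + ∑ i, φ w i * ev (q h i) (φ w)‖ ^ 2) 0 r := by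
      apply Real.circleAverage_congr_sphere
      intro w hw
      have hw1 : w ∈ ball (0 : ℂ) 1 := by
        rw [abs_of_pos hr0] at hw
        exact closedBall_subset_ball hr1 (sphere_subset_closedBall hw)
      show ‖ev h (φ w)‖ ^ 2 = _
      rw [ev_step hh (hφ.maps w hw1)]
    rw [e1, orth hG hG0 _ hr0 hr1]
    have i1 : ∀ i ∈ (Finset.univ : Finset (Fin d)), CircleIntegrable (fun w => ‖ev (q h i) (φ w)‖ ^ 2) 0 r :=
      fun i _ => (((contSphere (hd i) hr0 hr1).norm).pow 2).circleIntegrable'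
    have h5 : Real.circleAverage (fun w => ‖∑ i, φ w i * ev (q h i) (φ w)‖ ^ 2) 0 r ≤
        ∑ i, Real.circleAverage (fun w => ‖ev (q h i) (φ w)‖ ^ 2) 0 r := by
      rw [← Real.circleAverage_fun_sum i1]
      apply Real.circleAverage_mono
      · exact (((contSphere hG hr0 hr1).norm).pow 2).circleIntegrable'
      · apply ContinuousOn.circleIntegrable'
        apply continuousOn_finsetSum
        intro i _
        exact ((contSphere (hd i) hr0 hr1).norm).pow 2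
      · intro w hw
        have hw1 : w ∈ ball (0 : ℂ) 1 := by
          rw [abs_of_pos hr0] at hw
          exact closedBall_subset_ball hr1 (sphere_subset_closedBall hw)
        have hB : ∑ i, ‖φ w i‖ ^ 2 < 1 := hφ.maps w hw1
        have h6 : ‖∑ i, φ w i * ev (q h i) (φ w)‖ ≤ ∑ i, ‖φ w i‖ * ‖ev (q h i) (φ w)‖ :=
          (norm_sum_le _ _).trans (le_of_eq (Finset.sum_congr rfl fun i _ => norm_mul _ _))
        calc ‖∑ i, φ w i * ev (q h i) (φ w)‖ ^ 2
            ≤ (∑ i, ‖φ w i‖ * ‖ev (q h i) (φ w)‖) ^ 2 := pow_le_pow_left₀ (norm_nonneg _) h6 2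
          _ ≤ (∑ i, ‖φ w i‖ ^ 2) * ∑ i, ‖ev (q h i) (φ w)‖ ^ 2 := Finset.sum_mul_sq_le_sq_mul_sq _ _ _
          _ ≤ 1 * ∑ i, ‖ev (q h i) (φ w)‖ ^ 2 := by
              apply mul_le_mul_of_nonneg_right hB.le (by positivity)
          _ = _ := one_mul _
    have h7 : ∑ i, Real.circleAverage (fun w => ‖ev (q h i) (φ w)‖ ^ 2) 0 r ≤
        ∑ i, NF (FF K M) (q h i) := Finset.sum_le_sum fun i _ => ih _ (q_mem hh i)
    linarith

/-- **contraction** -/
theorem disc_le {φ : ℂ → Fin d → ℂ} (hφ : IsDisc d φ) {r : ℝ} (hr0 : 0 < r) (hr1 : r < 1)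
    {h : A d} (hh : h ∈ H2 d) :
    Real.circleAverage (fun w => ‖ev h (φ w)‖ ^ 2) 0 r ≤ nrm h ^ 2 := by
  obtain ⟨K, hK, hb⟩ := base hφ hr0 hr1
  exact ge_of_tendsto (NF_lim hK hh) (Eventually.of_forall fun M => iter hφ hr0 hr1 hK hb M h hh)

end UOD
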