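import Pool.Agent.UOD.A2
import Pool.Agent.PCM.P19
import Pool.Agent.PCM.P1

set_option autoImplicit false

/-!
# [UOD-A3] `f(0) ≠ 0`, approximants, Jensen's inequality
-/

open Filter Topology Finset Metric MeasureTheory

namespace UOD

open PCM

variable {d : ℕ}

/-- approximants -/
theorem exists_mult {n : ℕ} {f : A d} (hf : f ∈ C d n) {δ : ℝ} (hδ : 0 < δ) :
    ∃ p : A d, IsMult p ∧ nrm (f ^ n - p * f ^ (n + 1)) < δ := by
  obtain ⟨hm, _, he⟩ := hf
  have h1 : f ^ n ∈ inv (f ^ n) := by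
    have := mul_mem_inv (f := f ^ n) (φ := 1) (mult_pow hm n) (fun g hg => by rwa [one_mul])
    rwa [one_mul] at this
  rw [he] at h1
  exact h1.2 δ hδ

theorem coeff_zero_ne {n : ℕ} {f : A d} (hf : f ∈ C d n) : MvPowerSeries.coeff 0 f ≠ 0 := by
  classical
  intro h0
  have hf0 : f ≠ 0 := hf.2.1
  have hm : IsMult f := hf.1
  obtain ⟨γ, hγ⟩ := MvPowerSeries.exists_finsupp_eq_lexOrder_of_ne_zero (pow_ne_zero n hf0)
  have h1 : MvPowerSeries.coeff γ (f ^ n) ≠ 0 := MvPowerSeries.coeff_ne_zero_of_lexOrder hγ.symm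
  -- all coefficients of p f^(n+1) at γ vanish
  have h2 : ∀ p : A d, MvPowerSeries.coeff γ (p * f ^ (n + 1)) = 0 := by
    intro p
    have e : p * f ^ (n + 1) = (p * f) * f ^ n := by ring
    rw [e, MvPowerSeries.coeff_mul]
    apply Finset.sum_eq_zero
    rintro ⟨u, v⟩ huv
    replace huv : u + v = γ := Finset.HasAntidiagonal.mem_antidiagonal.1 huv
    by_cases hu : u = 0
    · have h3 : MvPowerSeries.coeff (0 : Fin d →₀ ℕ) (p * f) = 0 := by
        have h30 := map_mul (MvPowerSeries.constantCoeff (σ := Fin d) (R := ℂ)) p f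
        rw [← MvPowerSeries.coeff_zero_eq_constantCoeff_apply,
          ← MvPowerSeries.coeff_zero_eq_constantCoeff_apply,
          ← MvPowerSeries.coeff_zero_eq_constantCoeff_apply, h0, mul_zero] at h30
        exact h30
      simp only
      rw [hu, h3, zero_mul]
    · have h4 : toLex v < toLex γ := by
        have : toLex γ = toLex u + toLex v := by rw [← huv]; rfl
        rw [this]
        have hu0 : (0 : Lex (Fin d →₀ ℕ)) < toLex u := by
          rw [pos_iff_ne_zero]
          intro h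
          exact hu h
        exact lt_add_of_pos_left _ hu0
      have h5 : MvPowerSeries.coeff v (f ^ n) = 0 := by
        apply MvPowerSeries.coeff_eq_zero_of_lt_lexOrder
        rw [hγ]
        exact_mod_cast h4
      simp only
      rw [h5, mul_zero]
  have hc : 0 < Real.sqrt (wt γ) * ‖MvPowerSeries.coeff γ (f ^ n)‖ :=
    mul_pos (Real.sqrt_pos.2 (p12_pos γ)) (norm_pos_iff.2 h1)
  obtain ⟨p, hp, hp2⟩ := exists_mult hf hc
  have h6 : f ^ n - p * f ^ (n + 1) ∈ H2 d :=
    sub_mem (mem_of_mult (mult_pow hm n)) (mem_of_mult (mult_mul hp (mult_pow hm (n + 1))))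
  have h7 := norm_coeff_le h6 γ
  rw [map_sub, h2 p, sub_zero] at h7
  linarith

theorem mult_bdd {p : A d} (hp : IsMult p) : ∃ B : ℝ, 1 ≤ B ∧ ∀ z ∈ Ball d, ‖ev p z‖ ≤ B := by
  obtain ⟨M, hM1, hM⟩ := bounded_of_mult hp
  exact ⟨M, hM1, fun z hz => sup_bound hp hM1 hM hz⟩

/-- Jensen's inequality -/
theorem jensen {h : ℂ → ℂ} (hh : DifferentiableOn ℂ h (ball 0 1)) (h0 : h 0 ≠ 0) {r : ℝ}
    (hr0 : 0 < r) (hr1 : r < 1) :
    Real.log ‖h 0‖ ≤ Real.circleAverage (fun w => Real.log ‖h w‖) 0 r := by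
  have han : AnalyticOnNhd ℂ h (closedBall (0 : ℂ) |r|) := by
    rw [abs_of_pos hr0]
    exact (hh.analyticOnNhd isOpen_ball).mono (closedBall_subset_ball hr1)
  rw [AnalyticOnNhd.circleAverage_log_norm hr0.ne' han h0]
  have h1 : 0 ≤ ∑ᶠ u, (MeromorphicOn.divisor h (closedBall (0 : ℂ) |r|)) u * Real.log (r * ‖(0 : ℂ) - u‖⁻¹) := by
    apply finsum_nonneg
    intro u
    by_cases hu : u ∈ closedBall (0 : ℂ) |r|
    · apply mul_nonneg
      · exact_mod_cast (MeromorphicOn.AnalyticOnNhd.divisor_nonneg han) u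
      · rw [zero_sub, norm_neg]
        by_cases hu0 : u = 0
        · rw [hu0]; simp
        · apply Real.log_nonneg
          have hpos : 0 < ‖u‖ := norm_pos_iff.2 hu0
          rw [abs_of_pos hr0] at hu
          have hur : ‖u‖ ≤ r := by simpa using hu
          rw [← div_eq_mul_inv, le_div_iff₀ hpos]
          linarith
    · rw [Function.locallyFinsuppWithin.apply_eq_zero_of_notMem _ hu]
      simp
  linarith

/-- averages of functions which are comparable away from the zeros of an analytic function -/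
theorem mono_off {h : ℂ → ℂ} (hh : DifferentiableOn ℂ h (ball 0 1)) (h0 : h 0 ≠ 0) {r : ℝ}
    (hr0 : 0 < r) (hr1 : r < 1) {F G : ℂ → ℝ} (hF : CircleIntegrable F 0 r)
    (hG : CircleIntegrable G 0 r) (hle : ∀ w ∈ sphere (0 : ℂ) r, h w ≠ 0 → F w ≤ G w) :
    Real.circleAverage F 0 r ≤ Real.circleAverage G 0 r := by
  classical
  have hcod : (h ⁻¹' {0})ᶜ ∈ codiscreteWithin (sphere (0 : ℂ) |r|) := by
    have h1 := (hh.analyticOnNhd isOpen_ball).preimage_zero_mem_codiscreteWithin (x := 0) h0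
      (mem_ball_self one_pos) ((convex_ball (0 : ℂ) 1).isConnected ⟨0, mem_ball_self one_pos⟩)
    refine codiscreteWithin_mono ?_ h1
    rw [abs_of_pos hr0]
    exact sphere_subset_closedBall.trans (closedBall_subset_ball hr1)
  have heq : F =ᶠ[codiscreteWithin (sphere (0 : ℂ) |r|)] fun w => if h w = 0 then G w else F w := by
    filter_upwards [hcod] with w hw
    have : h w ≠ 0 := hw
    rw [if_neg this]
  rw [Real.circleAverage_congr_codiscreteWithin heq hr0.ne']
  apply Real.circleAverage_mono (hF.congr_codiscreteWithin heq) hG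
  intro w hw
  rw [abs_of_pos hr0] at hw
  by_cases h1 : h w = 0
  · simp [h1]
  · simp only [h1, if_false]
    exact hle w hw h1

end UOD
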