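import Pool.Agent.UOD.A3

set_option autoImplicit false

/-!
# [UOD-A4] uniform outerness
-/

open Filter Topology Finset Metric MeasureTheory

namespace UOD

open PCM

variable {d : ℕ}

theorem ci_of_le {F G : ℂ → ℝ} {r : ℝ} (hm : Measurable fun θ : ℝ => F (circleMap 0 r θ))
    (hG : CircleIntegrable G 0 r) (hle : ∀ w ∈ sphere (0 : ℂ) |r|, |F w| ≤ G w) :
    CircleIntegrable F 0 r := by
  unfold CircleIntegrable at hG ⊢
  refine IntervalIntegrable.mono_fun' hG hm.aestronglyMeasurable ?_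
  refine Eventually.of_forall fun θ => ?_
  exact hle _ (circleMap_mem_sphere' 0 r θ)

theorem meas_g {g : ℂ → ℂ} (hg : DifferentiableOn ℂ g (ball 0 1)) {r : ℝ} (hr0 : 0 < r)
    (hr1 : r < 1) : Measurable fun θ : ℝ => g (circleMap 0 r θ) :=
  ((contSphere hg hr0 hr1).comp_continuous (continuous_circleMap 0 r)
    (circleMap_mem_sphere' 0 r)).measurable

theorem meas_u {g : ℂ → ℂ} (hg : DifferentiableOn ℂ g (ball 0 1)) {r : ℝ} (hr0 : 0 < r)
    (hr1 : r < 1) : Measurable fun θ : ℝ => -Real.log ‖g (circleMap 0 r θ)‖ :=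
  (Real.measurable_log.comp (meas_g hg hr0 hr1).norm).neg

theorem int_log {g : ℂ → ℂ} (hg : DifferentiableOn ℂ g (ball 0 1)) {r : ℝ} (hr0 : 0 < r)
    (hr1 : r < 1) : CircleIntegrable (fun w => Real.log ‖g w‖) 0 r := by
  apply MeromorphicOn.circleIntegrable_log_norm
  have h1 : AnalyticOnNhd ℂ g (sphere (0 : ℂ) |r|) := by
    rw [abs_of_pos hr0]
    exact (hg.analyticOnNhd isOpen_ball).mono
      (sphere_subset_closedBall.trans (closedBall_subset_ball hr1))
  exact h1.meromorphicOn

/-- the part of `u` between two levels -/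
noncomputable def ind (Y Z x : ℝ) : ℝ := if Y < x ∧ x < Z then x else 0

theorem ind_nonneg {Y : ℝ} (hY : 0 ≤ Y) (Z x : ℝ) : 0 ≤ ind Y Z x := by
  unfold ind
  split_ifs with h
  · linarith [h.1]
  · exact le_rfl

theorem ind_abs (Y Z x : ℝ) : |ind Y Z x| ≤ |x| := by
  unfold ind
  split_ifs
  · exact le_rfl
  · rw [abs_zero]; exact abs_nonneg _

theorem measurable_ind (Y Z : ℝ) : Measurable (ind Y Z) := by
  unfold ind
  exact Measurable.ite (measurableSet_Ioo (a := Y) (b := Z)) measurable_id measurable_const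

theorem sum_ind_le (Y : ℕ → ℝ) (hY0 : 0 ≤ Y 0) (hY : Monotone Y) (x : ℝ) (I : ℕ) :
    ∑ i ∈ Finset.range I, ind (Y i) (Y (i + 1)) x ≤ max x 0 := by
  classical
  by_cases h : ∃ i ∈ Finset.range I, Y i < x ∧ x < Y (i + 1)
  · obtain ⟨i, hi, h1, h2⟩ := h
    rw [Finset.sum_eq_single_of_mem i hi]
    · unfold ind
      split_ifs
      · exact le_max_left _ _
      · exact le_max_right _ _
    · intro j _ hj
      unfold ind
      rw [if_neg]
      rintro ⟨h3, h4⟩
      rcases lt_or_gt_of_ne hj with h5 | h5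
      · have := hY (show j + 1 ≤ i by omega)
        linarith
      · have := hY (show i + 1 ≤ j by omega)
        linarith
  · rw [Finset.sum_eq_zero]
    · exact le_max_right _ _
    · intro i hi
      unfold ind
      rw [if_neg]
      intro h1
      exact h ⟨i, hi, h1⟩

/-- the pointwise inequality; `x = -log |g|`, `E = g^n (1 - P g)` -/
theorem pointwise {n : ℕ} {g P : ℂ} (hg : g ≠ 0) (hP : P ≠ 0) {C Y Z X : ℝ} (hC : 1 ≤ C)
    (hPC : ‖P‖ ≤ C) (hY : 0 ≤ Y) (hZ : Real.log C ≤ Z) (hX : Z ≤ X) :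
    max (-Real.log ‖g‖ - X) 0 + Real.log ‖P * g‖ ≤
      (Real.exp (n * Y) + 1) * ‖g ^ n - P * g ^ (n + 1)‖ + n * ind Y Z (-Real.log ‖g‖) := by
  obtain ⟨x, hx⟩ : ∃ x, x = -Real.log ‖g‖ := ⟨_, rfl⟩
  obtain ⟨L, hL⟩ : ∃ L, L = Real.log ‖P * g‖ := ⟨_, rfl⟩
  have hg' : 0 < ‖g‖ := norm_pos_iff.2 hg
  have hP' : 0 < ‖P‖ := norm_pos_iff.2 hP
  have hge : ‖g‖ = Real.exp (-x) := by rw [hx, neg_neg, Real.exp_log hg']
  have hL1 : L ≤ Real.log C - x := by
    rw [hL, norm_mul, Real.log_mul hP'.ne' hg'.ne', hx]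
    have := Real.log_le_log hP' hPC
    linarith
  have hE : g ^ n - P * g ^ (n + 1) = g ^ n * (1 - P * g) := by ring
  obtain ⟨E, hEd⟩ : ∃ E, E = ‖g ^ n - P * g ^ (n + 1)‖ := ⟨_, rfl⟩
  have hE0 : 0 ≤ E := by rw [hEd]; exact norm_nonneg _
  rw [← hx, ← hL, ← hEd]
  have hind := ind_nonneg hY Z x
  have hexp : 0 < Real.exp (n * Y) := Real.exp_pos _
  have hR : 0 ≤ (Real.exp (n * Y) + 1) * E + n * ind Y Z x := by positivity
  rcases le_or_gt L 0 with h | h
  · rcases le_or_gt x X with h1 | h1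
    · rw [max_eq_right (by linarith)]
      linarith
    · rw [max_eq_left (by linarith)]
      linarith
  · have hxC : x < Real.log C := by linarith
    rw [max_eq_right (by linarith), zero_add]
    rcases le_or_gt x Y with h1 | h1
    · -- `|g|` not small
      have h2 : L ≤ ‖P * g‖ - 1 := by
        rw [hL]
        have : 0 < ‖P * g‖ := norm_pos_iff.2 (mul_ne_zero hP hg)
        linarith [Real.log_le_sub_one_of_pos this]
      have h3 : ‖P * g‖ - 1 ≤ ‖1 - P * g‖ := by
        have := norm_sub_norm_le (P * g) 1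
        rw [norm_one, norm_sub_rev] at this
        exact this
      have h4 : ‖1 - P * g‖ = Real.exp (n * x) * E := by
        rw [hEd, hE, norm_mul, norm_pow, hge, ← Real.exp_nat_mul, ← mul_assoc, ← Real.exp_add]
        have : (n : ℝ) * x + n * -x = 0 := by ring
        rw [this, Real.exp_zero, one_mul]
      have h5 : Real.exp (n * x) ≤ Real.exp (n * Y) := by
        apply Real.exp_le_exp.2
        gcongr
      have h6 : Real.exp (n * x) * E ≤ Real.exp (n * Y) * E := by gcongr
      have h7 : 0 ≤ (n : ℝ) * ind Y Z x := by positivity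
      nlinarith
    · have h2 : ind Y Z x = x := by
        unfold ind
        rw [if_pos ⟨h1, by linarith⟩]
      rw [h2]
      have h3 : L = Real.log ‖g ^ n * (P * g)‖ + n * x := by
        rw [norm_mul, Real.log_mul (norm_ne_zero_iff.2 (pow_ne_zero n hg))
          (norm_ne_zero_iff.2 (mul_ne_zero hP hg)), norm_pow, Real.log_pow, hL, hx]
        ring
      have h4 : ‖g ^ n * (P * g)‖ ≤ 1 + E := by
        have e1 : g ^ n * (P * g) = g ^ n - (g ^ n - P * g ^ (n + 1)) := by ring
        rw [e1]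
        refine (norm_sub_le _ _).trans ?_
        rw [← hEd, norm_pow]
        have : ‖g‖ ^ n ≤ 1 := by
          apply pow_le_one₀ hg'.le
          rw [hge]
          apply Real.exp_le_one_iff.2
          linarith
        linarith
      have h5 : 0 < ‖g ^ n * (P * g)‖ := norm_pos_iff.2 (mul_ne_zero (pow_ne_zero n hg) (mul_ne_zero hP hg))
      have h6 : Real.log ‖g ^ n * (P * g)‖ ≤ E := by
        have := Real.log_le_sub_one_of_pos h5
        linarith
      have h7 : 0 ≤ Real.exp (n * Y) * E := by positivity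
      nlinarith

end UOD
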