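import Pool.Agent.UOD.A4

set_option autoImplicit false

/-!
# [UOD-A5] uniform outerness along analytic discs
-/

open Filter Topology Finset Metric MeasureTheory

namespace UOD

open PCM

variable {d : ℕ}

/-- `u = -log |f ∘ φ|` -/
noncomputable def uu (f : A d) (φ : ℂ → Fin d → ℂ) (w : ℂ) : ℝ := -Real.log ‖ev f (φ w)‖

theorem int_u {f : A d} (hf : Conv f) {φ : ℂ → Fin d → ℂ} (hφ : IsDisc d φ) {r : ℝ} (hr0 : 0 < r)
    (hr1 : r < 1) : CircleIntegrable (uu f φ) 0 r :=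
  (int_log (diffOn hφ hf) hr0 hr1).neg

theorem int_max {f : A d} (hf : Conv f) {φ : ℂ → Fin d → ℂ} (hφ : IsDisc d φ) {r : ℝ} (hr0 : 0 < r)
    (hr1 : r < 1) (X : ℝ) : CircleIntegrable (fun w => max (uu f φ w - X) 0) 0 r := by
  have h1 : CircleIntegrable (fun w => |uu f φ w| + |X|) 0 r := by
    have h2 : CircleIntegrable (fun w => |uu f φ w|) 0 r := (int_u hf hφ hr0 hr1).norm
    exact h2.add (continuousOn_const.circleIntegrable')
  refine ci_of_le ?_ h1 ?_
  · exact ((meas_u (diffOn hφ hf) hr0 hr1).sub_const X).max measurable_const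
  · intro w _
    rw [abs_of_nonneg (le_max_right _ _)]
    apply max_le
    · have := le_abs_self (uu f φ w)
      have := neg_le_abs X
      linarith
    · positivity

theorem int_ind {f : A d} (hf : Conv f) {φ : ℂ → Fin d → ℂ} (hφ : IsDisc d φ) {r : ℝ} (hr0 : 0 < r)
    (hr1 : r < 1) (Y Z : ℝ) : CircleIntegrable (fun w => ind Y Z (uu f φ w)) 0 r := by
  have h2 : CircleIntegrable (fun w => |uu f φ w|) 0 r := (int_u hf hφ hr0 hr1).norm
  refine ci_of_le ?_ h2 ?_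
  · exact (measurable_ind Y Z).comp (meas_u (diffOn hφ hf) hr0 hr1)
  · intro w _
    exact ind_abs Y Z _

/-- **one scale** -/
theorem one_scale {n : ℕ} {f : A d} (hf : f ∈ C d n) {ε Y : ℝ} (hε : 0 < ε) (hY : 0 ≤ Y) :
    ∃ Z : ℝ, Y ≤ Z ∧ ∀ φ : ℂ → Fin d → ℂ, IsDisc d φ → ∀ r : ℝ, 0 < r → r < 1 → ∀ X : ℝ, Z ≤ X →
      Real.circleAverage (fun w => max (uu f φ w - X) 0) 0 r ≤
        ε + n * Real.circleAverage (fun w => ind Y Z (uu f φ w)) 0 r := by
  have hm : IsMult f := hf.1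
  have hcf : Conv f := conv_of_mem (mem_of_mult hm)
  have ha := coeff_zero_ne hf
  obtain ⟨a, haa⟩ : ∃ a : ℂ, a = MvPowerSeries.coeff 0 f := ⟨_, rfl⟩
  rw [← haa] at ha
  have ha' : 0 < ‖a‖ := norm_pos_iff.2 ha
  have han : 0 < ‖a‖ ^ n := pow_pos ha' n
  -- the choice of δ
  obtain ⟨T, hT⟩ : ∃ T, T = (Real.exp (n * Y) + 1) + 2 / ‖a‖ ^ n := ⟨_, rfl⟩
  have hT0 : 0 < T := by rw [hT]; positivity
  obtain ⟨δ, hδ⟩ : ∃ δ, δ = min (ε / T) (‖a‖ ^ n / 2) := ⟨_, rfl⟩
  have hδ0 : 0 < δ := by rw [hδ]; positivity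
  have hδ1 : δ ≤ ε / T := by rw [hδ]; exact min_le_left _ _
  have hδ2 : δ ≤ ‖a‖ ^ n / 2 := by rw [hδ]; exact min_le_right _ _
  obtain ⟨p, hp, hp2⟩ := exists_mult hf hδ0
  obtain ⟨B, hB1, hB⟩ := mult_bdd hp
  have hcp : Conv p := conv_of_mem (mem_of_mult hp)
  refine ⟨max Y (Real.log B), le_max_left _ _, ?_⟩
  intro φ hφ r hr0 hr1 X hX
  obtain ⟨Z, hZ⟩ : ∃ Z, Z = max Y (Real.log B) := ⟨_, rfl⟩
  rw [← hZ] at hX ⊢
  have hZB : Real.log B ≤ Z := by rw [hZ]; exact le_max_right _ _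
  have hmem : f ^ n - p * f ^ (n + 1) ∈ H2 d :=
    sub_mem (mem_of_mult (mult_pow hm n)) (mem_of_mult (mult_mul hp (mult_pow hm (n + 1))))
  have hev : ∀ w ∈ ball (0 : ℂ) 1, ev (f ^ n - p * f ^ (n + 1)) (φ w) =
      ev f (φ w) ^ n - ev p (φ w) * ev f (φ w) ^ (n + 1) := by
    intro w hw
    have hz := hφ.maps w hw
    rw [ev_sub (conv_pow hcf n) (conv_mul hcp (conv_pow hcf (n + 1))) hz, ev_pow hcf n hz,
      ev_mul hcp (conv_pow hcf (n + 1)) hz, ev_pow hcf (n + 1) hz]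
  have hg := diffOn hφ hcf
  have hP := diffOn hφ hcp
  have hE := diffOn hφ (conv_of_mem hmem)
  have hh : DifferentiableOn ℂ (fun w => ev p (φ w) * ev f (φ w)) (ball 0 1) := hP.mul hg
  have hz0 : φ 0 = fun _ => 0 := hφ.zero
  have hg0 : ev f (φ 0) = a := by rw [hz0, ev_zero_point, haa]
  -- the mean of |E|
  have hEav : Real.circleAverage (fun w => ‖ev (f ^ n - p * f ^ (n + 1)) (φ w)‖) 0 r ≤ δ := by
    have h1 := disc_le hφ hr0 hr1 hmem
    have h2 : nrm (f ^ n - p * f ^ (n + 1)) ^ 2 ≤ δ ^ 2 := pow_le_pow_left₀ (nrm_nonneg _) hp2.le 2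
    have i1 : CircleIntegrable (fun w => ‖ev (f ^ n - p * f ^ (n + 1)) (φ w)‖ ^ 2) 0 r :=
      (((contSphere hE hr0 hr1).norm).pow 2).circleIntegrable'
    have i2 : CircleIntegrable (fun w => ‖ev (f ^ n - p * f ^ (n + 1)) (φ w)‖) 0 r :=
      ((contSphere hE hr0 hr1).norm).circleIntegrable'
    have i3 : CircleIntegrable (fun w => (1 / (2 * δ)) * ‖ev (f ^ n - p * f ^ (n + 1)) (φ w)‖ ^ 2) 0 r :=
      (((((contSphere hE hr0 hr1).norm).pow 2).const_smul (1 / (2 * δ))).circleIntegrable')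
    have i4 : CircleIntegrable (fun _ : ℂ => δ / 2) 0 r := continuousOn_const.circleIntegrable'
    have i5 : CircleIntegrable (fun w => (1 / (2 * δ)) * ‖ev (f ^ n - p * f ^ (n + 1)) (φ w)‖ ^ 2 + δ / 2) 0 r :=
      i3.add i4
    have h3 : Real.circleAverage (fun w => ‖ev (f ^ n - p * f ^ (n + 1)) (φ w)‖) 0 r ≤
        Real.circleAverage (fun w => (1 / (2 * δ)) * ‖ev (f ^ n - p * f ^ (n + 1)) (φ w)‖ ^ 2 + δ / 2) 0 r := by
      apply Real.circleAverage_mono i2 i5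
      intro w _
      obtain ⟨t, ht⟩ : ∃ t, t = ‖ev (f ^ n - p * f ^ (n + 1)) (φ w)‖ := ⟨_, rfl⟩
      show ‖ev (f ^ n - p * f ^ (n + 1)) (φ w)‖ ≤ (1 / (2 * δ)) * ‖ev (f ^ n - p * f ^ (n + 1)) (φ w)‖ ^ 2 + δ / 2
      rw [← ht]
      have h4 : 0 ≤ (t - δ) ^ 2 / (2 * δ) := by positivity
      have h5 : (t - δ) ^ 2 / (2 * δ) = 1 / (2 * δ) * t ^ 2 + δ / 2 - t := by
        field_simp
        ring
      linarith
    have h4 : Real.circleAverage (fun w => (1 / (2 * δ)) * ‖ev (f ^ n - p * f ^ (n + 1)) (φ w)‖ ^ 2 + δ / 2) 0 r =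
        (1 / (2 * δ)) * Real.circleAverage (fun w => ‖ev (f ^ n - p * f ^ (n + 1)) (φ w)‖ ^ 2) 0 r + δ / 2 := by
      rw [Real.circleAverage_fun_add i3 i4, Real.circleAverage_const]
      congr 1
      exact Real.circleAverage_fun_smul (a := 1 / (2 * δ))
    rw [h4] at h3
    have h5 : (1 / (2 * δ)) * Real.circleAverage (fun w => ‖ev (f ^ n - p * f ^ (n + 1)) (φ w)‖ ^ 2) 0 r ≤
        (1 / (2 * δ)) * δ ^ 2 := mul_le_mul_of_nonneg_left (h1.trans h2) (by positivity)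
    have h6 : (1 / (2 * δ)) * δ ^ 2 = δ / 2 := by field_simp
    linarith
  -- the value at the origin
  obtain ⟨t, ht⟩ : ∃ t, t = ‖1 - ev p (φ 0) * a‖ := ⟨_, rfl⟩
  have ht1 : t ≤ δ / ‖a‖ ^ n := by
    have h1 := ev_bound hmem (hφ.maps 0 (mem_ball_self one_pos))
    rw [hev 0 (mem_ball_self one_pos), hg0] at h1
    have h2 : a ^ n - ev p (φ 0) * a ^ (n + 1) = a ^ n * (1 - ev p (φ 0) * a) := by ring
    rw [h2, norm_mul, norm_pow, ← ht] at h1
    have h3 : Real.sqrt (1 - ∑ i, ‖φ 0 i‖ ^ 2) = 1 := by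
      rw [hz0]; simp
    rw [h3, div_one] at h1
    rw [le_div_iff₀ han]
    linarith [hp2]
  have ht2 : t ≤ 1 / 2 := by
    refine ht1.trans ?_
    rw [div_le_iff₀ han]
    linarith
  have ht0 : 0 ≤ t := by rw [ht]; exact norm_nonneg _
  have hh0n : 1 - t ≤ ‖ev p (φ 0) * ev f (φ 0)‖ := by
    rw [hg0]
    have := norm_sub_norm_le (1 : ℂ) (ev p (φ 0) * a)
    rw [norm_one, ← ht] at this
    linarith
  have hh0 : ev p (φ 0) * ev f (φ 0) ≠ 0 := by
    rw [← norm_pos_iff]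
    linarith
  have hlog0 : -(2 * t) ≤ Real.log ‖ev p (φ 0) * ev f (φ 0)‖ := by
    have h1 : Real.log (1 - t) ≤ Real.log ‖ev p (φ 0) * ev f (φ 0)‖ :=
      Real.log_le_log (by linarith) hh0n
    have h2 : -(2 * t) ≤ Real.log (1 - t) := by
      have h3 := Real.one_sub_inv_le_log_of_pos (show 0 < 1 - t by linarith)
      have h4 : (1 - t)⁻¹ ≤ 1 + 2 * t := by
        rw [inv_le_comm₀ (by linarith) (by linarith), inv_le_iff_one_le_mul₀ (by linarith)]
        nlinarith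
      linarith
    linarith
  have hJ := jensen hh hh0 hr0 hr1
  -- the comparison
  have j1 := int_max hcf hφ hr0 hr1 X
  have j2 : CircleIntegrable (fun w => Real.log ‖ev p (φ w) * ev f (φ w)‖) 0 r := int_log hh hr0 hr1
  have j3 := int_ind hcf hφ hr0 hr1 Y Z
  have j4 : CircleIntegrable (fun w => ‖ev (f ^ n - p * f ^ (n + 1)) (φ w)‖) 0 r :=
    ((contSphere hE hr0 hr1).norm).circleIntegrable'
  have j5 : CircleIntegrable (fun w => (Real.exp (n * Y) + 1) * ‖ev (f ^ n - p * f ^ (n + 1)) (φ w)‖) 0 r :=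
    ((((contSphere hE hr0 hr1).norm).const_smul (Real.exp (n * Y) + 1)).circleIntegrable')
  have j6 : CircleIntegrable (fun w => (n : ℝ) * ind Y Z (uu f φ w)) 0 r := j3.const_mul n
  have j7 : CircleIntegrable (fun w => (Real.exp (n * Y) + 1) * ‖ev (f ^ n - p * f ^ (n + 1)) (φ w)‖ +
      (n : ℝ) * ind Y Z (uu f φ w)) 0 r := j5.add j6
  have j8 : CircleIntegrable (fun w => max (uu f φ w - X) 0 + Real.log ‖ev p (φ w) * ev f (φ w)‖) 0 r :=
    j1.add j2
  have hcmp := mono_off hh hh0 hr0 hr1 j8 j7 (by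
    intro w hw hne
    have hw1 : w ∈ ball (0 : ℂ) 1 := closedBall_subset_ball hr1 (sphere_subset_closedBall hw)
    have h1 := pointwise (n := n) (right_ne_zero_of_mul hne) (left_ne_zero_of_mul hne) hB1
      (hB _ (hφ.maps w hw1)) hY hZB hX
    rw [hev w hw1]
    exact h1)
  rw [Real.circleAverage_fun_add j1 j2, Real.circleAverage_fun_add j5 j6] at hcmp
  have k1 : Real.circleAverage (fun w => (Real.exp (n * Y) + 1) * ‖ev (f ^ n - p * f ^ (n + 1)) (φ w)‖) 0 r =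
      (Real.exp (n * Y) + 1) * Real.circleAverage (fun w => ‖ev (f ^ n - p * f ^ (n + 1)) (φ w)‖) 0 r :=
    Real.circleAverage_fun_smul (a := Real.exp (n * Y) + 1)
  have k2 : Real.circleAverage (fun w => (n : ℝ) * ind Y Z (uu f φ w)) 0 r =
      (n : ℝ) * Real.circleAverage (fun w => ind Y Z (uu f φ w)) 0 r :=
    Real.circleAverage_fun_smul (a := (n : ℝ))
  rw [k1, k2] at hcmp
  have hexp : 0 < Real.exp (n * Y) := Real.exp_pos _
  have k3 : (Real.exp (n * Y) + 1) * Real.circleAverage (fun w => ‖ev (f ^ n - p * f ^ (n + 1)) (φ w)‖) 0 r ≤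
      (Real.exp (n * Y) + 1) * δ := mul_le_mul_of_nonneg_left hEav (by positivity)
  have k4 : (Real.exp (n * Y) + 1) * δ + 2 * (δ / ‖a‖ ^ n) = T * δ := by rw [hT]; ring
  have k5 : T * δ ≤ ε := by
    have := mul_le_mul_of_nonneg_left hδ1 hT0.le
    rwa [mul_div_cancel₀ _ hT0.ne'] at this
  linarith

/-- **Uniform outerness**: the functions `log |f ∘ φ|` are uniformly integrable, uniformly in all
analytic discs `φ` through the origin, and the bound has nothing to do with `n`. -/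
theorem main {n : ℕ} {f : A d} (hf : f ∈ C d n) {ε : ℝ} (hε : 0 < ε) :
    ∃ X : ℝ, ∀ φ : ℂ → Fin d → ℂ, IsDisc d φ → ∀ r : ℝ, 0 < r → r < 1 →
      Real.circleAverage (fun w => max (-Real.log ‖ev f (φ w)‖ - X) 0) 0 r ≤ ε := by
  classical
  have hm : IsMult f := hf.1
  have hcf : Conv f := conv_of_mem (mem_of_mult hm)
  have ha := coeff_zero_ne hf
  obtain ⟨B, hB1, hB⟩ := mult_bdd hm
  have hs : ∀ Y : ℝ, ∃ Z : ℝ, 0 ≤ Y → (Y ≤ Z ∧ ∀ φ : ℂ → Fin d → ℂ, IsDisc d φ → ∀ r : ℝ, 0 < r → r < 1 →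
      ∀ X : ℝ, Z ≤ X → Real.circleAverage (fun w => max (uu f φ w - X) 0) 0 r ≤
        ε / 2 + n * Real.circleAverage (fun w => ind Y Z (uu f φ w)) 0 r) := by
    intro Y
    by_cases hY : 0 ≤ Y
    · obtain ⟨Z, h1, h2⟩ := one_scale hf (half_pos hε) hY
      exact ⟨Z, fun _ => ⟨h1, h2⟩⟩
    · exact ⟨0, fun h => absurd h hY⟩
  choose Zf hZf using hs
  obtain ⟨Y, hY0, hYs⟩ : ∃ Y : ℕ → ℝ, Y 0 = 0 ∧ ∀ i, Y (i + 1) = Zf (Y i) :=
    ⟨fun i => Zf^[i] 0, rfl, fun i => Function.iterate_succ_apply' Zf i 0⟩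
  have hYn : ∀ i, 0 ≤ Y i := by
    intro i
    induction i with
    | zero => rw [hY0]
    | succ i ih => rw [hYs]; exact ih.trans (hZf (Y i) ih).1
  have hYm : Monotone Y := monotone_nat_of_le_succ fun i => by rw [hYs]; exact (hZf (Y i) (hYn i)).1
  obtain ⟨c0, hc0⟩ : ∃ c0, c0 = -Real.log ‖MvPowerSeries.coeff 0 f‖ + Real.log B := ⟨_, rfl⟩
  obtain ⟨I, hI⟩ := exists_nat_gt (2 * (n * (|c0| + 1)) / ε)
  have hn0 : (0 : ℝ) ≤ n := by positivity
  have hI0 : (0 : ℝ) < I := lt_of_le_of_lt (by positivity) hI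
  refine ⟨Y I, ?_⟩
  intro φ hφ r hr0 hr1
  show Real.circleAverage (fun w => max (uu f φ w - Y I) 0) 0 r ≤ ε
  obtain ⟨S, hS⟩ : ∃ S, S = Real.circleAverage (fun w => max (uu f φ w - Y I) 0) 0 r := ⟨_, rfl⟩
  rw [← hS]
  have h1 : ∀ i ∈ Finset.range I, S ≤ ε / 2 +
      n * Real.circleAverage (fun w => ind (Y i) (Y (i + 1)) (uu f φ w)) 0 r := by
    intro i hi
    have := (hZf (Y i) (hYn i)).2 φ hφ r hr0 hr1 (Y I) (by
      rw [← hYs]
      exact hYm (by rw [Finset.mem_range] at hi; omega))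
    rw [← hYs] at this
    rw [hS]
    exact this
  have h2 := Finset.sum_le_sum h1
  rw [Finset.sum_const, Finset.card_range, nsmul_eq_mul, Finset.sum_add_distrib, Finset.sum_const,
    Finset.card_range, nsmul_eq_mul, ← Finset.mul_sum] at h2
  -- the sum of the layers
  have i1 : ∀ i ∈ Finset.range I, CircleIntegrable (fun w => ind (Y i) (Y (i + 1)) (uu f φ w)) 0 r :=
    fun i _ => int_ind hcf hφ hr0 hr1 _ _
  have i2 : CircleIntegrable (fun w => max (uu f φ w) 0) 0 r := by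
    have := int_max hcf hφ hr0 hr1 0
    simpa using this
  have h3 : ∑ i ∈ Finset.range I, Real.circleAverage (fun w => ind (Y i) (Y (i + 1)) (uu f φ w)) 0 r ≤
      Real.circleAverage (fun w => max (uu f φ w) 0) 0 r := by
    rw [← Real.circleAverage_fun_sum i1]
    apply Real.circleAverage_mono _ i2
    · intro w _
      exact sum_ind_le Y hY0.ge hYm _ I
    · have := CircleIntegrable.sum (Finset.range I) i1
      have e : (fun w => ∑ i ∈ Finset.range I, ind (Y i) (Y (i + 1)) (uu f φ w)) =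
          ∑ i ∈ Finset.range I, fun w => ind (Y i) (Y (i + 1)) (uu f φ w) := by
        funext w
        rw [Finset.sum_apply]
      rw [e]
      exact this
  -- the mean of `u`
  have hg := diffOn hφ hcf
  have hg0 : ev f (φ 0) = MvPowerSeries.coeff 0 f := by
    have hz0 : φ 0 = fun _ => 0 := hφ.zero
    rw [hz0, ev_zero_point]
  have hJ := jensen hg (by show ev f (φ 0) ≠ 0; rw [hg0]; exact ha) hr0 hr1
  simp only [hg0] at hJ
  have i3 : CircleIntegrable (fun w => Real.log ‖ev f (φ w)‖) 0 r := int_log hg hr0 hr1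
  have i4 : CircleIntegrable (fun _ : ℂ => Real.log B) 0 r := continuousOn_const.circleIntegrable'
  have i5 : CircleIntegrable (fun w => Real.log B - Real.log ‖ev f (φ w)‖) 0 r := i4.sub i3
  have h4 : Real.circleAverage (fun w => max (uu f φ w) 0) 0 r ≤ c0 := by
    have h5 : Real.circleAverage (fun w => max (uu f φ w) 0) 0 r ≤
        Real.circleAverage (fun w => Real.log B - Real.log ‖ev f (φ w)‖) 0 r := by
      apply Real.circleAverage_mono i2 i5
      intro w hw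
      rw [abs_of_pos hr0] at hw
      have hw1 : w ∈ ball (0 : ℂ) 1 := closedBall_subset_ball hr1 (sphere_subset_closedBall hw)
      have hlB : 0 ≤ Real.log B := Real.log_nonneg hB1
      apply max_le
      · unfold uu
        linarith
      · by_cases h0 : ev f (φ w) = 0
        · rw [h0]; simpa using hlB
        · have := Real.log_le_log (norm_pos_iff.2 h0) (hB _ (hφ.maps w hw1))
          linarith
    rw [Real.circleAverage_fun_sub i4 i3, Real.circleAverage_const] at h5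
    rw [hc0]
    linarith
  have h6 : (I : ℝ) * S ≤ I * (ε / 2) + n * (|c0| + 1) := by
    have h7 : c0 ≤ |c0| + 1 := by linarith [le_abs_self c0]
    have h8 := mul_le_mul_of_nonneg_left (h3.trans (h4.trans h7)) hn0
    linarith
  have h9 : n * (|c0| + 1) ≤ I * (ε / 2) := by
    rw [div_lt_iff₀ hε] at hI
    linarith
  have h10 : (I : ℝ) * S ≤ I * ε := by linarith
  exact le_of_mul_le_mul_left h10 hI0

end UOD
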