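import Pool.Agent.UOD.A5

set_option autoImplicit false

/-!
# [UOD-B1] series `k(⟨z, v⟩)` and their averages
-/

open Filter Topology Finset Metric MeasureTheory

namespace UOD

open PCM

variable {d : ℕ}

theorem fiberC (x : Fin d → ℂ) (n : ℕ) :
    HasSum (fun k : {k : Fin d → ℕ // ∑ i, k i = n} =>
      (Nat.multinomial Finset.univ k.1 : ℂ) * ∏ i, x i ^ k.1 i) ((∑ i, x i) ^ n) := by
  rw [Finset.sum_pow_eq_sum_piAntidiag]
  have hfun : (fun k : {k : Fin d → ℕ // ∑ i, k i = n} =>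
      (Nat.multinomial Finset.univ k.1 : ℂ) * ∏ i, x i ^ k.1 i)
      = (fun k : Fin d → ℕ => (Nat.multinomial Finset.univ k : ℂ) * ∏ i, x i ^ k i) ∘
        (Subtype.val : {k : Fin d → ℕ | ∑ i, k i = n} → (Fin d → ℕ)) := rfl
  rw [hfun]
  refine (hasSum_subtype_iff_indicator (s := {k : Fin d → ℕ | ∑ i, k i = n})).2 ?_
  have h1 : ∑ k ∈ Finset.piAntidiag Finset.univ n,
      (Nat.multinomial Finset.univ k : ℂ) * ∏ i, x i ^ k i
      = ∑ k ∈ Finset.piAntidiag Finset.univ n, Set.indicator {k : Fin d → ℕ | ∑ i, k i = n}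
        (fun k : Fin d → ℕ => (Nat.multinomial Finset.univ k : ℂ) * ∏ i, x i ^ k i) k := by
    refine Finset.sum_congr rfl fun k hk => ?_
    have hk' : k ∈ {k : Fin d → ℕ | ∑ i, k i = n} := (Finset.mem_piAntidiag.1 hk).1
    rw [Set.indicator_of_mem hk']
  rw [h1]
  refine hasSum_sum_of_ne_finset_zero fun k hk => ?_
  refine Set.indicator_of_notMem (fun hk' => hk ?_) _
  exact Finset.mem_piAntidiag.2 ⟨hk', fun i _ => Finset.mem_univ i⟩

/-- the term of index `α` -/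
noncomputable def tm (k : ℕ → ℂ) (x : Fin d → ℂ) (α : Fin d →₀ ℕ) : ℂ :=
  k (∑ i, α i) * (((wt α)⁻¹ : ℝ) : ℂ) * ∏ i, x i ^ α i

theorem tm_norm (k : ℕ → ℂ) {K : ℝ} (hk : ∀ m, ‖k m‖ ≤ K) (x : Fin d → ℂ) (α : Fin d →₀ ℕ) :
    ‖tm k x α‖ ≤ K * ((wt α)⁻¹ * ∏ i, ‖x i‖ ^ α i) := by
  unfold tm
  rw [norm_mul, norm_mul, norm_prod, Complex.norm_real, Real.norm_of_nonneg
    (inv_nonneg.2 (wt_pos α).le), mul_assoc]
  have : ∏ i, ‖x i ^ α i‖ = ∏ i, ‖x i‖ ^ α i := Finset.prod_congr rfl fun i _ => norm_pow _ _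
  rw [this]
  have h1 : 0 ≤ (wt α)⁻¹ * ∏ i, ‖x i‖ ^ α i :=
    mul_nonneg (inv_nonneg.2 (wt_pos α).le) (Finset.prod_nonneg fun i _ => by positivity)
  exact mul_le_mul_of_nonneg_right (hk _) h1

theorem tm_summable {x : Fin d → ℝ} (h0 : ∀ i, 0 ≤ x i) (h1 : ∑ i, x i < 1) (K : ℝ) :
    Summable fun α : Fin d →₀ ℕ => K * ((wt α)⁻¹ * ∏ i, x i ^ α i) :=
  ((hasSum_multinomial x h0 h1).summable).mul_left K

theorem tm_hasSum (k : ℕ → ℂ) {K : ℝ} (hk : ∀ m, ‖k m‖ ≤ K) (x : Fin d → ℂ)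
    (hx : ∑ i, ‖x i‖ < 1) :
    HasSum (tm k x) (∑' m, k m * (∑ i, x i) ^ m) := by
  have hsum : Summable (tm k x) :=
    Summable.of_norm_bounded (tm_summable (fun i => norm_nonneg (x i)) hx K) (tm_norm k hk x)
  let e := Equiv.sigmaFiberEquiv (fun k : Fin d → ℕ => ∑ i, k i)
  let F : (Fin d → ℕ) → ℂ := fun q => k (∑ i, q i) * ((Nat.multinomial Finset.univ q : ℂ) * ∏ i, x i ^ q i)
  have hF : ∀ α : Fin d →₀ ℕ, F (Finsupp.equivFunOnFinite α) = tm k x α := by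
    intro α
    have h2 := p11_wt_inv (Finsupp.equivFunOnFinite α)
    rw [Equiv.symm_apply_apply] at h2
    show k (∑ i, α i) * ((Nat.multinomial Finset.univ (Finsupp.equivFunOnFinite α) : ℂ) * ∏ i, x i ^ α i) = _
    unfold tm
    rw [h2]
    push_cast
    ring
  have hFs : Summable F := by
    rw [← (Finsupp.equivFunOnFinite : (Fin d →₀ ℕ) ≃ (Fin d → ℕ)).summable_iff]
    exact hsum.congr fun α => (hF α).symm
  have hFe : Summable (F ∘ e) := e.summable_iff.2 hFs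
  have hfib : ∀ n : ℕ, HasSum (fun y : {q : Fin d → ℕ // ∑ i, q i = n} => (F ∘ e) ⟨n, y⟩)
      (k n * (∑ i, x i) ^ n) := by
    intro n
    have h3 := (fiberC x n).mul_left (k n)
    refine h3.congr_fun ?_
    intro y
    show k (∑ i, y.1 i) * _ = _
    rw [y.2]
    rfl
  have h4 : HasSum (fun n : ℕ => k n * (∑ i, x i) ^ n) (∑' y, (F ∘ e) y) :=
    hFe.hasSum.sigma hfib
  have h5 : ∑' y, (F ∘ e) y = ∑' m, k m * (∑ i, x i) ^ m := h4.tsum_eq.symm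
  have h6 : ∑' α, tm k x α = ∑' y, (F ∘ e) y := by
    have e1 : ∑' y, (F ∘ e) y = ∑' q, F q := e.tsum_eq F
    have e2 : ∑' α, F (Finsupp.equivFunOnFinite α) = ∑' q, F q :=
      (Finsupp.equivFunOnFinite : (Fin d →₀ ℕ) ≃ (Fin d → ℕ)).tsum_eq F
    rw [e1, ← e2]
    exact tsum_congr fun α => (hF α).symm
  rw [← h5, ← h6]
  exact hsum.hasSum

variable {Ω : Type*} [MeasurableSpace Ω]

/-- a measurable field of vectors in the closed unit ball -/
structure IsField (v : Ω → Fin d → ℂ) : Prop where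
  meas : ∀ i, Measurable fun ω => v ω i
  le : ∀ ω, ∑ i, ‖v ω i‖ ^ 2 ≤ 1

theorem cs_lt {v z : Fin d → ℂ} (hv : ∑ i, ‖v i‖ ^ 2 ≤ 1) :
    ∑ i, ‖v i‖ * ‖z i‖ ≤ Real.sqrt (∑ i, ‖z i‖ ^ 2) := by
  have h1 : (∑ i, ‖v i‖ * ‖z i‖) ^ 2 ≤ (∑ i, ‖v i‖ ^ 2) * ∑ i, ‖z i‖ ^ 2 :=
    Finset.sum_mul_sq_le_sq_mul_sq _ _ _
  have h3 : (∑ i, ‖v i‖ ^ 2) * ∑ i, ‖z i‖ ^ 2 ≤ 1 * ∑ i, ‖z i‖ ^ 2 :=
    mul_le_mul_of_nonneg_right hv (by positivity)
  apply Real.le_sqrt_of_sq_le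
  linarith

theorem sqrt_lt {z : Fin d → ℂ} (hz : z ∈ Ball d) : Real.sqrt (∑ i, ‖z i‖ ^ 2) < 1 := by
  have h2 : ∑ i, ‖z i‖ ^ 2 < 1 := hz
  rw [Real.sqrt_lt' one_pos, one_pow]
  exact h2

/-- the average of `k(⟨z, v ω⟩)` as a power series -/
noncomputable def avg (k : ℕ → ℂ) (v : Ω → Fin d → ℂ) (μ : Measure Ω) : A d :=
  fun α => ∫ ω, tm k (v ω) α ∂μ

theorem coeff_avg (k : ℕ → ℂ) (v : Ω → Fin d → ℂ) (μ : Measure Ω) (α : Fin d →₀ ℕ) :
    MvPowerSeries.coeff α (avg k v μ) = ∫ ω, tm k (v ω) α ∂μ := rfl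

theorem tm_meas (k : ℕ → ℂ) {v : Ω → Fin d → ℂ} (hv : IsField v) (α : Fin d →₀ ℕ) :
    Measurable fun ω => tm k (v ω) α := by
  unfold tm
  exact (Finset.measurable_prod _ fun i _ => (hv.meas i).pow_const _).const_mul _

theorem tm_norm' (k : ℕ → ℂ) {K : ℝ} (hk : ∀ m, ‖k m‖ ≤ K) {v : Ω → Fin d → ℂ}
    (hv : IsField v) (ω : Ω) (α : Fin d →₀ ℕ) :
    ‖tm k (v ω) α‖ ≤ K * (wt α)⁻¹ := by
  have hK : 0 ≤ K := (norm_nonneg _).trans (hk 0)
  refine (tm_norm k hk (v ω) α).trans (mul_le_mul_of_nonneg_left ?_ hK)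
  have h1 : ∏ i, ‖v ω i‖ ^ α i ≤ 1 := by
    refine Finset.prod_le_one (fun i _ => by positivity) fun i _ => pow_le_one₀ (norm_nonneg _) ?_
    have h2 : ‖v ω i‖ ^ 2 ≤ ∑ j, ‖v ω j‖ ^ 2 :=
      Finset.single_le_sum (f := fun j => ‖v ω j‖ ^ 2) (fun j _ => by positivity) (Finset.mem_univ i)
    have h3 := hv.le ω
    have h4 := norm_nonneg (v ω i)
    nlinarith
  have h5 : 0 ≤ (wt α)⁻¹ := inv_nonneg.2 (wt_pos α).le
  nlinarith

theorem tm_int (k : ℕ → ℂ) {K : ℝ} (hk : ∀ m, ‖k m‖ ≤ K) {v : Ω → Fin d → ℂ}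
    (hv : IsField v) (μ : Measure Ω) [IsFiniteMeasure μ] (α : Fin d →₀ ℕ) :
    Integrable (fun ω => tm k (v ω) α) μ :=
  Integrable.of_bound (tm_meas k hv α).aestronglyMeasurable (K * (wt α)⁻¹)
    (Eventually.of_forall fun ω => tm_norm' k hk hv ω α)

theorem tm_mul (k : ℕ → ℂ) (v z : Fin d → ℂ) (α : Fin d →₀ ℕ) :
    tm k v α * ∏ i, z i ^ α i = tm k (fun i => v i * z i) α := by
  unfold tm
  rw [mul_assoc, ← Finset.prod_mul_distrib]
  congr 1
  exact Finset.prod_congr rfl fun i _ => (mul_pow _ _ _).symm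

/-- the average converges, and its value -/
theorem avg_spec (k : ℕ → ℂ) {K : ℝ} (hk : ∀ m, ‖k m‖ ≤ K) {v : Ω → Fin d → ℂ}
    (hv : IsField v) (μ : Measure Ω) [IsFiniteMeasure μ] :
    Conv (avg k v μ) ∧ ∀ z ∈ Ball d, ev (avg k v μ) z = ∫ ω, ∑' m, k m * (∑ i, v ω i * z i) ^ m ∂μ := by
  have hK : 0 ≤ K := (norm_nonneg _).trans (hk 0)
  have hmeas : ∀ (z : Fin d → ℂ) α, Measurable fun ω => tm k (fun i => v ω i * z i) α := by
    intro z α
    unfold tm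
    exact (Finset.measurable_prod _ fun i _ => ((hv.meas i).mul_const _).pow_const _).const_mul _
  have hlt : ∀ z ∈ Ball d, ∀ ω, ∑ i, ‖v ω i * z i‖ < 1 := by
    intro z hz ω
    have h1 := (cs_lt (z := z) (hv.le ω)).trans_lt (sqrt_lt hz)
    simpa only [norm_mul] using h1
  have hfin : ∀ z ∈ Ball d, ∀ ω (s : Finset (Fin d →₀ ℕ)), ∑ α ∈ s, ‖tm k (fun i => v ω i * z i) α‖ ≤
      K * (1 - Real.sqrt (∑ i, ‖z i‖ ^ 2))⁻¹ := by
    intro z hz ω s
    have h1 := hasSum_multinomial (fun i => ‖v ω i * z i‖) (fun i => norm_nonneg _) (hlt z hz ω)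
    have h2 : ∑ α ∈ s, ‖tm k (fun i => v ω i * z i) α‖ ≤
        ∑ α ∈ s, K * ((wt α)⁻¹ * ∏ i, ‖v ω i * z i‖ ^ α i) :=
      Finset.sum_le_sum fun α _ => tm_norm k hk _ α
    refine h2.trans ?_
    rw [← Finset.mul_sum]
    apply mul_le_mul_of_nonneg_left _ hK
    refine (sum_le_hasSum s (fun α _ => mul_nonneg (inv_nonneg.2 (wt_pos α).le)
      (Finset.prod_nonneg fun i _ => by positivity)) h1).trans ?_
    have h3 := cs_lt (z := z) (hv.le ω)
    have h4 := sqrt_lt hz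
    apply inv_anti₀ (by linarith)
    simp only [norm_mul]
    linarith
  have hint : ∀ z ∈ Ball d, ∀ α, Integrable (fun ω => tm k (fun i => v ω i * z i) α) μ := by
    intro z hz α
    refine Integrable.of_bound (hmeas z α).aestronglyMeasurable (K * (1 - Real.sqrt (∑ i, ‖z i‖ ^ 2))⁻¹)
      (Eventually.of_forall fun ω => ?_)
    have := hfin z hz ω {α}
    rwa [Finset.sum_singleton] at this
  have hs : ∀ z ∈ Ball d, Summable fun α => ∫ ω, ‖tm k (fun i => v ω i * z i) α‖ ∂μ := by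
    intro z hz
    refine summable_of_sum_le (fun α => integral_nonneg fun ω => norm_nonneg _)
      (c := ∫ _, K * (1 - Real.sqrt (∑ i, ‖z i‖ ^ 2))⁻¹ ∂μ) fun s => ?_
    rw [← integral_finsetSum s fun α _ => (hint z hz α).norm]
    exact integral_mono (integrable_finsetSum s fun α _ => (hint z hz α).norm) (integrable_const _)
      (fun ω => hfin z hz ω s)
  have hterm : ∀ (z : Fin d → ℂ) α, MvPowerSeries.coeff α (avg k v μ) * ∏ i, z i ^ α i =
      ∫ ω, tm k (fun i => v ω i * z i) α ∂μ := by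
    intro z α
    rw [coeff_avg, ← integral_mul_const]
    simp only [tm_mul]
  refine ⟨fun z hz => ?_, fun z hz => ?_⟩
  · refine Summable.of_nonneg_of_le (fun α => ?_) (fun α => ?_) (hs z hz)
    · exact mul_nonneg (norm_nonneg _) (Finset.prod_nonneg fun i _ => by positivity)
    · have h1 : ‖MvPowerSeries.coeff α (avg k v μ)‖ * ∏ i, ‖z i‖ ^ α i =
          ‖MvPowerSeries.coeff α (avg k v μ) * ∏ i, z i ^ α i‖ := by
        rw [norm_mul, norm_prod]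
        congr 1
        exact Finset.prod_congr rfl fun i _ => (norm_pow _ _).symm
      rw [h1, hterm]
      exact norm_integral_le_integral_norm _
  · have h1 := integral_tsum_of_summable_integral_norm (hint z hz) (hs z hz)
    unfold ev
    rw [tsum_congr (hterm z), h1]
    refine integral_congr_ae (Eventually.of_forall fun ω => ?_)
    exact (tm_hasSum k hk _ (hlt z hz ω)).tsum_eq

end UOD
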