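import Pool.Agent.UOD.J1

set_option autoImplicit false

/-!
# [UOD-J2] proper analytic discs
-/

open Filter Topology Finset Metric MeasureTheory

namespace UOD

open PCM

variable {d : ℕ}

/-- analytic past the closed unit disc, into the ball, boundary into the sphere, `φ 0 = 0` -/
structure Proper (d : ℕ) (φ : ℂ → Fin d → ℂ) : Prop where
  diff : ∃ R : ℝ, 1 < R ∧ ∀ i, DifferentiableOn ℂ (fun w => φ w i) (ball 0 R)
  maps : ∀ w ∈ ball (0 : ℂ) 1, φ w ∈ Ball d
  bdry : ∀ w : ℂ, ‖w‖ = 1 → ∑ i, ‖φ w i‖ ^ 2 = 1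
  zero : φ 0 = 0

theorem Proper.disc {φ : ℂ → Fin d → ℂ} (h : Proper d φ) : IsDisc d φ := by
  obtain ⟨R, hR, hd⟩ := h.diff
  exact ⟨fun i => (hd i).mono (ball_subset_ball hR.le), h.maps, h.zero⟩

/-- the conjugate boundary values -/
noncomputable def vp (φ : ℂ → Fin d → ℂ) (t : ℝ) (i : Fin d) : ℂ := (starRingEnd ℂ) (φ (circleMap 0 1 t) i)

theorem Proper.le {φ : ℂ → Fin d → ℂ} (h : Proper d φ) {w : ℂ} (hw : ‖w‖ ≤ 1) : ∑ i, ‖φ w i‖ ^ 2 ≤ 1 := by
  rcases lt_or_eq_of_le hw with h1 | h1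
  · exact (show ∑ i, ‖φ w i‖ ^ 2 < 1 from h.maps w (by simpa using h1)).le
  · exact (h.bdry w h1).le

theorem circ_norm (t : ℝ) : ‖circleMap 0 1 t‖ = 1 := by
  rw [norm_circleMap_zero, abs_one]

theorem Proper.field {φ : ℂ → Fin d → ℂ} (h : Proper d φ) : IsField (vp φ) := by
  obtain ⟨R, hR, hd⟩ := h.diff
  refine ⟨fun i => ?_, fun t => ?_⟩
  · apply Continuous.measurable
    apply Complex.continuous_conj.comp
    refine (hd i).continuousOn.comp_continuous (continuous_circleMap 0 1) fun t => ?_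
    rw [mem_ball_zero_iff, circ_norm]
    exact hR
  · unfold vp
    simp only [RCLike.norm_conj]
    exact h.le (circ_norm t).le

theorem Proper.near {φ : ℂ → Fin d → ℂ} (h : Proper d φ) : ∃ C : ℝ, 0 < C ∧ ∀ i, ∀ w ∈ closedBall (0 : ℂ) 1,
    ∀ w' ∈ closedBall (0 : ℂ) 1, ‖φ w i - φ w' i‖ ≤ C * ‖w - w'‖ := by
  obtain ⟨R, hR, hd⟩ := h.diff
  have hsub : closedBall (0 : ℂ) 1 ⊆ ball 0 R := closedBall_subset_ball hR
  have h1 : ∀ i, ∃ C : ℝ, ∀ w ∈ closedBall (0 : ℂ) 1, ‖deriv (fun w => φ w i) w‖ ≤ C := by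
    intro i
    have hc : ContinuousOn (deriv fun w => φ w i) (closedBall (0 : ℂ) 1) :=
      (((hd i).analyticOnNhd isOpen_ball).deriv.continuousOn).mono hsub
    exact (isCompact_closedBall (0 : ℂ) 1).exists_bound_of_continuousOn hc
  choose C hC using h1
  refine ⟨(∑ i, |C i|) + 1, by positivity, fun i w hw w' hw' => ?_⟩
  have h2 := (convex_closedBall (0 : ℂ) 1).norm_image_sub_le_of_norm_deriv_le (f := fun w => φ w i) (C := C i)
    (fun x hx => ((hd i) x (hsub hx)).differentiableAt (isOpen_ball.mem_nhds (hsub hx))) (hC i) hw' hw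
  refine h2.trans (mul_le_mul_of_nonneg_right ?_ (norm_nonneg _))
  have h3 : |C i| ≤ ∑ j, |C j| := Finset.single_le_sum (f := fun j => |C j|) (fun j _ => abs_nonneg _) (mem_univ i)
  linarith [le_abs_self (C i)]

theorem cs_prod {a b : Fin d → ℂ} (ha : ∑ i, ‖a i‖ ^ 2 ≤ 1) (hb : b ∈ Ball d) : ‖∑ i, a i * b i‖ < 1 := by
  refine lt_of_le_of_lt (norm_sum_le _ _) ?_
  simp only [norm_mul]
  exact (cs_lt ha).trans_lt (sqrt_lt hb)

/-- the lower bound for the kernel along the disc -/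
theorem Proper.lower {φ : ℂ → Fin d → ℂ} (h : Proper d φ) : ∃ c : ℝ, 0 < c ∧ ∀ t : ℝ, ∀ w : ℂ, ‖w‖ < 1 →
    c⁻¹ * (H (w * ee t)).re ≤ (H (∑ i, vp φ t i * φ w i)).re := by
  obtain ⟨R, hR, hd⟩ := h.diff
  obtain ⟨C, hC0, hC⟩ := h.near
  refine ⟨(d : ℝ) * C + 1, by positivity, fun t w hw => ?_⟩
  obtain ⟨e, he⟩ : ∃ e, e = circleMap 0 1 t := ⟨_, rfl⟩
  have hen : ‖e‖ = 1 := by rw [he]; exact circ_norm t
  obtain ⟨g, hg⟩ : ∃ g : ℂ → ℂ, g = fun x => ∑ i, (starRingEnd ℂ) (φ e i) * φ (x * e) i := ⟨_, rfl⟩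
  have hmem : ∀ x ∈ ball (0 : ℂ) 1, x * e ∈ ball (0 : ℂ) 1 := by
    intro x hx
    rw [mem_ball_zero_iff] at hx ⊢
    rw [norm_mul, hen, mul_one]
    exact hx
  have hgd : DifferentiableOn ℂ g (ball 0 1) := by
    intro x hx
    have h1 := hmem x hx
    rw [hg]
    apply DifferentiableAt.differentiableWithinAt
    apply DifferentiableAt.fun_sum
    intro i _
    apply DifferentiableAt.const_mul
    have h2 : DifferentiableAt ℂ (fun w => φ w i) (x * e) :=
      ((hd i) _ (ball_subset_ball hR.le h1)).differentiableAt (isOpen_ball.mem_nhds (ball_subset_ball hR.le h1))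
    have h3 : DifferentiableAt ℂ (fun x : ℂ => x * e) x := differentiableAt_id.mul_const _
    exact DifferentiableAt.comp x (f := fun x : ℂ => x * e) h2 h3
  have hconj : ∑ i, ‖(starRingEnd ℂ) (φ e i)‖ ^ 2 ≤ 1 := by
    simp only [RCLike.norm_conj]
    exact (h.bdry e hen).le
  have hgm : ∀ x ∈ ball (0 : ℂ) 1, ‖g x‖ < 1 := by
    intro x hx
    rw [hg]
    exact cs_prod hconj (h.maps _ (hmem x hx))
  have hone : ∑ i, (starRingEnd ℂ) (φ e i) * φ e i = 1 := by
    have h1 : ∀ i, (starRingEnd ℂ) (φ e i) * φ e i = ((‖φ e i‖ ^ 2 : ℝ) : ℂ) := by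
      intro i
      rw [mul_comm, Complex.mul_conj, Complex.normSq_eq_norm_sq]
    rw [Finset.sum_congr rfl fun i _ => h1 i, ← Complex.ofReal_sum, h.bdry e hen, Complex.ofReal_one]
  have hrad : ∀ s : ℝ, 0 < s → s < 1 → ‖1 - g s‖ ≤ ((d : ℝ) * C + 1) * (1 - s) := by
    intro s hs0 hs1
    have h1 : 1 - g s = ∑ i, (starRingEnd ℂ) (φ e i) * (φ e i - φ ((s : ℂ) * e) i) := by
      rw [hg, ← hone]
      show _ - ∑ i, (starRingEnd ℂ) (φ e i) * φ ((s : ℂ) * e) i = _
      rw [← Finset.sum_sub_distrib]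
      exact Finset.sum_congr rfl fun i _ => by ring
    rw [h1]
    have h2 : ∀ i, ‖(starRingEnd ℂ) (φ e i) * (φ e i - φ ((s : ℂ) * e) i)‖ ≤ C * (1 - s) := by
      intro i
      rw [norm_mul, RCLike.norm_conj]
      have h3 : ‖φ e i‖ ≤ 1 := p7_le_one (h.bdry e hen).le i
      have h4 := hC i e (by simp [hen]) ((s : ℂ) * e) (by
        rw [mem_closedBall_zero_iff, norm_mul, hen, mul_one, Complex.norm_real, Real.norm_of_nonneg hs0.le]
        exact hs1.le)
      have h5 : ‖e - (s : ℂ) * e‖ = 1 - s := by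
        have : e - (s : ℂ) * e = ((1 - s : ℝ) : ℂ) * e := by push_cast; ring
        rw [this, norm_mul, hen, mul_one, Complex.norm_real, Real.norm_of_nonneg (by linarith)]
      rw [h5] at h4
      calc _ ≤ 1 * (C * (1 - s)) := mul_le_mul h3 h4 (norm_nonneg _) zero_le_one
        _ = _ := one_mul _
    refine (norm_sum_le _ _).trans ((Finset.sum_le_sum fun i _ => h2 i).trans ?_)
    rw [Finset.sum_const, Finset.card_univ, Fintype.card_fin, nsmul_eq_mul]
    nlinarith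
  have hx : ‖w * ee t‖ < 1 := by rw [norm_mul, ee_norm, mul_one]; exact hw
  have hJ := julia hgd hgm (C := (d : ℝ) * C + 1) (by positivity) hrad hx
  have hval : g (w * ee t) = ∑ i, vp φ t i * φ w i := by
    rw [hg]
    show ∑ i, (starRingEnd ℂ) (φ e i) * φ (w * ee t * e) i = _
    have : w * ee t * e = w := by
      rw [he, mul_assoc, mul_comm (ee t), circ_inv, mul_one]
    rw [this, he]
    rfl
  rw [hval] at hJ
  exact hJ

/-- Lebesgue measure on the boundary curve represents the origin -/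
theorem Proper.rep {φ : ℂ → Fin d → ℂ} (h : Proper d φ) {z : Fin d → ℂ} (hz : z ∈ Ball d) :
    ∫ t, H (∑ i, vp φ t i * z i) ∂leb = 1 := by
  obtain ⟨R, hR, hd⟩ := h.diff
  obtain ⟨G, hG⟩ : ∃ G : ℂ → ℂ, G = fun w => H (∑ i, φ w i * (starRingEnd ℂ) (z i)) := ⟨_, rfl⟩
  have hzc : (fun i => (starRingEnd ℂ) (z i)) ∈ Ball d := by
    show ∑ i, ‖(starRingEnd ℂ) (z i)‖ ^ 2 < 1
    simp only [RCLike.norm_conj]
    exact hz
  have hb : ∀ w : ℂ, ‖w‖ ≤ 1 → ‖∑ i, φ w i * (starRingEnd ℂ) (z i)‖ < 1 := fun w hw => cs_prod (h.le hw) hzc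
  have hGd : DiffContOnCl ℂ G (ball 0 |1|) := by
    apply DifferentiableOn.diffContOnCl
    rw [abs_one, closure_ball _ one_ne_zero]
    intro w hw
    have hw1 : ‖w‖ ≤ 1 := by simpa using hw
    have hwR : w ∈ ball (0 : ℂ) R := by
      rw [mem_ball_zero_iff]
      linarith
    rw [hG]
    have h1 : DifferentiableAt ℂ (fun w : ℂ => ∑ i, φ w i * (starRingEnd ℂ) (z i)) w := by
      apply DifferentiableAt.fun_sum
      intro i _
      exact (((hd i) w hwR).differentiableAt (isOpen_ball.mem_nhds hwR)).mul_const _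
    have h3 : DifferentiableAt ℂ H (∑ i, φ w i * (starRingEnd ℂ) (z i)) := H_diff (hb w hw1)
    exact (DifferentiableAt.comp w (f := fun w : ℂ => ∑ i, φ w i * (starRingEnd ℂ) (z i)) h3 h1).differentiableWithinAt
  have h1 : Real.circleAverage G 0 1 = 1 := by
    rw [DiffContOnCl.circleAverage hGd, hG]
    show H (∑ i, φ 0 i * (starRingEnd ℂ) (z i)) = 1
    rw [h.zero]
    simp [H]
  have hH : ∀ y, H ((starRingEnd ℂ) y) = (starRingEnd ℂ) (H y) := by
    intro y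
    unfold H
    rw [map_div₀, map_add, map_sub, map_one]
  have h2 : ∀ t, H (∑ i, vp φ t i * z i) = (starRingEnd ℂ) (G (circleMap 0 1 t)) := by
    intro t
    rw [hG]
    show _ = (starRingEnd ℂ) (H (∑ i, φ (circleMap 0 1 t) i * (starRingEnd ℂ) (z i)))
    rw [← hH, map_sum]
    congr 1
    refine Finset.sum_congr rfl fun i _ => ?_
    rw [map_mul, Complex.conj_conj]
    rfl
  simp only [h2]
  have h3 : ∫ t, (starRingEnd ℂ) (G (circleMap 0 1 t)) ∂leb = (starRingEnd ℂ) (∫ t, G (circleMap 0 1 t) ∂leb) :=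
    integral_conj
  have h4 : ∫ t, G (circleMap 0 1 t) ∂leb = 1 := by
    rw [integral_leb, ← h1]
    rfl
  rw [h3, h4, map_one]

end UOD
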