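import Pool.Agent.UOD.B5
import Pool.Agent.UOD.J2

set_option autoImplicit false

/-!
# [UOD-B10] a continuous measure which is not absolutely continuous; the equivalence on boundary curves
-/

open Filter Topology Finset Metric MeasureTheory

namespace UOD

open PCM

theorem cantor_ne (h : mu.map ss ≪ volume) : False := by
  have : IsProbabilityMeasure (mu.map ss) := Measure.isProbabilityMeasure_map ss_meas.aemeasurable
  obtain ⟨ν, hν⟩ : ∃ ν, ν = mu.map ss := ⟨_, rfl⟩
  have hfin : IsFiniteMeasure ν := by rw [hν]; infer_instance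
  rw [← hν] at h
  have h1 := Real.tendsto_integral_exp_smul_cocompact (E := ℂ) (fun t => (((ν.rnDeriv volume t).toReal : ℝ) : ℂ))
  have hw : Tendsto (fun j : ℕ => -(8 : ℝ) ^ j / (2 * Real.pi)) atTop (cocompact ℝ) := by
    rw [cocompact_eq_atBot_atTop]
    refine Tendsto.mono_right ?_ le_sup_left
    have h2 : Tendsto (fun j : ℕ => (8 : ℝ) ^ j / (2 * Real.pi)) atTop atTop :=
      (tendsto_pow_atTop_atTop_of_one_lt (by norm_num)).atTop_div_const (by positivity)
    have h3 := tendsto_neg_atTop_atBot.comp h2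
    refine h3.congr fun j => ?_
    show -((8 : ℝ) ^ j / (2 * Real.pi)) = _
    ring
  have h2 := h1.comp hw
  have h3 : ∀ j : ℕ, ∫ t : ℝ, (Real.fourierChar (-(t * (-(8 : ℝ) ^ j / (2 * Real.pi)))) : Circle) •
      (((ν.rnDeriv volume t).toReal : ℝ) : ℂ) = mom 1 := by
    intro j
    rw [← mom_pow j]
    have e : ∀ t : ℝ, (Real.fourierChar (-(t * (-(8 : ℝ) ^ j / (2 * Real.pi)))) : Circle) •
      (((ν.rnDeriv volume t).toReal : ℝ) : ℂ) = (ν.rnDeriv volume t).toReal •
        Complex.exp (((8 ^ j : ℕ) : ℂ) * (t : ℂ) * Complex.I) := by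
      intro t
      rw [Circle.smul_def, Real.fourierChar_apply, Complex.real_smul, smul_eq_mul, mul_comm]
      congr 2
      have : (2 * Real.pi : ℂ) ≠ 0 := by
        have := Real.pi_pos.ne'
        exact_mod_cast mul_ne_zero two_ne_zero this
      push_cast
      field_simp
    simp only [e]
    rw [integral_rnDeriv_smul h, hν, integral_map ss_meas.aemeasurable]
    · rfl
    · exact (by fun_prop : Continuous fun t : ℝ => Complex.exp (((8 ^ j : ℕ) : ℂ) * (t : ℂ) * Complex.I)).aestronglyMeasurable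
  have h4 : Tendsto (fun _ : ℕ => mom 1) atTop (𝓝 0) := by
    refine h2.congr fun j => ?_
    exact h3 j
  have h5 := tendsto_nhds_unique h4 tendsto_const_nhds
  have h6 := mom_one
  rw [← h5, Complex.zero_re] at h6
  norm_num at h6

theorem cantor_supp : mu.map ss (Set.Ico 0 (2 * Real.pi))ᶜ = 0 := by
  rw [Measure.map_apply ss_meas measurableSet_Ico.compl]
  have : ss ⁻¹' (Set.Ico 0 (2 * Real.pi))ᶜ = ∅ := by
    ext t
    simp only [Set.mem_preimage, Set.mem_compl_iff, Set.mem_empty_iff_false, iff_false, not_not]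
    exact ⟨ss_nonneg t, lt_of_le_of_lt (ss_le_one t) (by linarith [Real.pi_gt_three])⟩
  rw [this, measure_empty]

theorem cantor_atom (c : ℝ) : mu.map ss {c} = 0 := by
  rw [Measure.map_apply ss_meas (measurableSet_singleton c)]
  exact level_null c

variable {d : ℕ}

/-- on a boundary curve, membership in some `C_n` forces absolute continuity -/
theorem ac_of_mem {φ : ℂ → Fin d → ℂ} (hφ : Proper d φ) (ν : Measure ℝ) [IsFiniteMeasure ν]
    (hν : ν (Set.Ico 0 (2 * Real.pi))ᶜ = 0) {f : A d} {n : ℕ} (hf : f ∈ C d n)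
    (hfe : ∀ z ∈ Ball d, ev f z = Complex.exp (-∫ t, H (∑ i, vp φ t i * z i) ∂ν)) : ν ≪ volume := by
  have hconv : Conv f := conv_of_mem (mem_of_mult hf.1)
  obtain ⟨c, hc, hlow⟩ := hφ.lower
  by_contra hac
  have h1 : ∃ S : Set ℝ, volume S = 0 ∧ ν S ≠ 0 := by
    by_contra h2
    push Not at h2
    exact hac fun S hS => h2 S hS
  obtain ⟨S, hS0, hSν⟩ := h1
  -- a measurable hull
  obtain ⟨T, hT⟩ : ∃ T, T = toMeasurable volume S ∩ Set.Ico 0 (2 * Real.pi) := ⟨_, rfl⟩
  have hTm : MeasurableSet T := by rw [hT]; exact (measurableSet_toMeasurable _ _).inter measurableSet_Ico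
  have hT0 : volume T = 0 := by
    rw [hT]
    exact measure_mono_null Set.inter_subset_left (by rw [measure_toMeasurable]; exact hS0)
  have hTν : 0 < ν T := by
    rw [pos_iff_ne_zero]
    intro h3
    apply hSν
    refine measure_mono_null (t := T ∪ (Set.Ico 0 (2 * Real.pi))ᶜ) (fun t ht => ?_) (measure_union_null h3 hν)
    by_cases htI : t ∈ Set.Ico 0 (2 * Real.pi)
    · left; rw [hT]; exact ⟨subset_toMeasurable _ _ ht, htI⟩
    · right; exact htI
  obtain ⟨K, hKT, hK, hKν⟩ := hTm.exists_lt_isCompact_of_ne_top (measure_ne_top ν T) hTν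
  refine sing_not_ui hφ.field hφ.disc hc hlow ν hK (hKT.trans (by rw [hT]; exact Set.inter_subset_right))
    (measure_mono_null hKT hT0) hKν hconv hfe ?_
  intro ε hε
  obtain ⟨X, hX⟩ := main hf hε
  exact ⟨X, fun r hr0 hr1 => hX _ hφ.disc r hr0 hr1⟩

/-- on a boundary curve, absolute continuity gives cyclicity -/
theorem cyclic_curve {φ : ℂ → Fin d → ℂ} (hφ : Proper d φ) (ν : Measure ℝ) [IsFiniteMeasure ν]
    (hν : ν (Set.Ico 0 (2 * Real.pi))ᶜ = 0) {f : A d} (hf : Contr f)
    (hfe : ∀ z ∈ Ball d, ev f z = Complex.exp (-∫ t, H (∑ i, vp φ t i * z i) ∂ν))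
    (hac : ν ≪ volume) : f ∈ C d 0 := by
  refine cyclic_of_ac hφ.field leb ν (fun z hz => hφ.rep hz) ?_ hf hfe
  refine Measure.AbsolutelyContinuous.mk fun s hs hs0 => ?_
  have h2pi : (0 : ℝ) < 2 * Real.pi := by positivity
  have h1 : volume (s ∩ Set.Ico 0 (2 * Real.pi)) = 0 := by
    unfold leb at hs0
    rw [Measure.smul_apply, smul_eq_mul, mul_eq_zero, Measure.restrict_apply hs] at hs0
    rcases hs0 with h2 | h2
    · rw [ENNReal.ofReal_eq_zero] at h2
      have : 0 < (2 * Real.pi)⁻¹ := inv_pos.2 h2pi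
      linarith
    · exact h2
  refine measure_mono_null (t := (s ∩ Set.Ico 0 (2 * Real.pi)) ∪ (Set.Ico 0 (2 * Real.pi))ᶜ) (fun t ht => ?_)
    (measure_union_null (hac h1) hν)
  by_cases htI : t ∈ Set.Ico 0 (2 * Real.pi)
  · left; exact ⟨ht, htI⟩
  · right; exact htI

/-- the disc `w ↦ (w, w²)/√2` is proper -/
theorem dd_proper {i0 i1 : Fin d} (h01 : i0 ≠ i1) : Proper d (dd i0 i1) := by
  have hdisc := dd_disc h01
  refine ⟨⟨2, by norm_num, fun i => ?_⟩, hdisc.maps, fun w hw => ?_, hdisc.zero⟩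
  · unfold dd
    split_ifs
    · fun_prop
    · fun_prop
    · fun_prop
  · rw [sum_two h01]
    · unfold dd
      rw [if_pos rfl, if_neg h01.symm, if_pos rfl, norm_mul, norm_mul, norm_pow, hw, one_pow, mul_one,
        Complex.norm_real, Real.norm_of_nonneg h2_pos.le, h2_sq]
      norm_num
    · intro i h0 h1
      unfold dd
      rw [if_neg h0, if_neg h1]
      norm_num

theorem vp_dd {i0 i1 : Fin d} : vp (dd i0 i1) = vf i0 i1 := by
  have hc : ∀ t, (starRingEnd ℂ) (circleMap 0 1 t) = ee t := by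
    intro t
    have h1 := circ_inv t
    have h2 : circleMap 0 1 t * (starRingEnd ℂ) (circleMap 0 1 t) = 1 := by
      rw [Complex.mul_conj, Complex.normSq_eq_norm_sq, circ_norm]
      simp
    have h3 : circleMap 0 1 t ≠ 0 := left_ne_zero_of_mul_eq_one h1
    exact mul_left_cancel₀ h3 (h2.trans h1.symm)
  funext t i
  unfold vp dd vf
  split_ifs
  · rw [map_mul, Complex.conj_ofReal, hc]
  · rw [map_mul, map_pow, Complex.conj_ofReal, hc]
  · rw [map_zero]

/-- all slices outer, but in no `C_n` -/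
theorem example_slices {i0 i1 : Fin d} (h01 : i0 ≠ i1) :
    ∃ (v : ℝ → Fin d → ℂ) (ν : Measure ℝ), IsField v ∧ IsFiniteMeasure ν ∧ ∃ f : A d, Contr f ∧
      (∀ z ∈ Ball d, ev f z = Complex.exp (-∫ t, H (∑ i, v t i * z i) ∂ν)) ∧
      ((∀ z ∈ Ball d, ev f z ≠ 0) ∧
      ∀ z : Fin d → ℂ, ∑ i, ‖z i‖ ^ 2 ≤ 1 → ∀ ε : ℝ, 0 < ε → ∃ X : ℝ,
      ∀ r : ℝ, 0 < r → r < 1 →
        Real.circleAverage (fun w => max (-Real.log ‖ev f (fun i => w * z i)‖ - X) 0) 0 r ≤ ε) ∧
      ∀ n, f ∉ C d n := by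
  obtain ⟨ν, hν⟩ : ∃ ν, ν = mu.map ss := ⟨_, rfl⟩
  have hprob : IsProbabilityMeasure ν := by
    rw [hν]; exact Measure.isProbabilityMeasure_map ss_meas.aemeasurable
  obtain ⟨f, hf, hfe⟩ := herg_fin (field h01) ν
  refine ⟨vf i0 i1, ν, field h01, inferInstance, f, hf, hfe, ⟨fun z hz => ?_, fun z hz ε hε => ?_⟩,
    fun n hn => ?_⟩
  · rw [hfe z hz]
    exact Complex.exp_ne_zero _
  · exact slice_ui (field h01) ν (conv_of_contr hf) hfe hz
      (null_slice h01 hz (by rw [hν]; exact cantor_supp) (fun t => by rw [hν]; exact cantor_atom t)) hε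
  · have h1 := ac_of_mem (dd_proper h01) ν (by rw [hν]; exact cantor_supp) hn (by rw [vp_dd]; exact hfe)
    rw [hν] at h1
    exact cantor_ne h1

/-! ### measures on the closed ball -/

/-- the conjugate of a point of the closed ball -/
noncomputable def vb (ζ : Fin d → ℂ) (i : Fin d) : ℂ :=
  if ∑ j, ‖ζ j‖ ^ 2 ≤ 1 then (starRingEnd ℂ) (ζ i) else 0

theorem vb_field : IsField (vb (d := d)) := by
  refine ⟨fun i => ?_, fun ζ => ?_⟩
  · unfold vb
    refine Measurable.ite (measurableSet_le ?_ measurable_const)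
      (Complex.continuous_conj.measurable.comp (measurable_pi_apply i)) measurable_const
    exact Finset.measurable_sum _ fun j _ => ((measurable_pi_apply j).norm.pow_const 2)
  · unfold vb
    split_ifs with h
    · simp only [RCLike.norm_conj]; exact h
    · simp

/-- representing measures of the origin -/
theorem rep_of_mom (σ : Measure (Fin d → ℂ)) [IsProbabilityMeasure σ]
    (hs : ∀ᵐ ζ ∂σ, ∑ i, ‖ζ i‖ ^ 2 ≤ 1)
    (hm : ∀ α : Fin d →₀ ℕ, α ≠ 0 → ∫ ζ, ∏ i, ζ i ^ α i ∂σ = 0) {z : Fin d → ℂ} (hz : z ∈ Ball d) :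
    ∫ ζ, H (∑ i, vb ζ i * z i) ∂σ = 1 := by
  obtain ⟨h1, h2⟩ := herg vb_field σ
  rw [← h2 z hz]
  unfold ev
  rw [tsum_eq_single 0]
  · have h3 : MvPowerSeries.coeff 0 (avg kh vb σ) = 1 := by
      rw [coeff_avg]
      have : ∀ ζ : Fin d → ℂ, tm kh (vb ζ) 0 = 1 := by
        intro ζ
        unfold tm kh wt
        simp
      simp only [this]
      simp
    rw [h3]
    simp
  · intro α hα
    have h3 : MvPowerSeries.coeff α (avg kh vb σ) = 0 := by
      rw [coeff_avg]
      unfold tm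
      rw [integral_const_mul]
      have h4 : ∫ ζ, ∏ i, vb ζ i ^ α i ∂σ = (starRingEnd ℂ) (∫ ζ, ∏ i, ζ i ^ α i ∂σ) := by
        rw [← integral_conj]
        refine integral_congr_ae ?_
        filter_upwards [hs] with ζ hζ
        rw [map_prod]
        refine Finset.prod_congr rfl fun i _ => ?_
        unfold vb
        rw [if_pos hζ, map_pow]
      rw [h4, hm α hα, map_zero, mul_zero]
    rw [h3, zero_mul]

end UOD
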