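import Pool.Agent.UOD.B10
import Pool.Agent.PCM.Main2

set_option autoImplicit false

/-!
# [UOD-B11] contractive semigroups of multipliers: a uniform index forces cyclicity
-/

open Filter Topology Finset Metric MeasureTheory

namespace UOD

open PCM

variable {d : ℕ}

theorem semigroup_cyclic {F : A d} (N : ℕ)
    (hs : ∀ t : ℝ, 0 < t → t ≤ 1 → ∃ g : A d, Contr g ∧ g ∈ C d N ∧
      ∀ z ∈ Ball d, ev g z = Complex.exp (-((t : ℂ) * ev F z)))
    {f : A d} (hf : Conv f) (hfe : ∀ z ∈ Ball d, ev f z = Complex.exp (-ev F z)) : f ∈ C d 0 := by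
  have h0 : ∀ t : ℝ, ∃ g : A d, 0 < t → t ≤ 1 → (Contr g ∧ g ∈ C d N ∧
      ∀ z ∈ Ball d, ev g z = Complex.exp (-((t : ℂ) * ev F z))) := by
    intro t
    by_cases h : 0 < t ∧ t ≤ 1
    · obtain ⟨g, hg⟩ := hs t h.1 h.2
      exact ⟨g, fun _ _ => hg⟩
    · exact ⟨0, fun h1 h2 => absurd ⟨h1, h2⟩ h⟩
  choose G hG using h0
  have hGc : ∀ t : ℝ, 0 < t → t ≤ 1 → Conv (G t) := fun t h1 h2 => conv_of_contr (hG t h1 h2).1
  -- powers
  have hpow : ∀ (t : ℝ) (n : ℕ), 0 < t → t ≤ 1 → 0 < (n : ℝ) * t → (n : ℝ) * t ≤ 1 →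
      G t ^ n = G ((n : ℝ) * t) := by
    intro t n h1 h2 h3 h4
    apply ev_inj (conv_pow (hGc t h1 h2) n) (hGc _ h3 h4)
    intro z hz
    rw [ev_pow (hGc t h1 h2) n hz, (hG t h1 h2).2.2 z hz, (hG _ h3 h4).2.2 z hz, ← Complex.exp_nat_mul]
    congr 1
    push_cast
    ring
  have hf1 : f = G 1 := by
    apply ev_inj hf (hGc 1 one_pos le_rfl)
    intro z hz
    rw [hfe z hz, (hG 1 one_pos le_rfl).2.2 z hz, Complex.ofReal_one, one_mul]
  rw [hf1]
  obtain ⟨hc1, hcN, _⟩ := hG 1 one_pos le_rfl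
  rcases Nat.eq_zero_or_pos N with hN | hN
  · rw [hN] at hcN; exact hcN
  have hNr : (0 : ℝ) < N := by exact_mod_cast hN
  obtain ⟨q, hq⟩ : ∃ q : ℝ, q = (N : ℝ) / ((N : ℝ) + 1) := ⟨_, rfl⟩
  have hq0 : 0 < q := by rw [hq]; positivity
  have hq1 : q < 1 := by rw [hq, div_lt_one (by positivity)]; linarith
  have ha0 : ∀ k : ℕ, 0 < q ^ k := fun k => pow_pos hq0 k
  have ha1 : ∀ k : ℕ, q ^ k ≤ 1 := fun k => pow_le_one₀ hq0.le hq1.le
  have hstep : ∀ k : ℕ, inv (G (q ^ (k + 1))) = inv (G (q ^ k)) := by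
    intro k
    obtain ⟨t, ht⟩ : ∃ t : ℝ, t = q ^ k / ((N : ℝ) + 1) := ⟨_, rfl⟩
    have hN1 : (0 : ℝ) < (N : ℝ) + 1 := by positivity
    have ht0 : 0 < t := by rw [ht]; exact div_pos (ha0 k) hN1
    have ht1 : t ≤ 1 := by
      rw [ht, div_le_one hN1]
      linarith [ha1 k]
    have e1 : (N : ℝ) * t = q ^ (k + 1) := by
      rw [ht, pow_succ, hq]
      field_simp
    have e2 : ((N + 1 : ℕ) : ℝ) * t = q ^ k := by
      rw [ht]
      push_cast
      field_simp
    have h1 := hpow t N ht0 ht1 (by rw [e1]; exact ha0 _) (by rw [e1]; exact ha1 _)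
    have h2 := hpow t (N + 1) ht0 ht1 (by rw [e2]; exact ha0 _) (by rw [e2]; exact ha1 _)
    rw [e1] at h1
    rw [e2] at h2
    rw [← h1, ← h2]
    exact (hG t ht0 ht1).2.1.2.2
  have hall : ∀ k : ℕ, inv (G (q ^ k)) = inv (G 1) := by
    intro k
    induction k with
    | zero => rw [pow_zero]
    | succ k ih => rw [hstep, ih]
  -- convergence to one
  have hlim : Tendsto (fun k : ℕ => 2 - 2 * (Complex.exp (-(((q ^ k : ℝ) : ℂ) * ev F (fun _ => 0)))).re) atTop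
      (𝓝 (2 - 2 * (Complex.exp (-(((0 : ℝ) : ℂ) * ev F (fun _ => 0)))).re)) := by
    have h1 : Continuous fun x : ℝ => 2 - 2 * (Complex.exp (-((x : ℂ) * ev F (fun _ => 0)))).re := by
      fun_prop
    exact (h1.tendsto 0).comp (tendsto_pow_atTop_nhds_zero_of_lt_one hq0.le hq1)
  have hz : 2 - 2 * (Complex.exp (-(((0 : ℝ) : ℂ) * ev F (fun _ => 0)))).re = 0 := by
    rw [Complex.ofReal_zero, zero_mul, neg_zero, Complex.exp_zero, Complex.one_re]
    norm_num
  rw [hz] at hlim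
  refine ⟨hc1.isMult, ?_, ?_⟩
  · exact hcN.2.1
  · apply inv_eq hc1.isMult 0
    rw [pow_zero, zero_add, pow_one]
    refine ⟨one_mem, fun ε hε => ?_⟩
    obtain ⟨k, hk⟩ := (hlim.eventually (gt_mem_nhds (show (0 : ℝ) < (ε / 2) ^ 2 by positivity))).exists
    obtain ⟨hck, _, hek⟩ := hG (q ^ k) (ha0 k) (ha1 k)
    have h2 := near_one hck
    rw [← ev_zero_point, hek _ p20_zero_mem_ball] at h2
    have h3 : nrm (1 - G (q ^ k)) < ε / 2 := by
      refine lt_of_pow_lt_pow_left₀ 2 (by positivity) (lt_of_le_of_lt h2 hk)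
    have h4 : G (q ^ k) ∈ inv (G 1) := by
      rw [← hall k]
      exact e1_self_mem hck.isMult
    obtain ⟨φ, hφ, h5⟩ := h4.2 (ε / 2) (half_pos hε)
    refine ⟨φ, hφ, ?_⟩
    have m1 : (1 : A d) - G (q ^ k) ∈ H2 d := sub_mem one_mem (mem_of_mult hck.isMult)
    have m2 : G (q ^ k) - φ * G 1 ∈ H2 d :=
      sub_mem (mem_of_mult hck.isMult) (mem_of_mult (mult_mul hφ hc1.isMult))
    have h6 := nrm_add_le m1 m2
    rw [sub_add_sub_cancel] at h6
    linarith

theorem det_scale {F : A d} {δ t : ℝ} (ht : 0 < t) (h : Det (Om F δ)) :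
    Det (Om ((t : ℂ) • F) (t * δ)) := by
  intro K hK hexp hbd
  obtain ⟨a, ha⟩ := hexp
  obtain ⟨b, hb⟩ := hbd
  have htC : (t : ℂ) ≠ 0 := by exact_mod_cast ht.ne'
  obtain ⟨c, hc⟩ := h (fun w => K ((t : ℂ) * w)) (hK.comp (differentiable_id.const_mul _))
    ⟨|a| * (1 + t), fun w => by
      have h1 := ha ((t : ℂ) * w)
      rw [norm_mul, Complex.norm_real, Real.norm_of_nonneg ht.le] at h1
      refine h1.trans ?_
      have h2 : a * (t * ‖w‖) ≤ |a| * (1 + t) * ‖w‖ := by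
        have h3 : a * (t * ‖w‖) ≤ |a| * (t * ‖w‖) :=
          mul_le_mul_of_nonneg_right (le_abs_self a) (by positivity)
        have h4 : |a| * (t * ‖w‖) ≤ |a| * (1 + t) * ‖w‖ := by
          have : 0 ≤ |a| * ‖w‖ := by positivity
          nlinarith
        linarith
      have h5 : a ≤ |a| * (1 + t) := by
        have := le_abs_self a
        have := abs_nonneg a
        nlinarith
      calc a * Real.exp (a * (t * ‖w‖)) ≤ (|a| * (1 + t)) * Real.exp (a * (t * ‖w‖)) :=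
            mul_le_mul_of_nonneg_right h5 (Real.exp_pos _).le
        _ ≤ (|a| * (1 + t)) * Real.exp (|a| * (1 + t) * ‖w‖) :=
            mul_le_mul_of_nonneg_left (Real.exp_le_exp.2 h2) (by positivity)⟩
    ⟨b, fun w hw => hb _ (fun z hz => by
      have h1 := hw z hz
      rw [ev_smul, ← mul_sub, norm_mul, Complex.norm_real, Real.norm_of_nonneg ht.le]
      exact mul_le_mul_of_nonneg_left h1 ht.le)⟩
  refine ⟨c, fun w => ?_⟩
  have h1 := hc ((t : ℂ)⁻¹ * w)
  simp only [mul_inv_cancel_left₀ htC] at h1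
  exact h1

/-- restricted range and contractive fractional powers give cyclicity -/
theorem restricted_cyclic {F : A d} (hF : Conv F)
    (hs : ∀ t : ℝ, 0 < t → t ≤ 1 → ∃ g : A d, Contr g ∧
      ∀ z ∈ Ball d, ev g z = Complex.exp (-((t : ℂ) * ev F z))) {δ : ℝ} (hδ : 0 < δ)
    (h : ∫⁻ w in Om F δ ∩ {w : ℂ | 0 < w.re}, ENNReal.ofReal (1 / (1 + ‖w‖ ^ 2)) = ⊤)
    {f : A d} (hf : Conv f) (hfe : ∀ z ∈ Ball d, ev f z = Complex.exp (-ev F z)) : f ∈ C d 0 := by
  have hdet : Det (Om F δ) := by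
    refine det_of_area (Om F δ) δ ?_ h
    intro w hw z hz
    obtain ⟨g, hg, hge⟩ := hs 1 one_pos le_rfl
    have h1 := sup_bound hg.isMult le_rfl (fun g' hg' => by rw [one_mul]; exact (hg g' hg').2) hz
    rw [hge z hz, Complex.norm_exp, Complex.ofReal_one, one_mul] at h1
    have h2 : (-ev F z).re ≤ 0 := by
      by_contra h3
      push Not at h3
      have := Real.one_lt_exp_iff.2 h3
      linarith
    simp only [Complex.neg_re] at h2
    have h3 : δ ≤ (ev F z - w).re := by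
      rw [Complex.sub_re]
      linarith
    exact h3.trans (Complex.re_le_norm _)
  refine semigroup_cyclic (F := F) (d / 2) (fun t ht0 ht1 => ?_) hf hfe
  obtain ⟨g, hg, hge⟩ := hs t ht0 ht1
  refine ⟨g, hg, ?_, hge⟩
  exact core d g ((t : ℂ) • F) hg.isMult (conv_smul _ hF) (fun z hz => by rw [hge z hz, ev_smul])
    (t * δ) (by positivity) (det_scale ht0 hdet)

end UOD
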