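import Pool.Agent.UOD.B11

set_option autoImplicit false

/-!
# [UOD-B12] a uniform index in dimension `d` forces `∪ C_n = C_0` on contractive semigroups
-/

open Filter Topology Finset Metric MeasureTheory

namespace UOD

open PCM

variable {d : ℕ}

theorem mul_mem_inv_mul {f g ψ : A d} (hf : IsMult f) (hψ : IsMult ψ) (h : g ∈ inv f) :
    ψ * g ∈ inv (ψ * f) := by
  obtain ⟨hg, h2⟩ := h
  obtain ⟨M, hM1, hM⟩ := bounded_of_mult hψ
  have hM0 : 0 < M := lt_of_lt_of_le one_pos hM1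
  refine ⟨hψ g hg, fun ε hε => ?_⟩
  obtain ⟨φ, hφ, h3⟩ := h2 (ε / M) (div_pos hε hM0)
  refine ⟨φ, hφ, ?_⟩
  have e : ψ * g - φ * (ψ * f) = ψ * (g - φ * f) := by ring
  rw [e]
  have hm : g - φ * f ∈ H2 d := sub_mem hg (hφ f (mem_of_mult hf))
  refine lt_of_le_of_lt (hM _ hm) ?_
  rw [lt_div_iff₀ hM0] at h3
  linarith

/-- If one index works for all multipliers in dimension `d`, then a multiplier with contractive
fractional powers which lies in some `C_n` is cyclic. -/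
theorem index_principle {F : A d}
    (hs : ∀ t : ℝ, 0 < t → ∃ g : A d, Contr g ∧
      ∀ z ∈ Ball d, ev g z = Complex.exp (-((t : ℂ) * ev F z))) (N : ℕ)
    (hN : ∀ g : A d, (∃ n, g ∈ C d n) → g ∈ C d N) {f : A d} (hf : Conv f)
    (hfe : ∀ z ∈ Ball d, ev f z = Complex.exp (-ev F z)) {n : ℕ} (hn : f ∈ C d n) : f ∈ C d 0 := by
  refine semigroup_cyclic (F := F) N (fun t ht0 ht1 => ?_) hf hfe
  obtain ⟨g, hg, hge⟩ := hs t ht0
  have hgc := conv_of_contr hg
  obtain ⟨hfm, hf0, hfi⟩ := hn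
  -- the number of factors
  obtain ⟨M, hM⟩ := exists_nat_gt ((n : ℝ) / t)
  have hMn : (n : ℝ) < M * t := by rwa [div_lt_iff₀ ht0] at hM
  obtain ⟨a, ha, hae⟩ := hs ((M : ℝ) * t - n) (by linarith)
  have hac := conv_of_contr ha
  -- `g ^ M = a * f ^ n`
  have e1 : g ^ M = a * f ^ n := by
    apply ev_inj (conv_pow hgc M) (conv_mul hac (conv_pow hf n))
    intro z hz
    rw [ev_pow hgc M hz, ev_mul hac (conv_pow hf n) hz, ev_pow hf n hz, hge z hz, hae z hz, hfe z hz,
      ← Complex.exp_nat_mul, ← Complex.exp_nat_mul, ← Complex.exp_add]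
    congr 1
    push_cast
    ring
  -- `a * f ^ (n + 1) = b * g ^ (M + 1)`
  have e2 : ∃ b : A d, IsMult b ∧ a * f ^ (n + 1) = b * g ^ (M + 1) := by
    rcases lt_or_eq_of_le ht1 with h1 | h1
    · obtain ⟨b, hb, hbe⟩ := hs (1 - t) (by linarith)
      have hbc := conv_of_contr hb
      refine ⟨b, hb.isMult, ?_⟩
      apply ev_inj (conv_mul hac (conv_pow hf _)) (conv_mul hbc (conv_pow hgc _))
      intro z hz
      rw [ev_mul hac (conv_pow hf _) hz, ev_mul hbc (conv_pow hgc _) hz, ev_pow hf _ hz, ev_pow hgc _ hz,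
        hge z hz, hae z hz, hfe z hz, hbe z hz, ← Complex.exp_nat_mul, ← Complex.exp_nat_mul,
        ← Complex.exp_add, ← Complex.exp_add]
      congr 1
      push_cast
      ring
    · refine ⟨1, one_contr.isMult, ?_⟩
      apply ev_inj (conv_mul hac (conv_pow hf _)) (conv_mul conv_one (conv_pow hgc _))
      intro z hz
      rw [ev_mul hac (conv_pow hf _) hz, ev_mul conv_one (conv_pow hgc _) hz, ev_pow hf _ hz,
        ev_pow hgc _ hz, hge z hz, hae z hz, hfe z hz, ev_one, one_mul, ← Complex.exp_nat_mul,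
        ← Complex.exp_nat_mul, ← Complex.exp_add, h1]
      congr 1
      push_cast
      ring
  obtain ⟨b, hb, hbe⟩ := e2
  have h1 : f ^ n ∈ inv (f ^ (n + 1)) := by
    rw [← hfi]
    exact e1_self_mem (mult_pow hfm n)
  have h2 : a * f ^ n ∈ inv (a * f ^ (n + 1)) := mul_mem_inv_mul (mult_pow hfm _) ha.isMult h1
  have h3 : g ^ M ∈ inv (g ^ (M + 1)) := by
    rw [e1]
    refine ⟨h2.1, fun ε hε => ?_⟩
    obtain ⟨φ, hφ, h4⟩ := h2.2 ε hε
    refine ⟨φ * b, mult_mul hφ hb, ?_⟩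
    rw [mul_assoc, ← hbe]
    exact h4
  have h5 : g ∈ C d M := by
    refine ⟨hg.isMult, ?_, inv_eq hg.isMult M h3⟩
    intro h0
    have h6 := hge _ p20_zero_mem_ball
    rw [h0, ev_zero_point, map_zero] at h6
    exact Complex.exp_ne_zero _ h6.symm
  exact ⟨g, hg, hN g ⟨M, h5⟩, hge⟩

end UOD
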