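import Pool.Agent.UOD.B12

set_option autoImplicit false

/-!
# [UOD-B13] powers of Herglotz multipliers; the example as a measure on the closed ball
-/

open Filter Topology Finset Metric MeasureTheory

namespace UOD

open PCM

variable {d : ℕ}

theorem powers {Ω : Type} [MeasurableSpace Ω] {v : Ω → Fin d → ℂ} (hv : IsField v) (μ : Measure Ω)
    [IsFiniteMeasure μ] {F : A d} (hF : ∀ z ∈ Ball d, ev F z = ∫ ω, H (∑ i, v ω i * z i) ∂μ)
    {t : ℝ} (ht : 0 < t) :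
    ∃ g : A d, Contr g ∧ ∀ z ∈ Ball d, ev g z = Complex.exp (-((t : ℂ) * ev F z)) := by
  have hfin : IsFiniteMeasure (ENNReal.ofReal t • μ) := Measure.smul_finite μ ENNReal.ofReal_ne_top
  obtain ⟨g, hg, hge⟩ := herg_fin hv (ENNReal.ofReal t • μ)
  refine ⟨g, hg, fun z hz => ?_⟩
  rw [hge z hz, integral_smul_measure, ENNReal.toReal_ofReal ht.le, Complex.real_smul, hF z hz]

theorem example_ball {i0 i1 : Fin d} (h01 : i0 ≠ i1) :
    ∃ ν : Measure (Fin d → ℂ), IsFiniteMeasure ν ∧ (∀ᵐ ζ ∂ν, ∑ i, ‖ζ i‖ ^ 2 ≤ 1) ∧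
      ∃ f : A d, Contr f ∧ (∀ z ∈ Ball d, ev f z = Complex.exp (-∫ ζ, H (∑ i, vb ζ i * z i) ∂ν)) ∧
      ((∀ z ∈ Ball d, ev f z ≠ 0) ∧
      ∀ z : Fin d → ℂ, ∑ i, ‖z i‖ ^ 2 ≤ 1 → ∀ ε : ℝ, 0 < ε → ∃ X : ℝ,
      ∀ r : ℝ, 0 < r → r < 1 →
        Real.circleAverage (fun w => max (-Real.log ‖ev f (fun i => w * z i)‖ - X) 0) 0 r ≤ ε) ∧
      ∀ n, f ∉ C d n := by
  obtain ⟨v, ν, hv, hν, f, hf, hfe, hsl, hn⟩ := example_slices h01
  obtain ⟨c, hc⟩ : ∃ c : ℝ → Fin d → ℂ, c = fun t i => (starRingEnd ℂ) (v t i) := ⟨_, rfl⟩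
  have hcm : Measurable c := by
    rw [hc]
    exact measurable_pi_lambda _ fun i => Complex.continuous_conj.measurable.comp (hv.meas i)
  have hcb : ∀ t, ∑ i, ‖c t i‖ ^ 2 ≤ 1 := by
    intro t
    rw [hc]
    simp only [RCLike.norm_conj]
    exact hv.le t
  have hvb : ∀ t i, vb (c t) i = v t i := by
    intro t i
    unfold vb
    rw [if_pos (hcb t), hc]
    exact Complex.conj_conj _
  have hms : MeasurableSet {ζ : Fin d → ℂ | ∑ i, ‖ζ i‖ ^ 2 ≤ 1} :=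
    measurableSet_le (Finset.measurable_sum _ fun j _ => ((measurable_pi_apply j).norm.pow_const 2))
      measurable_const
  have hfin : IsFiniteMeasure (ν.map c) := by infer_instance
  refine ⟨ν.map c, hfin, (ae_map_iff hcm.aemeasurable hms).2 (Eventually.of_forall hcb), f, hf,
    fun z hz => ?_, hsl, hn⟩
  have e : ∫ ζ, H (∑ i, vb ζ i * z i) ∂(ν.map c) = ∫ t, H (∑ i, vb (c t) i * z i) ∂ν :=
    integral_map hcm.aemeasurable (H_meas.comp (field_meas vb_field z)).aestronglyMeasurable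
  rw [hfe z hz, e]
  simp only [hvb]

end UOD
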