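import Pool.Agent.UOD.B1
import Pool.Agent.PCM.D1
import Pool.Agent.PCM.T2
import Pool.Agent.PCM.P8

set_option autoImplicit false

/-!
# [UOD-B2] linear forms are contractions, Moebius transforms of them too
-/

open Filter Topology Finset Metric MeasureTheory

namespace UOD

open PCM

variable {d : ℕ}

/-- the linear form with coefficients `v` -/
noncomputable def lin (v : Fin d → ℂ) : A d := ∑ i, v i • MvPowerSeries.X i

/-- a contraction of `H2 d` -/
def Contr (φ : A d) : Prop := ∀ g ∈ H2 d, φ * g ∈ H2 d ∧ nrm (φ * g) ≤ nrm g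

theorem Contr.isMult {φ : A d} (h : Contr φ) : IsMult φ := fun g hg => (h g hg).1

theorem Contr.mul {φ ψ : A d} (h : Contr φ) (h' : Contr ψ) : Contr (φ * ψ) := by
  intro g hg
  obtain ⟨h1, h2⟩ := h' g hg
  obtain ⟨h3, h4⟩ := h _ h1
  rw [mul_assoc]
  exact ⟨h3, h4.trans h2⟩

theorem Contr.pow {φ : A d} (h : Contr φ) (n : ℕ) : Contr (φ ^ n) := by
  induction n with
  | zero => intro g hg; rw [pow_zero, one_mul]; exact ⟨hg, le_rfl⟩
  | succ n ih => rw [pow_succ]; exact ih.mul h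

/-- criterion by finite sums -/
theorem contr_of_fin {φ : A d} (h : ∀ g ∈ H2 d, ∀ s : Finset (Fin d →₀ ℕ),
    ∑ α ∈ s, wt α * ‖MvPowerSeries.coeff α (φ * g)‖ ^ 2 ≤ nrm g ^ 2) : Contr φ := by
  intro g hg
  have h0 : ∀ α : Fin d →₀ ℕ, 0 ≤ wt α * ‖MvPowerSeries.coeff α (φ * g)‖ ^ 2 :=
    fun α => mul_nonneg (wt_pos α).le (by positivity)
  have h1 : Summable fun α => wt α * ‖MvPowerSeries.coeff α (φ * g)‖ ^ 2 :=
    summable_of_sum_le h0 (h g hg)
  refine ⟨h1, ?_⟩
  have h2 : nrm (φ * g) ≤ Real.sqrt (nrm g ^ 2) :=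
    Real.sqrt_le_sqrt (h1.tsum_le_of_sum_le (h g hg))
  rwa [Real.sqrt_sq (nrm_nonneg g)] at h2

theorem nrm_sq {g : A d} : nrm g ^ 2 = ∑' α, wt α * ‖MvPowerSeries.coeff α g‖ ^ 2 := by
  unfold nrm
  rw [Real.sq_sqrt]
  exact tsum_nonneg fun α => mul_nonneg (wt_pos α).le (by positivity)

/-- the shifted family -/
theorem shift_sum (g : A d) (hg : g ∈ H2 d) (i : Fin d) :
    HasSum (fun α : Fin d →₀ ℕ => if 1 ≤ α i then wt (α - Finsupp.single i 1) *
      ‖MvPowerSeries.coeff (α - Finsupp.single i 1) g‖ ^ 2 else 0) (nrm g ^ 2) := by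
  have hg' : Summable fun α => wt α * ‖MvPowerSeries.coeff α g‖ ^ 2 := hg
  have hinj : Function.Injective fun β : Fin d →₀ ℕ => β + Finsupp.single i 1 :=
    fun a b h => add_right_cancel h
  rw [← hinj.hasSum_iff]
  · rw [nrm_sq]
    refine hg'.hasSum.congr_fun ?_
    intro β
    show (if 1 ≤ (β + Finsupp.single i 1 : Fin d →₀ ℕ) i then _ else _) = _
    rw [if_pos (by simp), add_tsub_cancel_right]
  · intro α hα
    rw [if_neg]
    intro h
    apply hα
    refine ⟨α - Finsupp.single i 1, ?_⟩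
    show α - Finsupp.single i 1 + Finsupp.single i 1 = α
    apply tsub_add_cancel_of_le
    rw [Finsupp.single_le_iff]
    exact h

theorem coeff_lin_mul (v : Fin d → ℂ) (g : A d) (α : Fin d →₀ ℕ) :
    MvPowerSeries.coeff α (lin v * g) =
      ∑ i, if 1 ≤ α i then v i * MvPowerSeries.coeff (α - Finsupp.single i 1) g else 0 := by
  classical
  unfold lin
  rw [Finset.sum_mul, map_sum]
  refine Finset.sum_congr rfl fun i _ => ?_
  rw [smul_mul_assoc, map_smul, smul_eq_mul]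
  by_cases h : 1 ≤ α i
  · rw [if_pos h]
    congr 1
    have e : α = (α - Finsupp.single i 1) + Finsupp.single i 1 := by
      rw [tsub_add_cancel_of_le]
      rw [Finsupp.single_le_iff]; exact h
    conv_lhs => rw [e]
    rw [mul_comm, MvPowerSeries.X, MvPowerSeries.coeff_add_mul_monomial, mul_one]
  · rw [if_neg h]
    have h0 : MvPowerSeries.coeff α (MvPowerSeries.X i * g) = 0 := by
      rw [MvPowerSeries.X, MvPowerSeries.coeff_monomial_mul, if_neg]
      rw [Finsupp.single_le_iff]; exact h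
    rw [h0, mul_zero]

theorem wt_shift (α : Fin d →₀ ℕ) (i : Fin d) (h : 1 ≤ α i) :
    wt (α - Finsupp.single i 1) * (α i : ℝ) = wt α * ((∑ j, α j : ℕ) : ℝ) := by
  classical
  obtain ⟨β, hβ⟩ : ∃ β, β = α - Finsupp.single i 1 := ⟨_, rfl⟩
  have e : α = β + Finsupp.single i 1 := by
    rw [hβ, tsub_add_cancel_of_le]
    rw [Finsupp.single_le_iff]; exact h
  rw [← hβ, e]
  unfold wt
  have h1 : ∑ j, (β + Finsupp.single i 1 : Fin d →₀ ℕ) j = (∑ j, β j) + 1 := by
    simp [Finsupp.add_apply, Finset.sum_add_distrib, Finsupp.single_apply]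
  have h2 : (∏ j, (((β + Finsupp.single i 1 : Fin d →₀ ℕ) j).factorial : ℝ)) =
      (∏ j, ((β j).factorial : ℝ)) * ((β i + 1 : ℕ) : ℝ) := by
    rw [← Finset.mul_prod_erase univ _ (mem_univ i), ← Finset.mul_prod_erase univ (fun j => ((β j).factorial : ℝ)) (mem_univ i)]
    have h3 : ∀ j ∈ univ.erase i, (((β + Finsupp.single i 1 : Fin d →₀ ℕ) j).factorial : ℝ) = ((β j).factorial : ℝ) := by
      intro j hj
      have : j ≠ i := (Finset.mem_erase.1 hj).1
      simp [Finsupp.add_apply, Finsupp.single_apply, this.symm]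
    rw [Finset.prod_congr rfl h3]
    have h4 : (β + Finsupp.single i 1 : Fin d →₀ ℕ) i = β i + 1 := by simp
    rw [h4, Nat.factorial_succ]
    push_cast
    ring
  rw [h1, h2, Nat.factorial_succ]
  have h5 : (β + Finsupp.single i 1 : Fin d →₀ ℕ) i = β i + 1 := by simp
  rw [h5]
  have h6 : (((∑ j, β j).factorial : ℕ) : ℝ) ≠ 0 := by positivity
  have h7 : (((∑ j, β j) + 1 : ℕ) : ℝ) ≠ 0 := by positivity
  push_cast at h7 ⊢
  field_simp

theorem lin_contr {v : Fin d → ℂ} (hv : ∑ i, ‖v i‖ ^ 2 ≤ 1) : Contr (lin v) := by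
  apply contr_of_fin
  intro g hg s
  have key : ∀ α : Fin d →₀ ℕ, wt α * ‖MvPowerSeries.coeff α (lin v * g)‖ ^ 2 ≤
      ∑ i, ‖v i‖ ^ 2 * (if 1 ≤ α i then wt (α - Finsupp.single i 1) *
        ‖MvPowerSeries.coeff (α - Finsupp.single i 1) g‖ ^ 2 else 0) := by
    intro α
    rw [coeff_lin_mul]
    obtain ⟨n, hn⟩ : ∃ n : ℕ, n = ∑ j, α j := ⟨_, rfl⟩
    rcases Nat.eq_zero_or_pos n with h0 | h0
    · have hz : ∀ i, ¬ 1 ≤ α i := by
        intro i hi
        have : α i ≤ ∑ j, α j := Finset.single_le_sum (f := fun j => α j) (fun _ _ => Nat.zero_le _) (mem_univ i)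
        omega
      simp [hz]
    · have hn0 : (0 : ℝ) < n := by exact_mod_cast h0
      -- x i and weights
      obtain ⟨x, hx⟩ : ∃ x : Fin d → ℂ, x = fun i => if 1 ≤ α i then v i *
        MvPowerSeries.coeff (α - Finsupp.single i 1) g else 0 := ⟨_, rfl⟩
      have e1 : (∑ i, if 1 ≤ α i then v i * MvPowerSeries.coeff (α - Finsupp.single i 1) g else 0) =
          ∑ i, x i := by rw [hx]
      rw [e1]
      obtain ⟨y, hy⟩ : ∃ y : Fin d → ℝ, y = fun i => ‖v i‖ ^ 2 * (if 1 ≤ α i then wt (α - Finsupp.single i 1) *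
        ‖MvPowerSeries.coeff (α - Finsupp.single i 1) g‖ ^ 2 else 0) := ⟨_, rfl⟩
      have e2 : ∑ i, ‖v i‖ ^ 2 * (if 1 ≤ α i then wt (α - Finsupp.single i 1) *
        ‖MvPowerSeries.coeff (α - Finsupp.single i 1) g‖ ^ 2 else 0) = ∑ i, y i := by rw [hy]
      rw [e2]
      have hy0 : ∀ i, 0 ≤ y i := by
        intro i
        rw [hy]
        simp only
        split_ifs
        · have := (wt_pos (α - Finsupp.single i 1)).le
          positivity
        · simp
      have hw : 0 < wt α := wt_pos α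
      have hxy : ∀ i, wt α * ‖x i‖ ^ 2 * n = α i * y i := by
        intro i
        rw [hx, hy]
        simp only
        split_ifs with h
        · have h3 := wt_shift α i h
          rw [← hn] at h3
          rw [norm_mul, mul_pow]
          calc wt α * (‖v i‖ ^ 2 * ‖MvPowerSeries.coeff (α - Finsupp.single i 1) g‖ ^ 2) * n
              = (wt α * n) * (‖v i‖ ^ 2 * ‖MvPowerSeries.coeff (α - Finsupp.single i 1) g‖ ^ 2) := by ring
            _ = _ := by rw [← h3]; ring
        · simp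
      have hle : ∀ i, Real.sqrt (wt α) * ‖x i‖ = Real.sqrt (α i / n) * Real.sqrt (y i) := by
        intro i
        rw [← Real.sqrt_mul (by positivity)]
        rw [eq_comm, Real.sqrt_eq_iff_mul_self_eq (mul_nonneg (by positivity) (hy0 i)) (by positivity)]
        have h4 : Real.sqrt (wt α) * ‖x i‖ * (Real.sqrt (wt α) * ‖x i‖) = wt α * ‖x i‖ ^ 2 := by
          have := Real.mul_self_sqrt hw.le
          calc _ = (Real.sqrt (wt α) * Real.sqrt (wt α)) * ‖x i‖ ^ 2 := by ring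
            _ = _ := by rw [this]
        rw [h4]
        have h5 := hxy i
        field_simp
        linarith
      have hsum : Real.sqrt (wt α) * ‖∑ i, x i‖ ≤ ∑ i, Real.sqrt (α i / n) * Real.sqrt (y i) := by
        calc Real.sqrt (wt α) * ‖∑ i, x i‖ ≤ Real.sqrt (wt α) * ∑ i, ‖x i‖ :=
              mul_le_mul_of_nonneg_left (norm_sum_le _ _) (Real.sqrt_nonneg _)
          _ = ∑ i, Real.sqrt (wt α) * ‖x i‖ := by rw [Finset.mul_sum]
          _ = _ := Finset.sum_congr rfl fun i _ => hle i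
      have hcs : (∑ i, Real.sqrt (α i / n) * Real.sqrt (y i)) ^ 2 ≤
          (∑ i, Real.sqrt (α i / n) ^ 2) * ∑ i, Real.sqrt (y i) ^ 2 :=
        Finset.sum_mul_sq_le_sq_mul_sq _ _ _
      have h6 : ∑ i, Real.sqrt (α i / n) ^ 2 = 1 := by
        have : ∀ i, Real.sqrt (α i / n) ^ 2 = (α i : ℝ) / n := fun i => Real.sq_sqrt (by positivity)
        rw [Finset.sum_congr rfl fun i _ => this i, ← Finset.sum_div, div_eq_one_iff_eq hn0.ne', hn]
        push_cast
        rfl
      have h7 : ∑ i, Real.sqrt (y i) ^ 2 = ∑ i, y i :=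
        Finset.sum_congr rfl fun i _ => Real.sq_sqrt (hy0 i)
      rw [h6, h7, one_mul] at hcs
      have h8 : wt α * ‖∑ i, x i‖ ^ 2 = (Real.sqrt (wt α) * ‖∑ i, x i‖) ^ 2 := by
        rw [mul_pow, Real.sq_sqrt hw.le]
      rw [h8]
      exact (pow_le_pow_left₀ (by positivity) hsum 2).trans hcs
  calc ∑ α ∈ s, wt α * ‖MvPowerSeries.coeff α (lin v * g)‖ ^ 2
      ≤ ∑ α ∈ s, ∑ i, ‖v i‖ ^ 2 * (if 1 ≤ α i then wt (α - Finsupp.single i 1) *
        ‖MvPowerSeries.coeff (α - Finsupp.single i 1) g‖ ^ 2 else 0) := Finset.sum_le_sum fun α _ => key α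
    _ = ∑ i, ‖v i‖ ^ 2 * ∑ α ∈ s, (if 1 ≤ α i then wt (α - Finsupp.single i 1) *
        ‖MvPowerSeries.coeff (α - Finsupp.single i 1) g‖ ^ 2 else 0) := by
        rw [Finset.sum_comm]
        exact Finset.sum_congr rfl fun i _ => (Finset.mul_sum _ _ _).symm
    _ ≤ ∑ i, ‖v i‖ ^ 2 * nrm g ^ 2 := by
        refine Finset.sum_le_sum fun i _ => mul_le_mul_of_nonneg_left ?_ (by positivity)
        refine sum_le_hasSum s (fun α _ => ?_) (shift_sum g hg i)
        split_ifs
        · exact mul_nonneg (wt_pos _).le (by positivity)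
        · exact le_rfl
    _ = (∑ i, ‖v i‖ ^ 2) * nrm g ^ 2 := by rw [Finset.sum_mul]
    _ ≤ 1 * nrm g ^ 2 := mul_le_mul_of_nonneg_right hv (by positivity)
    _ = _ := one_mul _

end UOD
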