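import Pool.Agent.UOD.B2

set_option autoImplicit false

/-!
# [UOD-B3] Moebius transforms of linear forms and their averages are contractions
-/

open Filter Topology Finset Metric MeasureTheory

namespace UOD

open PCM

variable {d : ℕ}

theorem conv_of_contr {φ : A d} (h : Contr φ) : Conv φ := conv_of_mem (mem_of_mult h.isMult)

theorem X_contr (i : Fin d) : Contr (MvPowerSeries.X i : A d) := by
  classical
  have h := lin_contr (v := fun j => if j = i then (1 : ℂ) else 0) (by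
    rw [Finset.sum_eq_single i]
    · simp
    · intro j _ hj; simp [hj]
    · intro h; exact absurd (mem_univ i) h)
  have e : lin (fun j => if j = i then (1 : ℂ) else 0) = (MvPowerSeries.X i : A d) := by
    unfold lin
    rw [Finset.sum_eq_single i]
    · simp
    · intro j _ hj; simp [hj]
    · intro h; exact absurd (mem_univ i) h
  rwa [e] at h

theorem ev_X (i : Fin d) (z : Fin d → ℂ) : ev (MvPowerSeries.X i : A d) z = z i := by
  classical
  unfold ev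
  rw [tsum_eq_single (Finsupp.single i 1)]
  · rw [MvPowerSeries.coeff_X, if_pos rfl, one_mul, Finset.prod_eq_single i]
    · simp
    · intro j _ hj
      rw [Finsupp.single_eq_of_ne hj, pow_zero]
    · intro h; exact absurd (mem_univ i) h
  · intro α hα
    rw [MvPowerSeries.coeff_X, if_neg hα, zero_mul]

theorem ev_lin (v : Fin d → ℂ) {z : Fin d → ℂ} (hz : z ∈ Ball d) : ev (lin v) z = ∑ i, v i * z i := by
  unfold lin
  rw [ev_sum _ _ (fun i _ => conv_smul _ (conv_of_contr (X_contr i))) hz]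
  refine Finset.sum_congr rfl fun i _ => ?_
  rw [ev_smul, ev_X]

/-- the series `k(⟨z, v⟩)` -/
noncomputable def ser (k : ℕ → ℂ) (v : Fin d → ℂ) : A d := fun α => tm k v α

theorem coeff_ser (k : ℕ → ℂ) (v : Fin d → ℂ) (α : Fin d →₀ ℕ) :
    MvPowerSeries.coeff α (ser k v) = tm k v α := rfl

theorem ser_spec (k : ℕ → ℂ) {K : ℝ} (hk : ∀ m, ‖k m‖ ≤ K) {v : Fin d → ℂ} (hv : ∑ i, ‖v i‖ ^ 2 ≤ 1) :
    Conv (ser k v) ∧ ∀ z ∈ Ball d, ev (ser k v) z = ∑' m, k m * (∑ i, v i * z i) ^ m := by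
  have hf : IsField (fun _ : Unit => v) := ⟨fun i => measurable_const, fun _ => hv⟩
  have h := avg_spec k hk hf (Measure.dirac ())
  have e : avg k (fun _ : Unit => v) (Measure.dirac ()) = ser k v := by
    funext α
    show ∫ ω, tm k v α ∂(Measure.dirac ()) = tm k v α
    simp
  rw [e] at h
  refine ⟨h.1, fun z hz => ?_⟩
  rw [h.2 z hz]
  simp

theorem lin_lt {v : Fin d → ℂ} (hv : ∑ i, ‖v i‖ ^ 2 ≤ 1) {z : Fin d → ℂ} (hz : z ∈ Ball d) :
    ‖∑ i, v i * z i‖ < 1 := by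
  have h := (cs_lt (z := z) hv).trans_lt (sqrt_lt hz)
  refine lt_of_le_of_lt (norm_sum_le _ _) ?_
  simpa only [norm_mul] using h

/-- Taylor coefficients of `(a - x)/(1 - a x)` -/
noncomputable def ka (a : ℝ) : ℕ → ℂ := fun m => if m = 0 then (a : ℂ) else -((1 - (a : ℂ) ^ 2) * (a : ℂ) ^ (m - 1))

theorem ka_norm {a : ℝ} (h0 : 0 ≤ a) (h1 : a < 1) (m : ℕ) : ‖ka a m‖ ≤ 1 := by
  unfold ka
  split_ifs with h
  · rw [Complex.norm_real, Real.norm_of_nonneg h0]; exact h1.le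
  · have e : (1 - (a : ℂ) ^ 2) = ((1 - a ^ 2 : ℝ) : ℂ) := by push_cast; ring
    rw [norm_neg, norm_mul, norm_pow, e, Complex.norm_real, Complex.norm_real, Real.norm_of_nonneg h0,
      Real.norm_of_nonneg (by nlinarith)]
    have h2 : a ^ (m - 1) ≤ 1 := pow_le_one₀ h0 h1.le
    have h3 : 0 ≤ a ^ (m - 1) := by positivity
    have h4 : 1 - a ^ 2 ≤ 1 := by nlinarith
    have h5 : 0 ≤ 1 - a ^ 2 := by nlinarith
    calc (1 - a ^ 2) * a ^ (m - 1) ≤ 1 * 1 := mul_le_mul h4 h2 h3 zero_le_one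
      _ = 1 := one_mul 1

theorem ka_sum {a : ℝ} (h0 : 0 ≤ a) (h1 : a < 1) {x : ℂ} (hx : ‖x‖ < 1) :
    HasSum (fun m => ka a m * x ^ m) (((a : ℂ) - x) / (1 - a * x)) := by
  have hax : ‖(a : ℂ) * x‖ < 1 := by
    rw [norm_mul, Complex.norm_real, Real.norm_of_nonneg h0]
    nlinarith [norm_nonneg x]
  have hne : (1 : ℂ) - a * x ≠ 0 := by
    intro h
    have : (a : ℂ) * x = 1 := by linear_combination -h
    rw [this, norm_one] at hax
    exact lt_irrefl _ hax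
  rw [← hasSum_nat_add_iff' 1]
  have h2 := (hasSum_geometric_of_norm_lt_one hax).mul_left (-((1 - (a : ℂ) ^ 2) * x))
  have e1 : ((a : ℂ) - x) / (1 - a * x) - ∑ i ∈ Finset.range 1, ka a i * x ^ i =
      -((1 - (a : ℂ) ^ 2) * x) * (1 - a * x)⁻¹ := by
    rw [Finset.sum_range_one]
    unfold ka
    rw [if_pos rfl]
    field_simp
    ring
  rw [e1]
  refine h2.congr_fun ?_
  intro m
  show ka a (m + 1) * x ^ (m + 1) = _
  unfold ka
  rw [if_neg (Nat.succ_ne_zero m), Nat.add_sub_cancel, mul_pow]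
  ring

theorem sq_identity (a : ℝ) (x y : ℂ) :
    ‖(a : ℂ) * x - y‖ ^ 2 + (1 - a ^ 2) * ‖x‖ ^ 2 = ‖x - a * y‖ ^ 2 + (1 - a ^ 2) * ‖y‖ ^ 2 := by
  rw [← Complex.normSq_eq_norm_sq, ← Complex.normSq_eq_norm_sq, ← Complex.normSq_eq_norm_sq,
    ← Complex.normSq_eq_norm_sq]
  simp only [Complex.normSq_apply, Complex.sub_re, Complex.sub_im, Complex.mul_re, Complex.mul_im,
    Complex.ofReal_re, Complex.ofReal_im]
  ring

theorem moeb_ineq {a : ℝ} (h0 : 0 ≤ a) (h1 : a < 1) {x y : A d} (hx : x ∈ H2 d) (hy : y ∈ H2 d)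
    (hxy : nrm y ≤ nrm x) : nrm ((a : ℂ) • x - y) ≤ nrm (x - (a : ℂ) • y) := by
  have m1 : (a : ℂ) • x - y ∈ H2 d := sub_mem (smul_mem _ hx) hy
  have m2 : x - (a : ℂ) • y ∈ H2 d := sub_mem hx (smul_mem _ hy)
  have e : nrm ((a : ℂ) • x - y) ^ 2 + (1 - a ^ 2) * nrm x ^ 2 =
      nrm (x - (a : ℂ) • y) ^ 2 + (1 - a ^ 2) * nrm y ^ 2 := by
    rw [nrm_sq, nrm_sq, nrm_sq, nrm_sq, ← tsum_mul_left, ← tsum_mul_left,
      ← Summable.tsum_add m1 (Summable.mul_left _ hx), ← Summable.tsum_add m2 (Summable.mul_left _ hy)]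
    refine tsum_congr fun α => ?_
    rw [map_sub, map_sub, map_smul, map_smul, smul_eq_mul, smul_eq_mul]
    have := sq_identity a (MvPowerSeries.coeff α x) (MvPowerSeries.coeff α y)
    linear_combination (wt α) * this
  have h2 : nrm y ^ 2 ≤ nrm x ^ 2 := pow_le_pow_left₀ (nrm_nonneg _) hxy 2
  have h3 : 0 ≤ 1 - a ^ 2 := by nlinarith
  have h4 : nrm ((a : ℂ) • x - y) ^ 2 ≤ nrm (x - (a : ℂ) • y) ^ 2 := by nlinarith
  exact (pow_le_pow_iff_left₀ (nrm_nonneg _) (nrm_nonneg _) two_ne_zero).1 h4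

/-- the Moebius transform of a linear form is a contraction -/
theorem moeb_contr {a : ℝ} (h0 : 0 ≤ a) (h1 : a < 1) {v : Fin d → ℂ} (hv : ∑ i, ‖v i‖ ^ 2 ≤ 1) :
    Contr (ser (ka a) v) := by
  have hL := lin_contr hv
  have hLc := conv_of_contr hL
  have hpow : ∀ m, ‖(fun m : ℕ => (a : ℂ) ^ m) m‖ ≤ 1 := by
    intro m
    show ‖(a : ℂ) ^ m‖ ≤ 1
    rw [norm_pow, Complex.norm_real, Real.norm_of_nonneg h0]
    exact pow_le_one₀ h0 h1.le
  obtain ⟨hGc, hGe⟩ := ser_spec _ hpow hv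
  obtain ⟨hBc, hBe⟩ := ser_spec _ (ka_norm h0 h1) hv
  obtain ⟨G, hG⟩ : ∃ G, G = ser (fun m : ℕ => (a : ℂ) ^ m) v := ⟨_, rfl⟩
  rw [← hG] at hGc hGe
  have hax : ∀ z ∈ Ball d, ‖(a : ℂ) * ∑ i, v i * z i‖ < 1 := by
    intro z hz
    rw [norm_mul, Complex.norm_real, Real.norm_of_nonneg h0]
    nlinarith [lin_lt hv hz, norm_nonneg (∑ i, v i * z i)]
  have hne : ∀ z ∈ Ball d, (1 : ℂ) - a * ∑ i, v i * z i ≠ 0 := by
    intro z hz h
    have h2 := hax z hz
    have : (a : ℂ) * ∑ i, v i * z i = 1 := by linear_combination -h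
    rw [this, norm_one] at h2
    exact lt_irrefl _ h2
  have hGe' : ∀ z ∈ Ball d, ev G z = (1 - a * ∑ i, v i * z i)⁻¹ := by
    intro z hz
    rw [hGe z hz]
    have := (hasSum_geometric_of_norm_lt_one (hax z hz)).tsum_eq
    rw [← this]
    exact tsum_congr fun m => (mul_pow _ _ _).symm
  have hD : IsMult (1 - (a : ℂ) • lin v) := by
    have h2 := mult_add (φ := (1 : A d)) (ψ := (-(a : ℂ)) • lin v) (fun g hg => by rwa [one_mul])
      (mult_smul _ hL.isMult)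
    have e : (1 : A d) + (-(a : ℂ)) • lin v = 1 - (a : ℂ) • lin v := by
      rw [neg_smul, sub_eq_add_neg]
    rwa [e] at h2
  have hDc : Conv (1 - (a : ℂ) • lin v) := conv_sub conv_one (conv_smul _ hLc)
  have hDe : ∀ z ∈ Ball d, ev (1 - (a : ℂ) • lin v) z = 1 - a * ∑ i, v i * z i := by
    intro z hz
    rw [ev_sub conv_one (conv_smul _ hLc) hz, ev_one, ev_smul, ev_lin v hz]
  have hDG : (1 - (a : ℂ) • lin v) * G = 1 := by
    apply ev_inj (conv_mul hDc hGc) conv_one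
    intro z hz
    rw [ev_mul hDc hGc hz, hDe z hz, hGe' z hz, ev_one, mul_inv_cancel₀ (hne z hz)]
  have hGm : IsMult G := by
    apply isMult_inv hD hGc hDG (sub_pos.2 h1)
    intro z hz
    rw [hDe z hz]
    have h2 := norm_sub_norm_le (1 : ℂ) (a * ∑ i, v i * z i)
    rw [norm_one, norm_mul, Complex.norm_real, Real.norm_of_nonneg h0] at h2
    nlinarith [lin_lt hv hz, norm_nonneg (∑ i, v i * z i)]
  have hN : Conv ((a : ℂ) • (1 : A d) - lin v) := conv_sub (conv_smul _ conv_one) hLc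
  have hB : ser (ka a) v = ((a : ℂ) • (1 : A d) - lin v) * G := by
    apply ev_inj hBc (conv_mul hN hGc)
    intro z hz
    rw [hBe z hz, ev_mul hN hGc hz, ev_sub (conv_smul _ conv_one) hLc hz, ev_smul, ev_one, ev_lin v hz,
      hGe' z hz, (ka_sum h0 h1 (lin_lt hv hz)).tsum_eq, mul_one, div_eq_mul_inv]
  intro h hh
  have hg : G * h ∈ H2 d := hGm h hh
  obtain ⟨hLg, hLn⟩ := hL _ hg
  have e1 : ser (ka a) v * h = (a : ℂ) • (G * h) - lin v * (G * h) := by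
    rw [hB, mul_assoc, sub_mul, smul_mul_assoc, one_mul]
  have e2 : h = G * h - (a : ℂ) • (lin v * (G * h)) := by
    have : (1 - (a : ℂ) • lin v) * (G * h) = h := by rw [← mul_assoc, hDG, one_mul]
    rw [sub_mul, one_mul, smul_mul_assoc] at this
    exact this.symm
  rw [e1]
  refine ⟨sub_mem (smul_mem _ hg) hLg, ?_⟩
  have := moeb_ineq h0 h1 hg hLg hLn
  rwa [← e2] at this

variable {Ω : Type*} [MeasurableSpace Ω]

theorem norm_int_sq (μ : Measure Ω) [IsProbabilityMeasure μ] {c : Ω → ℂ} (hc : Measurable c) {K : ℝ}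
    (hK : ∀ ω, ‖c ω‖ ≤ K) : ‖∫ ω, c ω ∂μ‖ ^ 2 ≤ ∫ ω, ‖c ω‖ ^ 2 ∂μ := by
  have hi : Integrable c μ := Integrable.of_bound hc.aestronglyMeasurable K (Eventually.of_forall hK)
  have hi2 : Integrable (fun ω => ‖c ω‖ ^ 2) μ := by
    refine Integrable.of_bound (hc.norm.pow_const 2).aestronglyMeasurable (K ^ 2)
      (Eventually.of_forall fun ω => ?_)
    rw [Real.norm_of_nonneg (by positivity)]
    exact pow_le_pow_left₀ (norm_nonneg _) (hK ω) 2
  obtain ⟨m, hm⟩ : ∃ m, m = ∫ ω, ‖c ω‖ ∂μ := ⟨_, rfl⟩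
  have h1 : ‖∫ ω, c ω ∂μ‖ ≤ m := by rw [hm]; exact norm_integral_le_integral_norm _
  have h2 : 0 ≤ ∫ ω, (‖c ω‖ - m) ^ 2 ∂μ := integral_nonneg fun ω => by positivity
  have h3 : ∫ ω, (‖c ω‖ - m) ^ 2 ∂μ = (∫ ω, ‖c ω‖ ^ 2 ∂μ) - 2 * m * m + m ^ 2 := by
    have e : ∀ ω, (‖c ω‖ - m) ^ 2 = (‖c ω‖ ^ 2 - 2 * m * ‖c ω‖) + m ^ 2 := fun ω => by ring
    simp only [e]
    have i1 : Integrable (fun ω => 2 * m * ‖c ω‖) μ := hi.norm.const_mul _
    have i2 : Integrable (fun ω => ‖c ω‖ ^ 2 - 2 * m * ‖c ω‖) μ := hi2.sub i1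
    rw [integral_add i2 (integrable_const _), integral_sub hi2 i1, integral_const_mul, ← hm]
    simp
  have h4 : ‖∫ ω, c ω ∂μ‖ ^ 2 ≤ m ^ 2 := pow_le_pow_left₀ (norm_nonneg _) h1 2
  nlinarith

/-- averages of Moebius transforms are contractions -/
theorem avg_contr {a : ℝ} (h0 : 0 ≤ a) (h1 : a < 1) {v : Ω → Fin d → ℂ}
    (hv : IsField v) (μ : Measure Ω) [IsProbabilityMeasure μ] : Contr (avg (ka a) v μ) := by
  classical
  have hvn : ∀ ω, ∑ i, ‖v ω i‖ ^ 2 ≤ 1 := hv.le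
  apply contr_of_fin
  intro g hg s
  have hcoef : ∀ α, MvPowerSeries.coeff α (avg (ka a) v μ * g) =
      ∫ ω, MvPowerSeries.coeff α (ser (ka a) (v ω) * g) ∂μ := by
    intro α
    simp only [MvPowerSeries.coeff_mul, coeff_avg, coeff_ser]
    rw [integral_finsetSum]
    · refine Finset.sum_congr rfl fun p _ => ?_
      rw [integral_mul_const]
    · intro p _
      exact (tm_int _ (ka_norm h0 h1) hv μ _).mul_const _
  have hmeas : ∀ α, Measurable fun ω => MvPowerSeries.coeff α (ser (ka a) (v ω) * g) := by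
    intro α
    simp only [MvPowerSeries.coeff_mul, coeff_ser]
    exact Finset.measurable_sum _ fun p _ => (tm_meas _ hv _).mul_const _
  have hbd : ∀ ω, ∑ α ∈ s, wt α * ‖MvPowerSeries.coeff α (ser (ka a) (v ω) * g)‖ ^ 2 ≤ nrm g ^ 2 := by
    intro ω
    obtain ⟨h2, h3⟩ := moeb_contr h0 h1 (hvn ω) g hg
    calc _ ≤ nrm (ser (ka a) (v ω) * g) ^ 2 := by
          rw [nrm_sq]
          exact (show Summable _ from h2).sum_le_tsum s (fun α _ => mul_nonneg (wt_pos α).le (by positivity))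
      _ ≤ _ := pow_le_pow_left₀ (nrm_nonneg _) h3 2
  have hbd1 : ∀ α ω, ‖MvPowerSeries.coeff α (ser (ka a) (v ω) * g)‖ ≤ nrm g / Real.sqrt (wt α) := by
    intro α ω
    obtain ⟨h2, h3⟩ := moeb_contr h0 h1 (hvn ω) g hg
    have h4 := norm_coeff_le h2 α
    have h5 : 0 < Real.sqrt (wt α) := Real.sqrt_pos.2 (wt_pos α)
    rw [le_div_iff₀ h5]
    linarith
  have hint : ∀ α, Integrable (fun ω => wt α * ‖MvPowerSeries.coeff α (ser (ka a) (v ω) * g)‖ ^ 2) μ := by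
    intro α
    refine (Integrable.of_bound ((hmeas α).norm.pow_const 2).aestronglyMeasurable
      ((nrm g / Real.sqrt (wt α)) ^ 2) (Eventually.of_forall fun ω => ?_)).const_mul _
    rw [Real.norm_of_nonneg (by positivity)]
    exact pow_le_pow_left₀ (norm_nonneg _) (hbd1 α ω) 2
  calc ∑ α ∈ s, wt α * ‖MvPowerSeries.coeff α (avg (ka a) v μ * g)‖ ^ 2
      ≤ ∑ α ∈ s, ∫ ω, wt α * ‖MvPowerSeries.coeff α (ser (ka a) (v ω) * g)‖ ^ 2 ∂μ := by
        refine Finset.sum_le_sum fun α _ => ?_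
        rw [hcoef, integral_const_mul]
        exact mul_le_mul_of_nonneg_left (norm_int_sq μ (hmeas α) (hbd1 α)) (wt_pos α).le
    _ = ∫ ω, ∑ α ∈ s, wt α * ‖MvPowerSeries.coeff α (ser (ka a) (v ω) * g)‖ ^ 2 ∂μ := by
        rw [integral_finsetSum _ fun α _ => hint α]
    _ ≤ ∫ _, nrm g ^ 2 ∂μ := integral_mono (integrable_finsetSum _ fun α _ => hint α)
        (integrable_const _) hbd
    _ = nrm g ^ 2 := by simp

end UOD
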