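import Pool.Agent.UOD.B3
import Pool.Agent.PCM.E2
import Pool.Agent.PCM.P4

set_option autoImplicit false

/-!
# [UOD-B4] `exp (-V)` is a contraction for a Herglotz average `V`
-/

open Filter Topology Finset Metric MeasureTheory

namespace UOD

open PCM

variable {d : ℕ}

/-- pointwise convergence and boundedness give convergence of the coefficients -/
theorem coeff_lim (X : ℕ → A d) (X0 : A d) (hX : ∀ j, Conv (X j)) (hX0 : Conv X0)
    (hB : ∀ j, ∀ z ∈ Ball d, ‖ev (X j) z‖ ≤ 1)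
    (h : ∀ z ∈ Ball d, Tendsto (fun j => ev (X j) z) atTop (𝓝 (ev X0 z))) (α : Fin d →₀ ℕ) :
    Tendsto (fun j => MvPowerSeries.coeff α (X j)) atTop (𝓝 (MvPowerSeries.coeff α X0)) := by
  obtain ⟨μ, hμ⟩ := exists_law d d (Nat.le_succ d)
  have := hμ.prob
  have hr0 : (0 : ℝ) ≤ 1 / 2 := by norm_num
  have hr : (1 / 2 : ℝ) < 1 := by norm_num
  have hball : ∀ z : Fin d → ℂ, ∑ i, ‖z i‖ ^ 2 ≤ 1 →
      (fun i => (((1 / 2 : ℝ)) : ℂ) * z i) ∈ Ball d := by
    intro z hz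
    show ∑ i, ‖(fun i => (((1 / 2 : ℝ)) : ℂ) * z i) i‖ ^ 2 < 1
    have e : ∑ i, ‖(fun i => (((1 / 2 : ℝ)) : ℂ) * z i) i‖ ^ 2 = 1 / 4 * ∑ i, ‖z i‖ ^ 2 := by
      rw [Finset.mul_sum]
      refine Finset.sum_congr rfl fun i _ => ?_
      show ‖(((1 / 2 : ℝ)) : ℂ) * z i‖ ^ 2 = _
      rw [norm_mul, Complex.norm_real, Real.norm_of_nonneg hr0]
      ring
    rw [e]
    linarith
  have h1 : Tendsto (fun j => ∫ z, ev (X j) (fun i => (((1 / 2 : ℝ)) : ℂ) * z i) *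
      ∏ i, (starRingEnd ℂ) (z i) ^ α i ∂μ) atTop
      (𝓝 (∫ z, ev X0 (fun i => (((1 / 2 : ℝ)) : ℂ) * z i) *
      ∏ i, (starRingEnd ℂ) (z i) ^ α i ∂μ)) := by
    refine tendsto_integral_filter_of_dominated_convergence (fun _ => 1)
      (Eventually.of_forall fun j => ?_) (Eventually.of_forall fun j => ?_)
      (integrable_const _) ?_
    · exact (measurable_ev_dilate (hX j) hr0 hr d μ hμ).mul
        (e2_cont α).aestronglyMeasurable
    · filter_upwards [hμ.supp] with z hz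
      rw [norm_mul]
      have h2 := hB j _ (hball z hz)
      have h3 := e2_le hz α
      calc _ ≤ (1 : ℝ) * 1 := mul_le_mul h2 h3 (norm_nonneg _) zero_le_one
        _ = _ := mul_one _
    · filter_upwards [hμ.supp] with z hz
      exact Tendsto.mul_const _ (h _ (hball z hz))
  simp only [coeff_formula (hX _) hr0 hr d μ hμ, coeff_formula hX0 hr0 hr d μ hμ] at h1
  have hne : ((((1 / 2 : ℝ)) ^ (∑ i, α i) * vv d α : ℝ) : ℂ) ≠ 0 := by
    have := vv_pos d α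
    rw [Complex.ofReal_ne_zero]
    positivity
  have h2 := h1.mul_const ((((1 / 2 : ℝ)) ^ (∑ i, α i) * vv d α : ℝ) : ℂ)⁻¹
  simpa only [mul_assoc, mul_inv_cancel₀ hne, mul_one] using h2

theorem contr_lim (X : ℕ → A d) (X0 : A d) (hX : ∀ j, Contr (X j)) (hX0 : Conv X0)
    (h : ∀ z ∈ Ball d, Tendsto (fun j => ev (X j) z) atTop (𝓝 (ev X0 z))) : Contr X0 := by
  classical
  have hB : ∀ j, ∀ z ∈ Ball d, ‖ev (X j) z‖ ≤ 1 := fun j z hz =>
    sup_bound (hX j).isMult le_rfl (fun g hg => by rw [one_mul]; exact (hX j g hg).2) hz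
  have hc := coeff_lim X X0 (fun j => conv_of_contr (hX j)) hX0 hB h
  apply contr_of_fin
  intro g hg s
  have h1 : Tendsto (fun j => ∑ α ∈ s, wt α * ‖MvPowerSeries.coeff α (X j * g)‖ ^ 2) atTop
      (𝓝 (∑ α ∈ s, wt α * ‖MvPowerSeries.coeff α (X0 * g)‖ ^ 2)) := by
    refine tendsto_finsetSum _ fun α _ => Tendsto.const_mul _ (Tendsto.pow (Tendsto.norm ?_) 2)
    simp only [MvPowerSeries.coeff_mul]
    exact tendsto_finsetSum _ fun p _ => (hc p.1).mul_const _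
  refine le_of_tendsto h1 (Eventually.of_forall fun j => ?_)
  obtain ⟨h2, h3⟩ := hX j g hg
  calc _ ≤ nrm (X j * g) ^ 2 := by
        rw [nrm_sq]
        exact (show Summable _ from h2).sum_le_tsum s (fun α _ => mul_nonneg (wt_pos α).le (by positivity))
    _ ≤ _ := pow_le_pow_left₀ (nrm_nonneg _) h3 2

/-- Taylor coefficients of `(1 + x)/(1 - x)` -/
noncomputable def kh : ℕ → ℂ := fun m => if m = 0 then 1 else 2

theorem kh_norm (m : ℕ) : ‖kh m‖ ≤ 2 := by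
  unfold kh
  split_ifs
  · simp
  · simp

/-- the Herglotz function -/
noncomputable def H (x : ℂ) : ℂ := (1 + x) / (1 - x)

theorem one_sub_ne {x : ℂ} (hx : ‖x‖ < 1) : (1 : ℂ) - x ≠ 0 := by
  intro h
  have : x = 1 := by linear_combination -h
  rw [this, norm_one] at hx
  exact lt_irrefl _ hx

theorem kh_sum {x : ℂ} (hx : ‖x‖ < 1) : HasSum (fun m => kh m * x ^ m) (H x) := by
  have hne := one_sub_ne hx
  rw [← hasSum_nat_add_iff' 1]
  have h2 := (hasSum_geometric_of_norm_lt_one hx).mul_left (2 * x)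
  have e1 : H x - ∑ i ∈ Finset.range 1, kh i * x ^ i = 2 * x * (1 - x)⁻¹ := by
    rw [Finset.sum_range_one]
    unfold kh H
    rw [if_pos rfl]
    field_simp
    ring
  rw [e1]
  refine h2.congr_fun ?_
  intro m
  show kh (m + 1) * x ^ (m + 1) = _
  unfold kh
  rw [if_neg (Nat.succ_ne_zero m)]
  ring

theorem H_norm {x : ℂ} {ρ : ℝ} (hρ : ρ < 1) (hx : ‖x‖ ≤ ρ) : ‖H x‖ ≤ 2 / (1 - ρ) := by
  unfold H
  rw [norm_div]
  have h1 : ‖(1 : ℂ) + x‖ ≤ 2 := by
    have := norm_add_le (1 : ℂ) x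
    rw [norm_one] at this
    linarith
  have h2 : 1 - ρ ≤ ‖(1 : ℂ) - x‖ := by
    have := norm_sub_norm_le (1 : ℂ) x
    rw [norm_one] at this
    linarith
  exact div_le_div₀ (by norm_num) h1 (by linarith) h2

theorem H_re_nonneg {x : ℂ} (hx : ‖x‖ < 1) : 0 ≤ (H x).re := by
  unfold H
  rw [Complex.div_re]
  have h1 : ‖x‖ ^ 2 ≤ 1 := by nlinarith [norm_nonneg x]
  rw [← Complex.normSq_eq_norm_sq, Complex.normSq_apply] at h1
  have h2 : 0 ≤ Complex.normSq (1 - x) := Complex.normSq_nonneg _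
  rw [← add_div]
  apply div_nonneg _ h2
  simp only [Complex.add_re, Complex.sub_re, Complex.add_im, Complex.sub_im, Complex.one_re, Complex.one_im]
  nlinarith

variable {Ω : Type*} [MeasurableSpace Ω]

theorem field_norm_le {v : Ω → Fin d → ℂ} (hv : IsField v) {z : Fin d → ℂ}
    (hz : z ∈ Ball d) : ∃ ρ : ℝ, 0 ≤ ρ ∧ ρ < 1 ∧ ∀ ω, ‖∑ i, v ω i * z i‖ ≤ ρ := by
  refine ⟨Real.sqrt (∑ i, ‖z i‖ ^ 2), Real.sqrt_nonneg _, sqrt_lt hz, fun ω => ?_⟩
  refine (norm_sum_le _ _).trans ?_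
  simp only [norm_mul]
  exact cs_lt (hv.le ω)

theorem field_meas {v : Ω → Fin d → ℂ} (hv : IsField v) (z : Fin d → ℂ) :
    Measurable fun ω => ∑ i, v ω i * z i :=
  Finset.measurable_sum _ fun i _ => (hv.meas i).mul_const _

theorem H_meas : Measurable H := by
  unfold H
  exact (measurable_const.add measurable_id).div (measurable_const.sub measurable_id)

theorem H_int {v : Ω → Fin d → ℂ} (hv : IsField v) (μ : Measure Ω) [IsFiniteMeasure μ] {z : Fin d → ℂ}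
    (hz : z ∈ Ball d) : Integrable (fun ω => H (∑ i, v ω i * z i)) μ := by
  obtain ⟨ρ, hρ0, hρ1, hρ⟩ := field_norm_le hv hz
  exact Integrable.of_bound (H_meas.comp (field_meas hv z)).aestronglyMeasurable (2 / (1 - ρ))
    (Eventually.of_forall fun ω => H_norm hρ1 (hρ ω))

/-- the Herglotz average as a power series -/
theorem herg {v : Ω → Fin d → ℂ} (hv : IsField v) (μ : Measure Ω)
    [IsFiniteMeasure μ] :
    Conv (avg kh v μ) ∧ ∀ z ∈ Ball d, ev (avg kh v μ) z = ∫ ω, H (∑ i, v ω i * z i) ∂μ := by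
  obtain ⟨h1, h2⟩ := avg_spec kh kh_norm hv μ
  refine ⟨h1, fun z hz => ?_⟩
  rw [h2 z hz]
  obtain ⟨ρ, _, hρ1, hρ⟩ := field_norm_le hv hz
  exact integral_congr_ae (Eventually.of_forall fun ω => (kh_sum (lt_of_le_of_lt (hρ ω) hρ1)).tsum_eq)

/-- **Herglotz multipliers**: `exp (-c ∫ (1 + ⟨z, v⟩)/(1 - ⟨z, v⟩))` is a contractive multiplier -/
theorem herg_exp {v : Ω → Fin d → ℂ} (hv : IsField v) (μ : Measure Ω)
    [IsProbabilityMeasure μ] {c : ℝ} (hc : 0 < c) :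
    ∃ f : A d, Contr f ∧ ∀ z ∈ Ball d, ev f z = Complex.exp (-((c : ℂ) * ∫ ω, H (∑ i, v ω i * z i) ∂μ)) := by
  obtain ⟨hVc, hVe⟩ := herg hv μ
  obtain ⟨P, hPc, hPe, _⟩ := exists_exp (avg kh v μ) hVc
  have hfe : ∀ z ∈ Ball d, ev (P c) z = Complex.exp (-((c : ℂ) * ∫ ω, H (∑ i, v ω i * z i) ∂μ)) := by
    intro z hz
    rw [hPe c z hz, hVe z hz]
  refine ⟨P c, ?_, hfe⟩
  -- the approximants
  obtain ⟨a, ha⟩ : ∃ a : ℕ → ℝ, a = fun N : ℕ => ((N : ℝ) + 1) / ((N : ℝ) + 1 + c) := ⟨_, rfl⟩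
  have hN0 : ∀ N : ℕ, (0 : ℝ) < (N : ℝ) + 1 + c := fun N => by positivity
  have ha0 : ∀ N, 0 ≤ a N := by
    intro N
    rw [ha]
    show 0 ≤ ((N : ℝ) + 1) / ((N : ℝ) + 1 + c)
    positivity
  have ha1 : ∀ N, a N < 1 := by
    intro N
    rw [ha]
    show ((N : ℝ) + 1) / ((N : ℝ) + 1 + c) < 1
    rw [div_lt_one (hN0 N)]
    linarith
  have haN : ∀ N : ℕ, ((N : ℝ) + 1) * (1 - a N) = c * a N := by
    intro N
    rw [ha]
    show ((N : ℝ) + 1) * (1 - ((N : ℝ) + 1) / ((N : ℝ) + 1 + c)) = c * (((N : ℝ) + 1) / ((N : ℝ) + 1 + c))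
    have := (hN0 N).ne'
    field_simp
    ring
  have halim : Tendsto a atTop (𝓝 1) := by
    have h1 : Tendsto (fun N : ℕ => (c * 1) / ((N : ℝ) + 1)) atTop (𝓝 0) := by
      have := (tendsto_one_div_add_atTop_nhds_zero_nat (𝕜 := ℝ)).const_mul c
      rw [mul_zero] at this
      refine this.congr fun N => ?_
      rw [mul_one_div, mul_one]
    have h2 : ∀ N : ℕ, 1 - (c * 1) / ((N : ℝ) + 1) ≤ a N := by
      intro N
      have h3 := haN N
      have h4 : (0 : ℝ) < (N : ℝ) + 1 := by positivity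
      have h5 : 1 - a N ≤ (c * 1) / ((N : ℝ) + 1) := by
        rw [le_div_iff₀ h4]
        have := ha1 N
        nlinarith
      linarith
    have h3 : Tendsto (fun N : ℕ => 1 - (c * 1) / ((N : ℝ) + 1)) atTop (𝓝 1) := by
      have := h1.const_sub 1
      rwa [sub_zero] at this
    exact tendsto_of_tendsto_of_tendsto_of_le_of_le h3 tendsto_const_nhds h2 fun N => (ha1 N).le
  refine contr_lim (fun N => avg (ka (a N)) v μ ^ (N + 1)) (P c)
    (fun N => (avg_contr (ha0 N) (ha1 N) hv μ).pow (N + 1)) (hPc c) ?_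
  intro z hz
  obtain ⟨ρ, hρ0, hρ1, hρ⟩ := field_norm_le hv hz
  have hlt : ∀ ω, ‖∑ i, v ω i * z i‖ < 1 := fun ω => lt_of_le_of_lt (hρ ω) hρ1
  obtain ⟨x, hx⟩ : ∃ x : Ω → ℂ, x = fun ω => ∑ i, v ω i * z i := ⟨_, rfl⟩
  have hxm : Measurable x := by rw [hx]; exact field_meas hv z
  have hxρ : ∀ ω, ‖x ω‖ ≤ ρ := by rw [hx]; exact hρ
  have hxlt : ∀ ω, ‖x ω‖ < 1 := fun ω => lt_of_le_of_lt (hxρ ω) hρ1
  have hev : ∀ N, ev (avg (ka (a N)) v μ) z = ∫ ω, ((a N : ℂ) - x ω) / (1 - a N * x ω) ∂μ := by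
    intro N
    rw [(avg_spec (ka (a N)) (ka_norm (ha0 N) (ha1 N)) hv μ).2 z hz, hx]
    exact integral_congr_ae (Eventually.of_forall fun ω => (ka_sum (ha0 N) (ha1 N) (hlt ω)).tsum_eq)
  have hgoal : ∀ N : ℕ, ev (avg (ka (a N)) v μ ^ (N + 1)) z =
      (∫ ω, ((a N : ℂ) - x ω) / (1 - a N * x ω) ∂μ) ^ (N + 1) := by
    intro N
    rw [ev_pow (conv_of_contr (avg_contr (ha0 N) (ha1 N) hv μ)) _ hz, hev]
  simp only [hgoal, hfe z hz]
  have hax : ∀ N ω, ‖(a N : ℂ) * x ω‖ < 1 := by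
    intro N ω
    rw [norm_mul, Complex.norm_real, Real.norm_of_nonneg (ha0 N)]
    nlinarith [norm_nonneg (x ω), ha1 N, hxlt ω, ha0 N]
  -- y_N
  obtain ⟨y, hy⟩ : ∃ y : ℕ → ℂ, y = fun N => ∫ ω, (1 + x ω) / (1 - a N * x ω) ∂μ := ⟨_, rfl⟩
  have hbd : ∀ N ω, ‖(1 + x ω) / (1 - a N * x ω)‖ ≤ 2 / (1 - ρ) := by
    intro N ω
    rw [norm_div]
    have h1 : ‖(1 : ℂ) + x ω‖ ≤ 2 := by
      have := norm_add_le (1 : ℂ) (x ω)
      rw [norm_one] at this
      linarith [hxlt ω]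
    have h2 : 1 - ρ ≤ ‖(1 : ℂ) - a N * x ω‖ := by
      have := norm_sub_norm_le (1 : ℂ) (a N * x ω)
      rw [norm_one, norm_mul, Complex.norm_real, Real.norm_of_nonneg (ha0 N)] at this
      nlinarith [norm_nonneg (x ω), ha1 N, hxρ ω, ha0 N]
    exact div_le_div₀ (by norm_num) h1 (by linarith) h2
  have hmeas : ∀ N, Measurable fun ω => (1 + x ω) / (1 - a N * x ω) := fun N =>
    (measurable_const.add hxm).div (measurable_const.sub (hxm.const_mul _))
  have hint : ∀ N, Integrable (fun ω => (1 + x ω) / (1 - a N * x ω)) μ := fun N =>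
    Integrable.of_bound (hmeas N).aestronglyMeasurable _ (Eventually.of_forall (hbd N))
  have hone : ∀ N : ℕ, ∫ ω, ((a N : ℂ) - x ω) / (1 - a N * x ω) ∂μ = 1 + (-(1 - (a N : ℂ))) * y N := by
    intro N
    have e : ∀ ω, ((a N : ℂ) - x ω) / (1 - a N * x ω) =
        1 + (-(1 - (a N : ℂ))) * ((1 + x ω) / (1 - a N * x ω)) := by
      intro ω
      have := one_sub_ne (hax N ω)
      field_simp
      ring
    simp only [e]
    rw [integral_add (integrable_const _) ((hint N).const_mul _), integral_const_mul, hy]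
    simp
  have haC : Tendsto (fun N => (a N : ℂ)) atTop (𝓝 1) := by
    exact_mod_cast (Complex.continuous_ofReal.tendsto 1).comp halim
  have hylim : Tendsto y atTop (𝓝 (∫ ω, H (x ω) ∂μ)) := by
    rw [hy]
    refine tendsto_integral_filter_of_dominated_convergence (fun _ => 2 / (1 - ρ))
      (Eventually.of_forall fun N => (hmeas N).aestronglyMeasurable)
      (Eventually.of_forall fun N => Eventually.of_forall fun ω => hbd N ω)
      (integrable_const _) (Eventually.of_forall fun ω => ?_)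
    have h2 : Tendsto (fun N => (1 + x ω) / (1 - (a N : ℂ) * x ω)) atTop (𝓝 ((1 + x ω) / (1 - 1 * x ω))) := by
      apply Tendsto.div tendsto_const_nhds ((tendsto_const_nhds).sub (haC.mul_const _))
      rw [one_mul]
      exact one_sub_ne (hxlt ω)
    rw [one_mul] at h2
    exact h2
  -- shift the index
  have hfin : Tendsto (fun n : ℕ => (1 + (fun n : ℕ => if n = 0 then 0 else (-(1 - (a (n - 1) : ℂ))) * y (n - 1)) n) ^ n)
      atTop (𝓝 (Complex.exp (-((c : ℂ) * ∫ ω, H (x ω) ∂μ)))) := by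
    apply Complex.tendsto_one_add_pow_exp_of_tendsto
    have h0 : Tendsto (fun n : ℕ => (c : ℂ) * ((a n : ℂ) * y n)) atTop (𝓝 ((c : ℂ) * (1 * ∫ ω, H (x ω) ∂μ))) :=
      (haC.mul hylim).const_mul _
    rw [one_mul] at h0
    have h1 : Tendsto (fun n : ℕ => -((c : ℂ) * ((a (n - 1) : ℂ) * y (n - 1)))) atTop
        (𝓝 (-((c : ℂ) * ∫ ω, H (x ω) ∂μ))) := (h0.comp (tendsto_sub_atTop_nat 1)).neg
    refine h1.congr' ?_
    filter_upwards [eventually_ge_atTop 1] with n hn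
    obtain ⟨m, rfl⟩ : ∃ m, n = m + 1 := ⟨n - 1, by omega⟩
    rw [if_neg (Nat.succ_ne_zero m), Nat.add_sub_cancel]
    have h3 : ((m : ℂ) + 1) * (1 - (a m : ℂ)) = c * a m := by exact_mod_cast haN m
    push_cast
    linear_combination (y m) * h3
  have h4 := hfin.comp (tendsto_add_atTop_nat 1)
  have h5 : (fun N : ℕ => (∫ ω, ((a N : ℂ) - x ω) / (1 - a N * x ω) ∂μ) ^ (N + 1)) =
      (fun n : ℕ => (1 + (fun n : ℕ => if n = 0 then 0 else (-(1 - (a (n - 1) : ℂ))) * y (n - 1)) n) ^ n) ∘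
        fun N => N + 1 := by
    funext N
    show _ = (1 + (if N + 1 = 0 then 0 else (-(1 - (a (N + 1 - 1) : ℂ))) * y (N + 1 - 1))) ^ (N + 1)
    rw [if_neg (Nat.succ_ne_zero N), Nat.add_sub_cancel, hone]
  rw [h5]
  rw [hx] at h4
  convert h4 using 1

theorem one_contr : Contr (1 : A d) := fun g hg => by rw [one_mul]; exact ⟨hg, le_rfl⟩

/-- Herglotz multipliers for finite measures -/
theorem herg_fin {v : Ω → Fin d → ℂ} (hv : IsField v) (μ : Measure Ω) [IsFiniteMeasure μ] :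
    ∃ f : A d, Contr f ∧ ∀ z ∈ Ball d, ev f z = Complex.exp (-∫ ω, H (∑ i, v ω i * z i) ∂μ) := by
  by_cases h0 : μ = 0
  · refine ⟨1, one_contr, fun z _ => ?_⟩
    rw [h0, ev_one, integral_zero_measure, neg_zero, Complex.exp_zero]
  · have : NeZero μ := ⟨h0⟩
    have hc : 0 < μ.real Set.univ :=
      ENNReal.toReal_pos (Measure.measure_univ_pos.2 h0).ne' (measure_ne_top _ _)
    obtain ⟨f, h1, h2⟩ := herg_exp hv ((μ Set.univ)⁻¹ • μ) hc
    refine ⟨f, h1, fun z hz => ?_⟩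
    rw [h2 z hz, integral_smul_measure]
    congr 2
    rw [ENNReal.toReal_inv]
    show (μ.real Set.univ : ℂ) * ((μ.real Set.univ)⁻¹ • _) = _
    rw [Complex.real_smul, ← mul_assoc]
    push_cast
    rw [mul_inv_cancel₀ (by exact_mod_cast hc.ne'), one_mul]

end UOD
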