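import Mathlib

set_option autoImplicit false

/-!
# [UOD-B5] a continuous singular measure on the circle whose Fourier coefficients do not decay
-/

open Filter Topology Finset Metric MeasureTheory

namespace UOD

/-- first binary digit -/
noncomputable def bt (t : ℝ) : ℝ := if Int.fract t < 1 / 2 then 0 else 1

theorem bt_cases (t : ℝ) : bt t = 0 ∨ bt t = 1 := by
  unfold bt; split_ifs <;> simp

theorem bt_nonneg (t : ℝ) : 0 ≤ bt t := by
  rcases bt_cases t with h | h <;> rw [h] <;> norm_num

theorem bt_le (t : ℝ) : bt t ≤ 1 := by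
  rcases bt_cases t with h | h <;> rw [h]; norm_num

theorem bt_add_nat (t : ℝ) (n : ℕ) : bt (t + n) = bt t := by
  unfold bt; rw [Int.fract_add_natCast]

theorem bt_meas : Measurable bt := by
  unfold bt
  exact Measurable.ite (measurableSet_lt measurable_fract measurable_const) measurable_const measurable_const

/-- the angle: binary digits read in base `8` -/
noncomputable def ss (t : ℝ) : ℝ := ∑' i : ℕ, (2 * Real.pi / 8) * (1 / 8) ^ i * bt (2 ^ i * t)

theorem ss_geo : HasSum (fun i : ℕ => (2 * Real.pi / 8) * (1 / 8 : ℝ) ^ i) (2 * Real.pi / 7) := by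
  have h := (hasSum_geometric_of_lt_one (r := (1 / 8 : ℝ)) (by norm_num) (by norm_num)).mul_left (2 * Real.pi / 8)
  have e : 2 * Real.pi / 8 * (1 - 1 / 8)⁻¹ = 2 * Real.pi / 7 := by
    field_simp
    norm_num
  rwa [e] at h

theorem ss_summable (t : ℝ) : Summable fun i : ℕ => (2 * Real.pi / 8) * (1 / 8 : ℝ) ^ i * bt (2 ^ i * t) := by
  refine Summable.of_nonneg_of_le (fun i => ?_) (fun i => ?_) ss_geo.summable
  · have := bt_nonneg (2 ^ i * t)
    have := Real.pi_pos
    positivity
  · have h1 := bt_le (2 ^ i * t)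
    have h2 : 0 ≤ (2 * Real.pi / 8) * (1 / 8 : ℝ) ^ i := by
      have := Real.pi_pos
      positivity
    nlinarith

theorem ss_nonneg (t : ℝ) : 0 ≤ ss t := by
  refine tsum_nonneg fun i => ?_
  have := bt_nonneg (2 ^ i * t)
  have := Real.pi_pos
  positivity

theorem ss_le (t : ℝ) : ss t ≤ 2 * Real.pi / 7 := by
  rw [← ss_geo.tsum_eq]
  refine Summable.tsum_le_tsum (fun i => ?_) (ss_summable t) ss_geo.summable
  have h1 := bt_le (2 ^ i * t)
  have h2 : 0 ≤ (2 * Real.pi / 8) * (1 / 8 : ℝ) ^ i := by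
    have := Real.pi_pos
    positivity
  nlinarith

theorem ss_rec (t : ℝ) : ss t = (2 * Real.pi / 8) * bt t + (1 / 8) * ss (2 * t) := by
  unfold ss
  rw [(ss_summable t).tsum_eq_zero_add, ← tsum_mul_left]
  congr 1
  · simp
  · refine tsum_congr fun i => ?_
    have : (2 : ℝ) ^ (i + 1) * t = 2 ^ i * (2 * t) := by ring
    rw [this, pow_succ]
    ring

theorem ss_per : Function.Periodic ss 1 := by
  intro t
  unfold ss
  refine tsum_congr fun i => ?_
  have : (2 : ℝ) ^ i * (t + 1) = 2 ^ i * t + ((2 ^ i : ℕ) : ℝ) := by push_cast; ring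
  rw [this, bt_add_nat]

theorem ss_meas : Measurable ss := by
  have h1 : ∀ n : ℕ, Measurable fun t => ∑ i ∈ Finset.range n, (2 * Real.pi / 8) * (1 / 8 : ℝ) ^ i * bt (2 ^ i * t) :=
    fun n => Finset.measurable_sum _ fun i _ => (bt_meas.comp (measurable_id.const_mul _)).const_mul _
  refine measurable_of_tendsto_metrizable h1 ?_
  rw [tendsto_pi_nhds]
  intro t
  exact (ss_summable t).hasSum.tendsto_sum_nat

/-- the parameter space -/
noncomputable def mu : Measure ℝ := volume.restrict (Set.Ico 0 1)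

instance : IsProbabilityMeasure mu := by
  constructor
  unfold mu
  rw [Measure.restrict_apply MeasurableSet.univ, Set.univ_inter, Real.volume_Ico]
  norm_num

theorem integral_mu {E : Type*} [NormedAddCommGroup E] [NormedSpace ℝ E] (F : ℝ → E) :
    ∫ t, F t ∂mu = ∫ t in (0 : ℝ)..1, F t := by
  unfold mu
  rw [intervalIntegral.integral_of_le zero_le_one, integral_Ico_eq_integral_Ioc]

theorem level_null (c : ℝ) : mu {t | ss t = c} = 0 := by
  have key : ∀ k : ℕ, ∀ c : ℝ, volume ({t | ss t = c} ∩ Set.Ico 0 1) ≤ (1 / 2 : ENNReal) ^ k := by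
    intro k
    induction k with
    | zero =>
      intro c
      refine (measure_mono Set.inter_subset_right).trans ?_
      rw [Real.volume_Ico]
      simp
    | succ k ih =>
      intro c
      obtain ⟨b, hb⟩ : ∃ b : ℕ, b = if c < 2 * Real.pi / 8 then 0 else 1 := ⟨_, rfl⟩
      have hsub : {t | ss t = c} ∩ Set.Ico 0 1 ⊆
          (fun t => 2 * t) ⁻¹' ((fun t => t + (-(b : ℝ))) ⁻¹'
            ({t | ss t = 8 * c - 2 * Real.pi * b} ∩ Set.Ico 0 1)) := by
        rintro t ⟨ht, ht0, ht1⟩
        have ht' : ss t = c := ht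
        have hf : Int.fract t = t := Int.fract_eq_self.2 ⟨ht0, ht1⟩
        have hrec := ss_rec t
        have hpi := Real.pi_pos
        have h2 := ss_le (2 * t)
        have h3 := ss_nonneg (2 * t)
        have hbt : bt t = b ∧ 2 * t + -(b : ℝ) ∈ Set.Ico (0 : ℝ) 1 := by
          by_cases h : t < 1 / 2
          · have e : bt t = 0 := by unfold bt; rw [hf, if_pos h]
            rw [e] at hrec
            have hc : c < 2 * Real.pi / 8 := by rw [← ht']; linarith
            rw [if_pos hc] at hb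
            rw [hb, e]
            refine ⟨by simp, by push_cast; linarith, by push_cast; linarith⟩
          · have e : bt t = 1 := by unfold bt; rw [hf, if_neg h]
            rw [e] at hrec
            have hc : ¬ c < 2 * Real.pi / 8 := by rw [← ht']; linarith
            rw [if_neg hc] at hb
            rw [hb, e]
            push Not at h
            refine ⟨by simp, by push_cast; linarith, by push_cast; linarith⟩
        refine ⟨?_, hbt.2⟩
        show ss (2 * t + -(b : ℝ)) = 8 * c - 2 * Real.pi * b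
        have hper : ss (2 * t + -(b : ℝ)) = ss (2 * t) := by
          have := ss_per.sub_nat_mul_eq (x := 2 * t) b
          rw [mul_one] at this
          rw [← sub_eq_add_neg]
          exact this
        rw [hper, ← ht', hrec, hbt.1]
        ring
      refine (measure_mono hsub).trans ?_
      rw [Real.volume_preimage_mul_left two_ne_zero, measure_preimage_add_right]
      have h5 := ih (8 * c - 2 * Real.pi * b)
      have h6 : ENNReal.ofReal |(2 : ℝ)⁻¹| = 1 / 2 := by
        rw [abs_of_pos (by norm_num), ENNReal.ofReal_inv_of_pos (by norm_num)]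
        norm_num
      rw [h6, pow_succ']
      gcongr
  have h1 : mu {t | ss t = c} = volume ({t | ss t = c} ∩ Set.Ico 0 1) := by
    unfold mu
    rw [Measure.restrict_apply (measurableSet_eq_fun ss_meas measurable_const)]
  rw [h1]
  have h2 : Tendsto (fun k : ℕ => (1 / 2 : ENNReal) ^ k) atTop (𝓝 0) :=
    ENNReal.tendsto_pow_atTop_nhds_zero_of_lt_one (by
      rw [one_div]
      exact ENNReal.inv_lt_one.2 ENNReal.one_lt_two)
  exact le_antisymm (ge_of_tendsto' h2 fun k => key k c) (zero_le)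

/-- the moments -/
noncomputable def mom (n : ℕ) : ℂ := ∫ t, Complex.exp ((n : ℂ) * (ss t : ℂ) * Complex.I) ∂mu

theorem mom_mul (n : ℕ) : mom (8 * n) = mom n := by
  unfold mom
  rw [integral_mu, integral_mu]
  obtain ⟨F, hF⟩ : ∃ F : ℝ → ℂ, F = fun t => Complex.exp ((n : ℂ) * (ss t : ℂ) * Complex.I) := ⟨_, rfl⟩
  have hFp : Function.Periodic F 1 := by
    intro t
    rw [hF]
    show Complex.exp ((n : ℂ) * (ss (t + 1) : ℂ) * Complex.I) = _
    rw [ss_per t]
  have hFm : Measurable F := by
    rw [hF]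
    exact Complex.measurable_exp.comp (((Complex.measurable_ofReal.comp ss_meas).const_mul _).mul_const _)
  have hFb : ∀ t, ‖F t‖ ≤ 1 := by
    intro t
    rw [hF]
    show ‖Complex.exp ((n : ℂ) * (ss t : ℂ) * Complex.I)‖ ≤ 1
    have : (n : ℂ) * (ss t : ℂ) * Complex.I = ((n * ss t : ℝ) : ℂ) * Complex.I := by push_cast; ring
    rw [this, Complex.norm_exp_ofReal_mul_I]
  have hFi : ∀ a b : ℝ, IntervalIntegrable F volume a b := by
    intro a b
    exact IntervalIntegrable.mono_fun' (g := fun _ => (1 : ℝ)) intervalIntegrable_const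
      hFm.aestronglyMeasurable (Eventually.of_forall hFb)
  have e : ∀ t, Complex.exp (((8 * n : ℕ) : ℂ) * (ss t : ℂ) * Complex.I) = F (2 * t) := by
    intro t
    rw [hF]
    show _ = Complex.exp ((n : ℂ) * (ss (2 * t) : ℂ) * Complex.I)
    rw [ss_rec t]
    rcases bt_cases t with h | h
    · rw [h]
      congr 1
      push_cast
      ring
    · rw [h]
      have : ((8 * n : ℕ) : ℂ) * ((2 * Real.pi / 8 * 1 + 1 / 8 * ss (2 * t) : ℝ) : ℂ) * Complex.I =
          (n : ℂ) * (ss (2 * t) : ℂ) * Complex.I + n * (2 * Real.pi * Complex.I) := by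
        push_cast
        ring
      rw [this, Complex.exp_add, Complex.exp_nat_mul_two_pi_mul_I, mul_one]
  have e2 : (∫ t in (0 : ℝ)..1, Complex.exp (((8 * n : ℕ) : ℂ) * (ss t : ℂ) * Complex.I)) =
      ∫ t in (0 : ℝ)..1, F (2 * t) := intervalIntegral.integral_congr fun t _ => e t
  rw [e2, intervalIntegral.integral_comp_mul_left F two_ne_zero]
  have e3 : (∫ t in (2 * 0 : ℝ)..(2 * 1), F t) = (∫ t in (0 : ℝ)..1, F t) + ∫ t in (0 : ℝ)..1, F t := by
    have h1 := hFp.intervalIntegral_add_eq 1 0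
    rw [zero_add] at h1
    rw [mul_zero, mul_one]
    have h2 : (∫ t in (0 : ℝ)..2, F t) = (∫ t in (0 : ℝ)..1, F t) + ∫ t in (1 : ℝ)..(1 + 1), F t := by
      rw [intervalIntegral.integral_add_adjacent_intervals (hFi 0 1) (hFi 1 (1 + 1))]
      norm_num
    rw [h2, h1]
  rw [e3, hF]
  rw [← two_smul ℝ, smul_smul]
  norm_num

theorem mom_pow (j : ℕ) : mom (8 ^ j) = mom 1 := by
  induction j with
  | zero => rw [pow_zero]
  | succ j ih => rw [pow_succ', mom_mul, ih]

theorem ss_le_one (t : ℝ) : ss t ≤ 9 / 10 := by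
  have h1 := ss_le t
  have h2 := Real.pi_lt_d2
  linarith

theorem mom_one : 1 / 2 ≤ (mom 1).re := by
  have hm : Measurable fun t => Complex.exp (((1 : ℕ) : ℂ) * (ss t : ℂ) * Complex.I) :=
    Complex.measurable_exp.comp (((Complex.measurable_ofReal.comp ss_meas).const_mul _).mul_const _)
  have e : ∀ t, Complex.exp (((1 : ℕ) : ℂ) * (ss t : ℂ) * Complex.I) = Complex.exp ((ss t : ℂ) * Complex.I) := by
    intro t; rw [Nat.cast_one, one_mul]
  have hb : ∀ t, ‖Complex.exp (((1 : ℕ) : ℂ) * (ss t : ℂ) * Complex.I)‖ ≤ 1 := by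
    intro t
    rw [e, Complex.norm_exp_ofReal_mul_I]
  have hi : Integrable (fun t => Complex.exp (((1 : ℕ) : ℂ) * (ss t : ℂ) * Complex.I)) mu :=
    Integrable.of_bound hm.aestronglyMeasurable 1 (Eventually.of_forall hb)
  unfold mom
  have h1 : (∫ t, Complex.exp (((1 : ℕ) : ℂ) * (ss t : ℂ) * Complex.I) ∂mu).re =
      ∫ t, (Complex.exp (((1 : ℕ) : ℂ) * (ss t : ℂ) * Complex.I)).re ∂mu := by
    exact (integral_re hi).symm
  rw [h1]
  have h2 : ∫ _ : ℝ, (1 / 2 : ℝ) ∂mu = 1 / 2 := by simp
  rw [← h2]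
  refine integral_mono (integrable_const _) hi.re fun t => ?_
  show 1 / 2 ≤ (Complex.exp (((1 : ℕ) : ℂ) * (ss t : ℂ) * Complex.I)).re
  rw [e, Complex.exp_ofReal_mul_I_re]
  have h3 := Real.one_sub_sq_div_two_le_cos (x := ss t)
  have h4 := ss_le_one t
  have h5 := ss_nonneg t
  nlinarith

end UOD
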