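import Pool.Agent.UOD.B4

set_option autoImplicit false

/-!
# [UOD-B6] circle averages of parameter integrals; slices of Herglotz multipliers
-/

open Filter Topology Finset Metric MeasureTheory

namespace UOD

open PCM

variable {d : ℕ} {Ω : Type*} [MeasurableSpace Ω]

theorem avg_swap {E : Type*} [NormedAddCommGroup E] [NormedSpace ℝ E] [CompleteSpace E]
    [MeasurableSpace E] [BorelSpace E] [SecondCountableTopology E] (μ : Measure Ω)
    [IsFiniteMeasure μ] {F : ℂ → Ω → E} {r K : ℝ}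
    (hm : Measurable (Function.uncurry fun (θ : ℝ) ω => F (circleMap 0 r θ) ω))
    (hK : ∀ θ ω, ‖F (circleMap 0 r θ) ω‖ ≤ K) :
    CircleIntegrable (fun w => ∫ ω, F w ω ∂μ) 0 r ∧
    Real.circleAverage (fun w => ∫ ω, F w ω ∂μ) 0 r = ∫ ω, Real.circleAverage (fun w => F w ω) 0 r ∂μ := by
  have h2pi : (0 : ℝ) ≤ 2 * Real.pi := by positivity
  have hint : Integrable (Function.uncurry fun (θ : ℝ) ω => F (circleMap 0 r θ) ω)
      ((volume.restrict (Set.Ioc 0 (2 * Real.pi))).prod μ) :=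
    Integrable.of_bound hm.aestronglyMeasurable K (Eventually.of_forall fun p => hK p.1 p.2)
  refine ⟨?_, ?_⟩
  · unfold CircleIntegrable
    rw [intervalIntegrable_iff, Set.uIoc_of_le h2pi]
    exact hint.integral_prod_left
  · unfold Real.circleAverage
    rw [intervalIntegral.integral_of_le h2pi, integral_integral_swap hint, ← integral_smul]
    refine integral_congr_ae (Eventually.of_forall fun ω => ?_)
    show _ = (2 * Real.pi)⁻¹ • ∫ θ in (0 : ℝ)..(2 * Real.pi), F (circleMap 0 r θ) ω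
    rw [intervalIntegral.integral_of_le h2pi]

theorem H_diff {x : ℂ} (hx : ‖x‖ < 1) : DifferentiableAt ℂ H x := by
  unfold H
  exact ((differentiableAt_const _).add differentiableAt_id).div
    ((differentiableAt_const _).sub differentiableAt_id) (one_sub_ne hx)

theorem mul_lt {w x : ℂ} (hw : ‖w‖ < 1) (hx : ‖x‖ ≤ 1) : ‖w * x‖ < 1 := by
  rw [norm_mul]
  nlinarith [norm_nonneg w, norm_nonneg x]

theorem circ_re {g : ℂ → ℂ} (hg : DifferentiableOn ℂ g (ball 0 1)) {r : ℝ} (hr0 : 0 < r)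
    (hr1 : r < 1) : Real.circleAverage (fun w => (g w).re) 0 r = (g 0).re := by
  have h1 := Complex.reCLM.circleAverage_comp_comm (f := g) (c := 0) (R := r)
    (contSphere hg hr0 hr1).circleIntegrable'
  rw [mean hg hr0 hr1] at h1
  exact h1

theorem mean_H {x : ℂ} (hx : ‖x‖ ≤ 1) {r : ℝ} (hr0 : 0 < r) (hr1 : r < 1) :
    Real.circleAverage (fun w => (H (w * x)).re) 0 r = 1 := by
  have hd : DifferentiableOn ℂ (fun w => H (w * x)) (ball 0 1) := by
    intro w hw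
    have hw1 : ‖w‖ < 1 := by simpa using hw
    have h1 : DifferentiableAt ℂ (fun w : ℂ => w * x) w := differentiableAt_id.mul_const _
    have h2 : DifferentiableAt ℂ H (w * x) := H_diff (mul_lt hw1 hx)
    exact (DifferentiableAt.comp w (f := fun w : ℂ => w * x) h2 h1).differentiableWithinAt
  rw [circ_re hd hr0 hr1]
  simp [H]

theorem cs_field {v : Ω → Fin d → ℂ} (hv : IsField v) (ω : Ω) {z : Fin d → ℂ}
    (hz : ∑ i, ‖z i‖ ^ 2 ≤ 1) : ‖∑ i, v ω i * z i‖ ≤ 1 := by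
  have h1 : (∑ i, ‖v ω i‖ * ‖z i‖) ^ 2 ≤ (∑ i, ‖v ω i‖ ^ 2) * ∑ i, ‖z i‖ ^ 2 :=
    Finset.sum_mul_sq_le_sq_mul_sq _ _ _
  have h2 : ∑ i, ‖v ω i‖ ^ 2 ≤ 1 := hv.le ω
  have h3 : 0 ≤ ∑ i, ‖z i‖ ^ 2 := by positivity
  have h4 : 0 ≤ ∑ i, ‖v ω i‖ ^ 2 := by positivity
  have h5 : ‖∑ i, v ω i * z i‖ ≤ ∑ i, ‖v ω i‖ * ‖z i‖ := by
    refine (norm_sum_le _ _).trans (le_of_eq ?_)
    simp only [norm_mul]
  have h6 : 0 ≤ ∑ i, ‖v ω i‖ * ‖z i‖ := by positivity
  nlinarith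

theorem smul_ball {z : Fin d → ℂ} (hz : ∑ i, ‖z i‖ ^ 2 ≤ 1) {w : ℂ} (hw : ‖w‖ < 1) :
    (fun i => w * z i) ∈ Ball d := by
  show ∑ i, ‖w * z i‖ ^ 2 < 1
  have h1 : ∑ i, ‖w * z i‖ ^ 2 = ‖w‖ ^ 2 * ∑ i, ‖z i‖ ^ 2 := by
    rw [Finset.mul_sum]
    exact Finset.sum_congr rfl fun i _ => by rw [norm_mul, mul_pow]
  rw [h1]
  have h2 : ‖w‖ ^ 2 < 1 := by nlinarith [norm_nonneg w]
  have h3 : 0 ≤ ∑ i, ‖z i‖ ^ 2 := by positivity
  have h4 : 0 ≤ ‖w‖ ^ 2 := by positivity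
  nlinarith

/-- `-log |f|` for a Herglotz multiplier -/
theorem neg_log_eq {v : Ω → Fin d → ℂ} (hv : IsField v) (μ : Measure Ω)
    [IsFiniteMeasure μ] {f : A d}
    (hfe : ∀ z ∈ Ball d, ev f z = Complex.exp (-∫ ω, H (∑ i, v ω i * z i) ∂μ)) {z : Fin d → ℂ}
    (hz : z ∈ Ball d) :
    Integrable (fun ω => (H (∑ i, v ω i * z i)).re) μ ∧
    -Real.log ‖ev f z‖ = ∫ ω, (H (∑ i, v ω i * z i)).re ∂μ := by
  have hi := H_int hv μ hz
  refine ⟨hi.re, ?_⟩
  rw [hfe z hz, Complex.norm_exp, Real.log_exp, Complex.neg_re, neg_neg]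
  exact (integral_re hi).symm

theorem slice_disc {z : Fin d → ℂ} (hz : ∑ i, ‖z i‖ ^ 2 ≤ 1) :
    IsDisc d (fun w i => w * z i) := by
  refine ⟨fun i => (differentiable_id.mul_const (z i)).differentiableOn, fun w hw => ?_, ?_⟩
  · exact smul_ball hz (by simpa using hw)
  · funext i; simp

/-- slices of Herglotz multipliers without atoms are outer -/
theorem slice_ui {v : Ω → Fin d → ℂ} (hv : IsField v) (μ : Measure Ω)
    [IsFiniteMeasure μ] {f : A d} (hf : Conv f)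
    (hfe : ∀ z ∈ Ball d, ev f z = Complex.exp (-∫ ω, H (∑ i, v ω i * z i) ∂μ)) {z : Fin d → ℂ}
    (hz : ∑ i, ‖z i‖ ^ 2 ≤ 1) (hnull : μ {ω | 1 ≤ ‖∑ i, v ω i * z i‖} = 0) {ε : ℝ} (hε : 0 < ε) :
    ∃ X : ℝ, ∀ r : ℝ, 0 < r → r < 1 →
      Real.circleAverage (fun w => max (-Real.log ‖ev f (fun i => w * z i)‖ - X) 0) 0 r ≤ ε := by
  obtain ⟨x, hx⟩ : ∃ x : Ω → ℂ, x = fun ω => ∑ i, v ω i * z i := ⟨_, rfl⟩
  have hxm : Measurable x := by rw [hx]; exact field_meas hv z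
  have hx1 : ∀ ω, ‖x ω‖ ≤ 1 := by rw [hx]; exact fun ω => cs_field hv ω hz
  have hnull' : μ {ω | 1 ≤ ‖x ω‖} = 0 := by rw [hx]; exact hnull
  -- the sets where `x` is almost unimodular
  obtain ⟨E, hE⟩ : ∃ E : ℕ → Set Ω, E = fun n : ℕ => {ω | 1 - 1 / ((n : ℝ) + 1) ≤ ‖x ω‖} := ⟨_, rfl⟩
  have hEm : ∀ n, MeasurableSet (E n) := by
    intro n
    rw [hE]
    exact measurableSet_le measurable_const hxm.norm
  have hanti : Antitone E := by
    intro m n hmn ω hω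
    rw [hE] at hω ⊢
    have h1 : 1 - 1 / ((n : ℝ) + 1) ≤ ‖x ω‖ := hω
    show 1 - 1 / ((m : ℝ) + 1) ≤ ‖x ω‖
    have h2 : 1 / ((n : ℝ) + 1) ≤ 1 / ((m : ℝ) + 1) :=
      one_div_le_one_div_of_le (by positivity) (by
        have : (m : ℝ) ≤ n := by exact_mod_cast hmn
        linarith)
    linarith
  have hlim := tendsto_measure_iInter_atTop (μ := μ) (fun n => (hEm n).nullMeasurableSet) hanti
    ⟨0, measure_ne_top _ _⟩
  have hcap : μ (⋂ n, E n) = 0 := by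
    refine measure_mono_null (fun ω hω => ?_) hnull'
    show 1 ≤ ‖x ω‖
    have h1 : ∀ n : ℕ, 1 - 1 / ((n : ℝ) + 1) ≤ ‖x ω‖ := by
      intro n
      have := Set.mem_iInter.1 hω n
      rw [hE] at this
      exact this
    have h2 : Tendsto (fun n : ℕ => 1 - 1 / ((n : ℝ) + 1)) atTop (𝓝 (1 - 0)) :=
      (tendsto_one_div_add_atTop_nhds_zero_nat (𝕜 := ℝ)).const_sub 1
    rw [sub_zero] at h2
    exact le_of_tendsto' h2 h1
  rw [hcap] at hlim
  obtain ⟨n, hn⟩ := (hlim.eventually (gt_mem_nhds (ENNReal.ofReal_pos.2 hε))).exists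
  have hn' : μ (E n) < ENNReal.ofReal ε := hn
  obtain ⟨δ, hδ⟩ : ∃ δ : ℝ, δ = 1 / ((n : ℝ) + 1) := ⟨_, rfl⟩
  have hδ0 : 0 < δ := by rw [hδ]; positivity
  obtain ⟨S, hS⟩ : ∃ S, S = E n := ⟨_, rfl⟩
  have hSm : MeasurableSet S := by rw [hS]; exact hEm n
  have hSc : ∀ ω, ω ∉ S → ‖x ω‖ ≤ 1 - δ := by
    intro ω hω
    rw [hS, hE] at hω
    have h1 : ¬ (1 - 1 / ((n : ℝ) + 1) ≤ ‖x ω‖) := hω
    rw [← hδ] at h1
    push Not at h1
    exact h1.le
  rw [← hS] at hn'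
  refine ⟨2 / δ * μ.real Set.univ, fun r hr0 hr1 => ?_⟩
  have hcm : ∀ θ : ℝ, ‖circleMap 0 r θ‖ < 1 := by
    intro θ
    rw [norm_circleMap_zero, abs_of_pos hr0]
    exact hr1
  -- the swap
  have hjm : Measurable (Function.uncurry fun (θ : ℝ) ω => (H (circleMap 0 r θ * x ω)).re) := by
    apply Complex.measurable_re.comp
    apply H_meas.comp
    exact ((continuous_circleMap 0 r).measurable.comp measurable_fst).mul (hxm.comp measurable_snd)
  have hHb : ∀ θ ω, ‖(H (circleMap 0 r θ * x ω)).re‖ ≤ 2 / (1 - r) := by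
    intro θ ω
    refine (Complex.abs_re_le_norm _).trans (H_norm hr1 ?_)
    rw [norm_mul, norm_circleMap_zero, abs_of_pos hr0]
    nlinarith [hx1 ω, norm_nonneg (x ω)]
  obtain ⟨hI, hsw⟩ := avg_swap (μ.restrict S) (F := fun w ω => (H (w * x ω)).re) hjm hHb
  have hval : ∫ ω in S, Real.circleAverage (fun w => (H (w * x ω)).re) 0 r ∂μ = μ.real S := by
    simp only [mean_H (hx1 _) hr0 hr1]
    simp
  rw [hval] at hsw
  have hle : μ.real S ≤ ε := by
    unfold Measure.real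
    exact ENNReal.toReal_le_of_le_ofReal hε.le hn'.le
  refine le_trans ?_ hle
  rw [← hsw]
  refine Real.circleAverage_mono (int_max hf (slice_disc hz) hr0 hr1 (2 / δ * μ.real Set.univ)) hI ?_
  intro w hw
  have hw1 : ‖w‖ < 1 := by
    have : ‖w‖ = |r| := by simpa using hw
    rw [this, abs_of_pos hr0]
    exact hr1
  have hzw := smul_ball hz hw1
  obtain ⟨hi1, hi2⟩ := neg_log_eq hv μ hfe hzw
  have hsum : ∀ ω, ∑ i, v ω i * (w * z i) = w * x ω := by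
    intro ω
    rw [hx]
    show _ = w * ∑ i, v ω i * z i
    rw [Finset.mul_sum]
    exact Finset.sum_congr rfl fun i _ => by ring
  simp only [hsum] at hi1 hi2
  have hE0 : 0 ≤ ∫ ω in S, (H (w * x ω)).re ∂μ :=
    integral_nonneg fun ω => H_re_nonneg (mul_lt hw1 (hx1 ω))
  show max (-Real.log ‖ev f (fun i => w * z i)‖ - 2 / δ * μ.real Set.univ) 0 ≤ ∫ ω in S, (H (w * x ω)).re ∂μ
  apply max_le _ hE0
  rw [hi2, ← integral_add_compl hSm hi1]
  have hc : ∫ ω in Sᶜ, (H (w * x ω)).re ∂μ ≤ 2 / δ * μ.real Set.univ := by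
    have h1 : ∫ ω in Sᶜ, (H (w * x ω)).re ∂μ ≤ ∫ ω in Sᶜ, (2 / δ : ℝ) ∂μ := by
      refine setIntegral_mono_on hi1.integrableOn (integrable_const _) hSm.compl fun ω hω => ?_
      have h2 : ‖w * x ω‖ ≤ 1 - δ := by
        rw [norm_mul]
        have h3 := hSc ω hω
        nlinarith [norm_nonneg (x ω), norm_nonneg w]
      have h4 := H_norm (ρ := 1 - δ) (by linarith) h2
      rw [sub_sub_cancel] at h4
      exact (Complex.re_le_norm _).trans h4
    refine h1.trans ?_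
    rw [setIntegral_const, smul_eq_mul]
    have h5 : μ.real Sᶜ ≤ μ.real Set.univ := measureReal_mono (Set.subset_univ _)
    have h6 : 0 ≤ 2 / δ := by positivity
    rw [mul_comm]
    exact mul_le_mul_of_nonneg_left h5 h6
  linarith

end UOD
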