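import Pool.Agent.UOD.B6

set_option autoImplicit false

/-!
# [UOD-B7] the curve `(e^{it}, e^{2it})/√2`
-/

open Filter Topology Finset Metric MeasureTheory

namespace UOD

open PCM

/-! ### the vector field -/

/-- the coordinate vectors `conj ζ(t)`, `ζ = (e^{is}, e^{2is})/√2` -/
noncomputable def ee (t : ℝ) : ℂ := Complex.exp (-(t : ℂ) * Complex.I)

theorem ee_norm (t : ℝ) : ‖ee t‖ = 1 := by
  unfold ee
  have : -(t : ℂ) * Complex.I = ((-t : ℝ) : ℂ) * Complex.I := by push_cast; ring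
  rw [this, Complex.norm_exp_ofReal_mul_I]

theorem ee_cont : Continuous ee := by
  unfold ee
  fun_prop

theorem ee_meas : Measurable ee := ee_cont.measurable

/-- `1/√2` -/
noncomputable def h2 : ℝ := Real.sqrt (1 / 2)

theorem h2_pos : 0 < h2 := Real.sqrt_pos.2 (by norm_num)
theorem h2_sq : h2 ^ 2 = 1 / 2 := Real.sq_sqrt (by norm_num)
theorem h2_sqC : (h2 : ℂ) * (h2 : ℂ) = 1 / 2 := by
  have := h2_sq
  rw [sq] at this
  rw [← Complex.ofReal_mul, this]
  push_cast
  rfl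

variable {d : ℕ}

noncomputable def vf (i0 i1 : Fin d) (t : ℝ) (i : Fin d) : ℂ :=
  if i = i0 then (h2 : ℂ) * ee t else if i = i1 then (h2 : ℂ) * ee t ^ 2 else 0

theorem sum_two {M : Type*} [AddCommMonoid M] {i0 i1 : Fin d} (h01 : i0 ≠ i1) (g : Fin d → M)
    (hg : ∀ i, i ≠ i0 → i ≠ i1 → g i = 0) : ∑ i, g i = g i0 + g i1 := by
  classical
  rw [← Finset.sum_pair h01]
  symm
  apply Finset.sum_subset (Finset.subset_univ _)
  intro i _ hi
  rw [Finset.mem_insert, Finset.mem_singleton] at hi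
  push Not at hi
  exact hg i hi.1 hi.2

theorem field {i0 i1 : Fin d} (h01 : i0 ≠ i1) : IsField (vf i0 i1) := by
  refine ⟨fun i => ?_, fun t => ?_⟩
  · unfold vf
    split_ifs
    · exact ee_meas.const_mul _
    · exact (ee_meas.pow_const 2).const_mul _
    · exact measurable_const
  · rw [sum_two h01]
    · unfold vf
      rw [if_pos rfl, if_neg h01.symm, if_pos rfl, norm_mul, norm_mul, norm_pow, ee_norm, one_pow, mul_one,
        Complex.norm_real, Real.norm_of_nonneg h2_pos.le, h2_sq]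
      norm_num
    · intro i h0 h1
      unfold vf
      rw [if_neg h0, if_neg h1]
      norm_num

theorem vf_sum {i0 i1 : Fin d} (h01 : i0 ≠ i1) (t : ℝ) (z : Fin d → ℂ) :
    ∑ i, vf i0 i1 t i * z i = (h2 : ℂ) * ee t * (z i0 + ee t * z i1) := by
  rw [sum_two h01]
  · unfold vf
    rw [if_pos rfl, if_neg h01.symm, if_pos rfl]
    ring
  · intro i h0 h1
    unfold vf
    rw [if_neg h0, if_neg h1, zero_mul]

theorem ee_inj {s t : ℝ} (hs : s ∈ Set.Ico 0 (2 * Real.pi)) (ht : t ∈ Set.Ico 0 (2 * Real.pi))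
    (h : ee s = ee t) : s = t := by
  unfold ee at h
  rw [Complex.exp_eq_exp_iff_exists_int] at h
  obtain ⟨n, hn⟩ := h
  have h1 : -(s : ℂ) = -(t : ℂ) + n * (2 * Real.pi) := by
    have : -(s : ℂ) * Complex.I = (-(t : ℂ) + n * (2 * Real.pi)) * Complex.I := by rw [hn]; ring
    exact mul_right_cancel₀ Complex.I_ne_zero this
  have h3 : -s = -t + n * (2 * Real.pi) := by exact_mod_cast h1
  have hpi := Real.pi_pos
  have h4 : n = 0 := by
    have h5 : (-1 : ℝ) < n := by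
      by_contra h6
      push Not at h6
      have h7 := hs.1
      have h8 := hs.2
      have h9 := ht.1
      have h10 := ht.2
      nlinarith
    have h6 : (n : ℝ) < 1 := by
      by_contra h6
      push Not at h6
      have h7 := hs.1
      have h8 := hs.2
      have h9 := ht.1
      have h10 := ht.2
      nlinarith
    have h7 : (-1 : ℤ) < n := by exact_mod_cast h5
    have h8 : n < (1 : ℤ) := by exact_mod_cast h6
    omega
  rw [h4] at h3
  push_cast at h3
  linarith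

theorem null_slice {i0 i1 : Fin d} (h01 : i0 ≠ i1) {z : Fin d → ℂ} (hz : ∑ i, ‖z i‖ ^ 2 ≤ 1)
    {ν : Measure ℝ} (hν : ν (Set.Ico 0 (2 * Real.pi))ᶜ = 0) (hat : ∀ t, ν {t} = 0) :
    ν {t | 1 ≤ ‖∑ i, vf i0 i1 t i * z i‖} = 0 := by
  have hz2 : ‖z i0‖ ^ 2 + ‖z i1‖ ^ 2 ≤ 1 := by
    classical
    have h1 : ∑ i ∈ ({i0, i1} : Finset (Fin d)), ‖z i‖ ^ 2 ≤ ∑ i, ‖z i‖ ^ 2 :=
      Finset.sum_le_univ_sum_of_nonneg fun i => by positivity
    rw [Finset.sum_pair h01] at h1
    linarith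
  have key : ∀ t, 1 ≤ ‖∑ i, vf i0 i1 t i * z i‖ → z i0 = ee t * z i1 ∧ z i1 ≠ 0 := by
    intro t ht
    rw [vf_sum h01, norm_mul, norm_mul, ee_norm, mul_one, Complex.norm_real,
      Real.norm_of_nonneg h2_pos.le] at ht
    have h1 : (1 : ℝ) ^ 2 ≤ (h2 * ‖z i0 + ee t * z i1‖) ^ 2 := pow_le_pow_left₀ zero_le_one ht 2
    rw [mul_pow, h2_sq] at h1
    have h3 := parallelogram_law_with_norm ℝ (z i0) (ee t * z i1)
    rw [norm_mul (ee t) (z i1), ee_norm, one_mul] at h3
    have h4 : ‖z i0 - ee t * z i1‖ = 0 := by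
      have : ‖z i0 - ee t * z i1‖ ^ 2 ≤ 0 := by linarith
      nlinarith [norm_nonneg (z i0 - ee t * z i1)]
    have h5 : z i0 = ee t * z i1 := by
      rw [norm_eq_zero] at h4
      linear_combination h4
    refine ⟨h5, fun h6 => ?_⟩
    rw [h5, h6] at h1
    norm_num at h1
  by_cases hne : ∃ t0 ∈ Set.Ico 0 (2 * Real.pi), 1 ≤ ‖∑ i, vf i0 i1 t0 i * z i‖
  · obtain ⟨t0, ht00, ht0⟩ := hne
    obtain ⟨h1, h3⟩ := key t0 ht0
    refine measure_mono_null (t := (Set.Ico 0 (2 * Real.pi))ᶜ ∪ {t0}) (fun t ht => ?_)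
      (measure_union_null hν (hat t0))
    by_cases htI : t ∈ Set.Ico 0 (2 * Real.pi)
    · right
      obtain ⟨h4, _⟩ := key t ht
      have h5 : ee t = ee t0 := by
        have : ee t * z i1 = ee t0 * z i1 := by rw [← h4, ← h1]
        exact mul_right_cancel₀ h3 this
      exact ee_inj htI ht00 h5
    · left; exact htI
  · push Not at hne
    refine measure_mono_null (fun t ht => ?_) hν
    intro htI
    exact absurd ht (not_le.2 (hne t htI))

/-! ### the disc -/

/-- the disc `w ↦ (w, w²)/√2` -/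
noncomputable def dd (i0 i1 : Fin d) (w : ℂ) (i : Fin d) : ℂ :=
  if i = i0 then (h2 : ℂ) * w else if i = i1 then (h2 : ℂ) * w ^ 2 else 0

theorem dd_disc {i0 i1 : Fin d} (h01 : i0 ≠ i1) : IsDisc d (dd i0 i1) := by
  refine ⟨fun i => ?_, fun w hw => ?_, ?_⟩
  · unfold dd
    split_ifs
    · fun_prop
    · fun_prop
    · fun_prop
  · have hw1 : ‖w‖ < 1 := by simpa using hw
    show ∑ i, ‖dd i0 i1 w i‖ ^ 2 < 1
    rw [sum_two h01]
    · unfold dd
      rw [if_pos rfl, if_neg h01.symm, if_pos rfl, norm_mul, norm_mul, norm_pow, mul_pow, mul_pow,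
        Complex.norm_real, Real.norm_of_nonneg h2_pos.le, h2_sq]
      have h1 : ‖w‖ ^ 2 < 1 := by nlinarith [norm_nonneg w]
      have h3 : (‖w‖ ^ 2) ^ 2 < 1 := by nlinarith [norm_nonneg w, sq_nonneg ‖w‖]
      linarith
    · intro i h0 h1
      unfold dd
      rw [if_neg h0, if_neg h1]
      norm_num
  · funext i
    unfold dd
    split_ifs <;> simp

theorem dd_sum {i0 i1 : Fin d} (h01 : i0 ≠ i1) (t : ℝ) (w : ℂ) :
    ∑ i, vf i0 i1 t i * dd i0 i1 w i = (w * ee t + (w * ee t) ^ 2) / 2 := by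
  rw [vf_sum h01]
  unfold dd
  rw [if_pos rfl, if_neg h01.symm, if_pos rfl]
  linear_combination (ee t * w + ee t ^ 2 * w ^ 2) * h2_sqC

theorem H_lower {x : ℂ} (hx : ‖x‖ < 1) : 2 / 3 * (H x).re ≤ (H ((x + x ^ 2) / 2)).re := by
  have h1 := one_sub_ne hx
  have h3 : (2 : ℂ) + x ≠ 0 := by
    intro h
    have : x = -2 := by linear_combination h
    rw [this] at hx
    norm_num at hx
  have h4 : (1 : ℂ) - (x + x ^ 2) / 2 ≠ 0 := by
    have : (1 : ℂ) - (x + x ^ 2) / 2 = (1 - x) * (2 + x) / 2 := by ring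
    rw [this]
    exact div_ne_zero (mul_ne_zero h1 h3) two_ne_zero
  have e : H ((x + x ^ 2) / 2) = (2 / 3 : ℝ) * H x + (((-1 / 3 : ℝ) : ℂ) + ((4 / 3 : ℝ) : ℂ) * (2 + x)⁻¹) := by
    unfold H
    have h5 : (1 : ℂ) - (x + x ^ 2) / 2 = (1 - x) * (2 + x) / 2 := by ring
    rw [h5]
    push_cast
    field_simp
    ring
  rw [e, Complex.add_re, Complex.add_re, Complex.re_ofReal_mul, Complex.re_ofReal_mul, Complex.ofReal_re,
    Complex.inv_re]
  have h6 : 1 / 3 ≤ (2 + x).re / Complex.normSq (2 + x) := by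
    rw [le_div_iff₀ (Complex.normSq_pos.2 h3), Complex.normSq_apply]
    have h7 : ‖x‖ ^ 2 ≤ 1 := by nlinarith [norm_nonneg x]
    rw [← Complex.normSq_eq_norm_sq, Complex.normSq_apply] at h7
    simp only [Complex.add_re, Complex.add_im, Complex.re_ofNat, Complex.im_ofNat]
    nlinarith
  linarith


end UOD
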