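import Pool.Agent.UOD.B7

set_option autoImplicit false

/-!
# [UOD-B8] Herglotz multipliers of measures dominated by a representing measure are cyclic
-/

open Filter Topology Finset Metric MeasureTheory

namespace UOD

open PCM

variable {d : ℕ}

theorem near_one {h : A d} (hh : Contr h) :
    nrm (1 - h) ^ 2 ≤ 2 - 2 * (MvPowerSeries.coeff 0 h).re := by
  classical
  have h1 : h ∈ H2 d := mem_of_mult hh.isMult
  have h2 : nrm h ≤ 1 := by
    have := (hh 1 one_mem).2
    rwa [mul_one, nrm_one] at this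
  obtain ⟨a, ha⟩ : ∃ a, a = MvPowerSeries.coeff 0 h := ⟨_, rfl⟩
  have hw0 : wt (0 : Fin d →₀ ℕ) = 1 := by unfold wt; simp
  have e : ∀ α : Fin d →₀ ℕ, wt α * ‖MvPowerSeries.coeff α (1 - h)‖ ^ 2 =
      wt α * ‖MvPowerSeries.coeff α h‖ ^ 2 + (if α = 0 then 1 - 2 * a.re else 0) := by
    intro α
    rw [map_sub, MvPowerSeries.coeff_one]
    by_cases h0 : α = 0
    · rw [if_pos h0, if_pos h0, h0, ← ha, hw0, ← Complex.normSq_eq_norm_sq, ← Complex.normSq_eq_norm_sq,
        Complex.normSq_apply, Complex.normSq_apply]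
      simp only [Complex.sub_re, Complex.sub_im, Complex.one_re, Complex.one_im]
      ring
    · rw [if_neg h0, if_neg h0, zero_sub, norm_neg, add_zero]
  rw [nrm_sq, tsum_congr e]
  have hs : Summable fun α : Fin d →₀ ℕ => wt α * ‖MvPowerSeries.coeff α h‖ ^ 2 := h1
  have hs2 : Summable fun α : Fin d →₀ ℕ => if α = 0 then 1 - 2 * a.re else 0 :=
    (hasSum_ite_eq 0 _).summable
  rw [hs.tsum_add hs2, tsum_ite_eq, ← nrm_sq, ← ha]
  have : nrm h ^ 2 ≤ 1 := pow_le_one₀ (nrm_nonneg _) h2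
  linarith

theorem cyclic_of {f : A d} (hf : IsMult f) (h : ∀ ε : ℝ, 0 < ε → ∃ φ : A d, IsMult φ ∧ Contr (φ * f) ∧
    1 - ε ≤ (MvPowerSeries.coeff 0 (φ * f)).re) : f ∈ C d 0 := by
  refine ⟨hf, ?_, ?_⟩
  · intro h0
    obtain ⟨φ, _, _, h3⟩ := h (1 / 2) (by norm_num)
    rw [h0, mul_zero, map_zero, Complex.zero_re] at h3
    linarith
  · apply inv_eq hf 0
    rw [pow_zero, zero_add, pow_one]
    refine ⟨one_mem, fun ε hε => ?_⟩
    obtain ⟨φ, h1, h2, h3⟩ := h (ε ^ 2 / 4) (by positivity)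
    refine ⟨φ, h1, ?_⟩
    have h4 := near_one h2
    have h5 : nrm (1 - φ * f) ^ 2 < ε ^ 2 := by nlinarith
    exact lt_of_pow_lt_pow_left₀ 2 hε.le h5

variable {Ω : Type*} [MeasurableSpace Ω]

theorem cyclic_of_ac {v : Ω → Fin d → ℂ} (hv : IsField v) (σ ν : Measure Ω)
    [IsProbabilityMeasure σ] [IsFiniteMeasure ν]
    (hσ : ∀ z ∈ Ball d, ∫ ω, H (∑ i, v ω i * z i) ∂σ = 1) (hac : ν ≪ σ) {f : A d} (hf : Contr f)
    (hfe : ∀ z ∈ Ball d, ev f z = Complex.exp (-∫ ω, H (∑ i, v ω i * z i) ∂ν)) : f ∈ C d 0 := by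
  classical
  obtain ⟨ρ, hρ⟩ : ∃ ρ, ρ = ν.rnDeriv σ := ⟨_, rfl⟩
  have hρm : Measurable ρ := by rw [hρ]; exact Measure.measurable_rnDeriv ν σ
  have hρν : σ.withDensity ρ = ν := by rw [hρ]; exact Measure.withDensity_rnDeriv_eq ν σ hac
  obtain ⟨S, hS⟩ : ∃ S : ℕ → Set Ω, S = fun k : ℕ => {ω | ρ ω ≤ (k : ENNReal)} := ⟨_, rfl⟩
  have hSm : ∀ k, MeasurableSet (S k) := by
    intro k
    rw [hS]
    exact measurableSet_le hρm measurable_const
  -- the mass of the complement
  have hanti : Antitone fun k => (S k)ᶜ := by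
    intro a b hab ω hω hωa
    apply hω
    rw [hS] at hωa ⊢
    have h1 : ρ ω ≤ (a : ENNReal) := hωa
    show ρ ω ≤ (b : ENNReal)
    exact h1.trans (by exact_mod_cast hab)
  have hlim := tendsto_measure_iInter_atTop (μ := ν) (fun n => (hSm n).compl.nullMeasurableSet) hanti
    ⟨0, measure_ne_top _ _⟩
  have hcap : ν (⋂ n, (S n)ᶜ) = 0 := by
    apply hac
    have h1 : ∀ᵐ ω ∂σ, ρ ω < ⊤ := by rw [hρ]; exact Measure.rnDeriv_lt_top ν σ
    refine measure_mono_null (fun ω hω => ?_) (ae_iff.1 h1)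
    show ¬ ρ ω < ⊤
    intro h2
    obtain ⟨n, hn⟩ := ENNReal.exists_nat_gt h2.ne
    have h3 := Set.mem_iInter.1 hω n
    apply h3
    rw [hS]
    exact hn.le
  rw [hcap] at hlim
  apply cyclic_of hf.isMult
  intro ε hε
  obtain ⟨k, hk⟩ := (hlim.eventually (gt_mem_nhds (ENNReal.ofReal_pos.2 hε))).exists
  have hk' : ν (S k)ᶜ < ENNReal.ofReal ε := hk
  have hkr : ν.real (S k)ᶜ ≤ ε := ENNReal.toReal_le_of_le_ofReal hε.le hk'.le
  obtain ⟨T, hT⟩ : ∃ T, T = S k := ⟨_, rfl⟩
  have hTm : MeasurableSet T := by rw [hT]; exact hSm k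
  rw [← hT] at hkr
  have hTle : ∀ ω ∈ T, ρ ω ≤ (k : ENNReal) := by
    intro ω hω
    rw [hT, hS] at hω
    exact hω
  -- the complementary measure
  obtain ⟨l, hl⟩ : ∃ l : Measure Ω, l = σ.withDensity (fun ω => (k : ENNReal) - T.indicator ρ ω) := ⟨_, rfl⟩
  have hsum : l + ν.restrict T = (k : ENNReal) • σ := by
    have h1 : ν.restrict T = σ.withDensity (T.indicator ρ) := by
      rw [withDensity_indicator hTm, ← restrict_withDensity hTm, hρν]
    have hκm : Measurable (fun ω => (k : ENNReal) - T.indicator ρ ω) :=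
      measurable_const.sub (hρm.indicator hTm)
    rw [h1, hl, ← withDensity_add_left hκm, ← withDensity_const]
    congr 1
    funext ω
    show ((k : ENNReal) - T.indicator ρ ω) + T.indicator ρ ω = k
    apply tsub_add_cancel_of_le
    by_cases hω : ω ∈ T
    · rw [Set.indicator_of_mem hω]; exact hTle ω hω
    · rw [Set.indicator_of_notMem hω]; exact zero_le
  have : IsFiniteMeasure ((k : ENNReal) • σ) :=
    Measure.smul_finite σ (ENNReal.natCast_ne_top k)
  have hlfin : IsFiniteMeasure l := by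
    constructor
    calc l Set.univ ≤ (l + ν.restrict T) Set.univ := by
          rw [Measure.add_apply]; exact le_self_add
      _ = ((k : ENNReal) • σ) Set.univ := by rw [hsum]
      _ < ⊤ := measure_lt_top _ _
  obtain ⟨g, hg1, hg2⟩ := herg_fin hv l
  obtain ⟨h, hh1, hh2⟩ := herg_fin hv (ν.restrict Tᶜ)
  have hint : ∀ z ∈ Ball d, (∫ ω, H (∑ i, v ω i * z i) ∂l) + ∫ ω in T, H (∑ i, v ω i * z i) ∂ν = k := by
    intro z hz
    rw [← integral_add_measure (H_int hv l hz) (H_int hv (ν.restrict T) hz), hsum, integral_smul_measure,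
      hσ z hz]
    simp
  have hkey : (Complex.exp k • g) * f = h := by
    have hgc := conv_of_contr hg1
    have hfc := conv_of_contr hf
    apply ev_inj (conv_mul (conv_smul _ hgc) hfc) (conv_of_contr hh1)
    intro z hz
    rw [ev_mul (conv_smul _ hgc) hfc hz, ev_smul, hg2 z hz, hfe z hz, hh2 z hz, ← Complex.exp_add,
      ← Complex.exp_add, ← integral_add_compl hTm (H_int hv ν hz)]
    congr 1
    have := hint z hz
    linear_combination -this
  refine ⟨Complex.exp k • g, mult_smul _ hg1.isMult, ?_, ?_⟩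
  · rw [hkey]; exact hh1
  · rw [hkey, ← ev_zero_point, hh2 _ p20_zero_mem_ball]
    have h1 : ∀ ω, H (∑ i, v ω i * (0 : ℂ)) = 1 := by
      intro ω
      simp [H]
    simp only [h1]
    have h3 : -∫ _ in Tᶜ, (1 : ℂ) ∂ν = ((-ν.real Tᶜ : ℝ) : ℂ) := by
      simp
    rw [h3, ← Complex.ofReal_exp, Complex.ofReal_re]
    have := Real.add_one_le_exp (-ν.real Tᶜ)
    linarith

/-! ### the curve -/

/-- normalised Lebesgue measure on `[0, 2π)` -/
noncomputable def leb : Measure ℝ := ENNReal.ofReal (2 * Real.pi)⁻¹ • volume.restrict (Set.Ico 0 (2 * Real.pi))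

instance : IsProbabilityMeasure leb := by
  constructor
  have h2pi : (0 : ℝ) < 2 * Real.pi := by positivity
  unfold leb
  rw [Measure.smul_apply, Measure.restrict_apply MeasurableSet.univ, Set.univ_inter, Real.volume_Ico,
    sub_zero, smul_eq_mul, ← ENNReal.ofReal_mul (by positivity), inv_mul_cancel₀ h2pi.ne']
  exact ENNReal.ofReal_one

theorem integral_leb (F : ℝ → ℂ) : ∫ t, F t ∂leb = (2 * Real.pi)⁻¹ • ∫ t in (0 : ℝ)..(2 * Real.pi), F t := by
  have h2pi : (0 : ℝ) < 2 * Real.pi := by positivity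
  unfold leb
  rw [integral_smul_measure, intervalIntegral.integral_of_le h2pi.le, integral_Ico_eq_integral_Ioc,
    ENNReal.toReal_ofReal (by positivity)]

end UOD
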