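import Pool.Agent.UOD.B8

set_option autoImplicit false

/-!
# [UOD-B9] measures on the curve with a singular part
-/

open Filter Topology Finset Metric MeasureTheory

namespace UOD

open PCM

variable {d : ℕ}

theorem H_re (x : ℂ) : (H x).re = (1 - ‖x‖ ^ 2) / ‖1 - x‖ ^ 2 := by
  unfold H
  rw [Complex.div_re, ← add_div, ← Complex.normSq_eq_norm_sq, ← Complex.normSq_eq_norm_sq, Complex.normSq_apply x]
  congr 1
  simp only [Complex.add_re, Complex.sub_re, Complex.add_im, Complex.sub_im, Complex.one_re, Complex.one_im]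
  ring

theorem circ_inv (t : ℝ) : circleMap 0 1 t * ee t = 1 := by
  unfold circleMap ee
  rw [zero_add, Complex.ofReal_one, one_mul, ← Complex.exp_add, neg_mul, add_neg_cancel, Complex.exp_zero]

theorem avg_int {Ω : Type*} [MeasurableSpace Ω] (μ : Measure Ω) [IsFiniteMeasure μ] {F : ℂ → Ω → ℝ}
    {r K : ℝ} (hm : Measurable (Function.uncurry fun (θ : ℝ) ω => F (circleMap 0 r θ) ω))
    (hK : ∀ θ ω, ‖F (circleMap 0 r θ) ω‖ ≤ K) :
    Integrable (fun ω => Real.circleAverage (fun w => F w ω) 0 r) μ := by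
  have h2pi : (0 : ℝ) ≤ 2 * Real.pi := by positivity
  have hint : Integrable (Function.uncurry fun (θ : ℝ) ω => F (circleMap 0 r θ) ω)
      ((volume.restrict (Set.Ioc 0 (2 * Real.pi))).prod μ) :=
    Integrable.of_bound hm.aestronglyMeasurable K (Eventually.of_forall fun p => hK p.1 p.2)
  have h1 := hint.integral_prod_right.const_mul (2 * Real.pi)⁻¹
  refine h1.congr (Eventually.of_forall fun ω => ?_)
  unfold Real.circleAverage
  show (2 * Real.pi)⁻¹ * _ = (2 * Real.pi)⁻¹ • ∫ θ in (0 : ℝ)..(2 * Real.pi), F (circleMap 0 r θ) ω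
  rw [intervalIntegral.integral_of_le h2pi, smul_eq_mul]
  rfl

theorem angle_eq {s t : ℝ} (hs : s ∈ Set.Ico 0 (2 * Real.pi)) (ht : t ∈ Set.Ioc 0 (2 * Real.pi))
    (h : circleMap 0 1 t = circleMap 0 1 s) : t = s ∨ t = 2 * Real.pi := by
  by_cases h1 : t = 2 * Real.pi
  · right; exact h1
  · left
    have ht' : t ∈ Set.Ico 0 (2 * Real.pi) := ⟨ht.1.le, lt_of_le_of_ne ht.2 h1⟩
    apply ee_inj ht' hs
    have h2 := circ_inv t
    have h3 := circ_inv s
    rw [h] at h2
    have h4 : circleMap 0 1 s ≠ 0 := left_ne_zero_of_mul_eq_one h3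
    exact mul_left_cancel₀ h4 (h2.trans h3.symm)

/-- a measure on a boundary curve with a singular part gives a multiplier which is not uniformly
outer along the disc -/
theorem sing_not_ui {v : ℝ → Fin d → ℂ} (hv : IsField v) {φ : ℂ → Fin d → ℂ} (hφ : IsDisc d φ)
    {c : ℝ} (hc : 0 < c) (hlw : ∀ t : ℝ, ∀ w : ℂ, ‖w‖ < 1 →
      c⁻¹ * (H (w * ee t)).re ≤ (H (∑ i, v t i * φ w i)).re)
    (ν : Measure ℝ) [IsFiniteMeasure ν] {K : Set ℝ}
    (hK : IsCompact K) (hKI : K ⊆ Set.Ico 0 (2 * Real.pi)) (hK0 : volume K = 0) (hKν : 0 < ν K)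
    {f : A d} (hf : Conv f)
    (hfe : ∀ z ∈ Ball d, ev f z = Complex.exp (-∫ t, H (∑ i, v t i * z i) ∂ν))
    (hX : ∀ ε : ℝ, 0 < ε → ∃ X : ℝ, ∀ r : ℝ, 0 < r → r < 1 →
      Real.circleAverage (fun w => max (-Real.log ‖ev f (φ w)‖ - X) 0) 0 r ≤ ε) : False := by
  obtain ⟨κ, hκ⟩ : ∃ κ, κ = ν.real K := ⟨_, rfl⟩
  have hκ0 : 0 < κ := by rw [hκ]; exact ENNReal.toReal_pos hKν.ne' (measure_ne_top _ _)
  obtain ⟨X, hX⟩ := hX (κ / (8 * c)) (by positivity)
  obtain ⟨Y, hY⟩ : ∃ Y, Y = max X 1 := ⟨_, rfl⟩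
  have hY1 : 1 ≤ Y := by rw [hY]; exact le_max_right _ _
  have hYX : X ≤ Y := by rw [hY]; exact le_max_left _ _
  have h2pi : (0 : ℝ) < 2 * Real.pi := by positivity
  -- the compact subset of the circle
  obtain ⟨L, hL⟩ : ∃ L : Set ℂ, L = circleMap 0 1 '' K := ⟨_, rfl⟩
  have hLc : IsCompact L := by rw [hL]; exact hK.image (continuous_circleMap 0 1)
  have hKne : K.Nonempty := by
    rw [Set.nonempty_iff_ne_empty]
    intro h
    rw [h, measure_empty] at hKν
    exact lt_irrefl _ hKν
  have hLne : L.Nonempty := by rw [hL]; exact hKne.image _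
  -- its neighbourhoods
  obtain ⟨B, hB⟩ : ∃ B : ℕ → Set ℝ, B = fun n : ℕ => {θ | infDist (circleMap 0 1 θ) L < 1 / ((n : ℝ) + 1)} ∩
      Set.Ioc 0 (2 * Real.pi) := ⟨_, rfl⟩
  have hDm : ∀ h : ℝ, MeasurableSet {θ : ℝ | infDist (circleMap 0 1 θ) L < h} := by
    intro h
    exact measurableSet_lt (((continuous_infDist_pt L).comp (continuous_circleMap 0 1)).measurable) measurable_const
  have hBm : ∀ n, MeasurableSet (B n) := by
    intro n
    rw [hB]
    exact (hDm _).inter measurableSet_Ioc
  have hanti : Antitone B := by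
    intro m n hmn θ hθ
    rw [hB] at hθ ⊢
    refine ⟨?_, hθ.2⟩
    have h1 : infDist (circleMap 0 1 θ) L < 1 / ((n : ℝ) + 1) := hθ.1
    show infDist (circleMap 0 1 θ) L < 1 / ((m : ℝ) + 1)
    refine h1.trans_le (one_div_le_one_div_of_le (by positivity) ?_)
    have : (m : ℝ) ≤ n := by exact_mod_cast hmn
    linarith
  have hB0 : volume (B 0) ≠ ⊤ := by
    refine ne_top_of_le_ne_top ?_ (measure_mono (show B 0 ⊆ Set.Ioc 0 (2 * Real.pi) from by
      rw [hB]; exact Set.inter_subset_right))
    rw [Real.volume_Ioc]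
    exact ENNReal.ofReal_ne_top
  have hlim := tendsto_measure_iInter_atTop (μ := volume) (fun n => (hBm n).nullMeasurableSet) hanti ⟨0, hB0⟩
  have hcap : volume (⋂ n, B n) = 0 := by
    refine measure_mono_null (t := K ∪ {2 * Real.pi}) (fun θ hθ => ?_)
      (measure_union_null hK0 Real.volume_singleton)
    have h1 : ∀ n : ℕ, θ ∈ B n := fun n => Set.mem_iInter.1 hθ n
    rw [hB] at h1
    have h2 : infDist (circleMap 0 1 θ) L ≤ 0 := by
      have h3 : Tendsto (fun n : ℕ => 1 / ((n : ℝ) + 1)) atTop (𝓝 0) := tendsto_one_div_add_atTop_nhds_zero_nat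
      exact ge_of_tendsto' h3 fun n => (h1 n).1.le
    have h3 : circleMap 0 1 θ ∈ L := by
      rw [hLc.isClosed.mem_iff_infDist_zero hLne]
      exact le_antisymm h2 infDist_nonneg
    rw [hL] at h3
    obtain ⟨s, hs, hse⟩ := h3
    rcases angle_eq (hKI hs) (h1 0).2 hse.symm with h4 | h4
    · left; rw [h4]; exact hs
    · right; exact h4
  rw [hcap] at hlim
  obtain ⟨η, hη⟩ : ∃ η : ℝ, η = κ / (8 * c * Y) := ⟨_, rfl⟩
  have hη0 : 0 < η := by rw [hη]; positivity
  obtain ⟨n, hn⟩ := (hlim.eventually (gt_mem_nhds (ENNReal.ofReal_pos.2 (show 0 < 2 * Real.pi * η by positivity)))).exists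
  have hn' : volume (B n) < ENNReal.ofReal (2 * Real.pi * η) := hn
  have hnr : volume.real (B n) ≤ 2 * Real.pi * η := ENNReal.toReal_le_of_le_ofReal (by positivity) hn'.le
  obtain ⟨h, hh⟩ : ∃ h : ℝ, h = 1 / ((n : ℝ) + 1) := ⟨_, rfl⟩
  have hh0 : 0 < h := by rw [hh]; positivity
  have hh1 : h ≤ 1 := by
    rw [hh, div_le_one (by positivity)]
    have : (0 : ℝ) ≤ n := Nat.cast_nonneg n
    linarith
  -- the radius
  obtain ⟨r, hr⟩ : ∃ r : ℝ, r = 1 - h ^ 2 / 16 := ⟨_, rfl⟩
  have hr1 : r < 1 := by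
    rw [hr]
    have : 0 < h ^ 2 / 16 := by positivity
    linarith
  have hr0 : 0 < r := by rw [hr]; nlinarith
  have hrh : 1 - r ≤ h / 2 := by rw [hr]; nlinarith
  -- the indicator
  obtain ⟨I, hI⟩ : ∃ I : ℂ → ℝ, I = fun w : ℂ => if infDist (w / (r : ℂ)) L < h then (1 : ℝ) else 0 := ⟨_, rfl⟩
  have hI01 : ∀ w, I w = 0 ∨ I w = 1 := by
    intro w
    rw [hI]
    simp only
    split_ifs
    · right; rfl
    · left; rfl
  have hIm : Measurable I := by
    rw [hI]
    exact Measurable.ite (measurableSet_lt ((continuous_infDist_pt L).measurable.comp (measurable_id.div_const _))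
      measurable_const) measurable_const measurable_const
  have hI0 : ∀ w, 0 ≤ I w := fun w => by rcases hI01 w with h | h <;> rw [h]; norm_num
  have hI1 : ∀ w, I w ≤ 1 := fun w => by rcases hI01 w with h | h <;> rw [h]; norm_num
  have hcirc : ∀ θ : ℝ, circleMap 0 r θ / r = circleMap 0 1 θ := by
    intro θ
    unfold circleMap
    have : (r : ℂ) ≠ 0 := by exact_mod_cast hr0.ne'
    field_simp
    simp
  have hIc : CircleIntegrable I 0 r := by
    refine ci_of_le (hIm.comp (continuous_circleMap 0 r).measurable)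
      (G := fun _ => 1) (continuousOn_const.circleIntegrable') ?_
    intro w _
    rw [abs_of_nonneg (hI0 w)]
    exact hI1 w
  have hIavg : Real.circleAverage I 0 r ≤ η := by
    unfold Real.circleAverage
    rw [intervalIntegral.integral_of_le h2pi.le]
    have e : ∀ θ, I (circleMap 0 r θ) = ({θ : ℝ | infDist (circleMap 0 1 θ) L < h}).indicator (fun _ => (1 : ℝ)) θ := by
      intro θ
      rw [hI]
      show (if infDist (circleMap 0 r θ / r) L < h then (1 : ℝ) else 0) = _
      rw [hcirc]
      by_cases h1 : infDist (circleMap 0 1 θ) L < h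
      · rw [if_pos h1, Set.indicator_of_mem (show θ ∈ {θ : ℝ | infDist (circleMap 0 1 θ) L < h} from h1)]
      · rw [if_neg h1, Set.indicator_of_notMem (show θ ∉ {θ : ℝ | infDist (circleMap 0 1 θ) L < h} from h1)]
    simp only [e]
    rw [integral_indicator (hDm h), Measure.restrict_restrict (hDm h), setIntegral_const, smul_eq_mul,
      smul_eq_mul, mul_one]
    have e2 : {θ : ℝ | infDist (circleMap 0 1 θ) L < h} ∩ Set.Ioc 0 (2 * Real.pi) = B n := by
      rw [hB, hh]
    rw [e2, inv_mul_le_iff₀ h2pi]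
    exact hnr
  -- the lower bound
  have hcm : ∀ θ : ℝ, ‖circleMap 0 r θ‖ = r := by
    intro θ
    rw [norm_circleMap_zero, abs_of_pos hr0]
  have hjm : Measurable (Function.uncurry fun (θ : ℝ) t =>
      (H (circleMap 0 r θ * ee t)).re * I (circleMap 0 r θ)) := by
    apply Measurable.mul
    · apply Complex.measurable_re.comp
      apply H_meas.comp
      exact ((continuous_circleMap 0 r).measurable.comp measurable_fst).mul (ee_meas.comp measurable_snd)
    · exact (hIm.comp (continuous_circleMap 0 r).measurable).comp measurable_fst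
  have hb : ∀ θ t, ‖(H (circleMap 0 r θ * ee t)).re * I (circleMap 0 r θ)‖ ≤ 2 / (1 - r) := by
    intro θ t
    rw [norm_mul]
    have h1 : ‖(H (circleMap 0 r θ * ee t)).re‖ ≤ 2 / (1 - r) :=
      (Complex.abs_re_le_norm _).trans (H_norm hr1 (by rw [norm_mul, hcm, ee_norm, mul_one]))
    have h3 : ‖I (circleMap 0 r θ)‖ ≤ 1 := by
      rw [Real.norm_of_nonneg (hI0 _)]
      exact hI1 _
    have h4 : 0 ≤ 2 / (1 - r) := div_nonneg (by norm_num) (by linarith)
    calc _ ≤ 2 / (1 - r) * 1 := mul_le_mul h1 h3 (norm_nonneg _) h4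
      _ = _ := mul_one _
  obtain ⟨hJ, hsw⟩ := avg_swap (ν.restrict K) (F := fun w t => (H (w * ee t)).re * I w) hjm hb
  have hji := avg_int (ν.restrict K) (F := fun w t => (H (w * ee t)).re * I w) hjm hb
  have hlow : ∀ t ∈ K, 1 / 2 ≤ Real.circleAverage (fun w => (H (w * ee t)).re * I w) 0 r := by
    intro t ht
    have hd : DifferentiableOn ℂ (fun w => H (w * ee t)) (ball 0 1) := by
      intro w hw
      have hw1 : ‖w‖ < 1 := by simpa using hw
      have h1 : DifferentiableAt ℂ (fun w : ℂ => w * ee t) w := differentiableAt_id.mul_const _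
      have h3 : DifferentiableAt ℂ H (w * ee t) := H_diff (mul_lt hw1 (ee_norm t).le)
      exact (DifferentiableAt.comp w (f := fun w : ℂ => w * ee t) h3 h1).differentiableWithinAt
    have c1 : CircleIntegrable (fun w => (H (w * ee t)).re) 0 r :=
      (Complex.continuous_re.comp_continuousOn (contSphere hd hr0 hr1)).circleIntegrable'
    have c2 : CircleIntegrable (fun _ : ℂ => (1 / 2 : ℝ)) 0 r := continuousOn_const.circleIntegrable'
    have c3 : CircleIntegrable (fun w => (H (w * ee t)).re - 1 / 2) 0 r := c1.sub c2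
    have c4 : CircleIntegrable (fun w => (H (w * ee t)).re * I w) 0 r := by
      refine ci_of_le ?_ (G := fun _ => 2 / (1 - r)) (continuousOn_const.circleIntegrable') ?_
      · apply Measurable.mul
        · apply Complex.measurable_re.comp
          apply H_meas.comp
          exact ((continuous_circleMap 0 r).measurable).mul_const _
        · exact hIm.comp (continuous_circleMap 0 r).measurable
      · intro w hw
        have hwr : ‖w‖ = r := by
          have : ‖w‖ = |r| := by simpa using hw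
          rw [this, abs_of_pos hr0]
        rw [abs_mul, abs_of_nonneg (hI0 w)]
        have h1 : |(H (w * ee t)).re| ≤ 2 / (1 - r) :=
          (Complex.abs_re_le_norm _).trans (H_norm hr1 (by rw [norm_mul, ee_norm, mul_one, hwr]))
        have h4 : 0 ≤ 2 / (1 - r) := div_nonneg (by norm_num) (by linarith)
        calc _ ≤ 2 / (1 - r) * 1 := mul_le_mul h1 (hI1 w) (hI0 w) h4
          _ = _ := mul_one _
    have h5 : Real.circleAverage (fun w => (H (w * ee t)).re - 1 / 2) 0 r = 1 / 2 := by
      rw [Real.circleAverage_fun_sub c1 c2, mean_H (ee_norm t).le hr0 hr1, Real.circleAverage_const]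
      norm_num
    rw [← h5]
    refine Real.circleAverage_mono c3 c4 ?_
    intro w hw
    have hwr : ‖w‖ = r := by
      have : ‖w‖ = |r| := by simpa using hw
      rw [this, abs_of_pos hr0]
    show (H (w * ee t)).re - 1 / 2 ≤ (H (w * ee t)).re * I w
    by_cases h6 : infDist (w / r) L < h
    · have : I w = 1 := by rw [hI]; exact if_pos h6
      rw [this]
      linarith
    · have hI0' : I w = 0 := by rw [hI]; exact if_neg h6
      rw [hI0', mul_zero]
      push Not at h6
      have h7 : circleMap 0 1 t ∈ L := by rw [hL]; exact ⟨t, ht, rfl⟩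
      have h8 : h ≤ ‖w / r - circleMap 0 1 t‖ := by
        rw [← dist_eq_norm]
        exact h6.trans (infDist_le_dist_of_mem h7)
      have h9 : ‖w / r - w‖ = 1 - r := by
        have hrC : (r : ℂ) ≠ 0 := by exact_mod_cast hr0.ne'
        have : w / r - w = (w / r) * ((1 - r : ℝ) : ℂ) := by
          push_cast
          field_simp
        rw [this, norm_mul, norm_div, hwr, Complex.norm_real, Complex.norm_real, Real.norm_of_nonneg hr0.le,
          Real.norm_of_nonneg (by linarith), div_self hr0.ne', one_mul]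
      have h10 : h / 2 ≤ ‖1 - w * ee t‖ := by
        have e1 : 1 - w * ee t = (circleMap 0 1 t - w) * ee t := by
          rw [sub_mul, circ_inv]
        rw [e1, norm_mul, ee_norm, mul_one]
        have e2 : w / r - circleMap 0 1 t = (w / r - w) - (circleMap 0 1 t - w) := by ring
        rw [e2] at h8
        have := norm_sub_le (w / r - w) (circleMap 0 1 t - w)
        linarith
      rw [H_re, norm_mul, ee_norm, mul_one, hwr]
      have h11 : (1 - r ^ 2) / ‖1 - w * ee t‖ ^ 2 ≤ (1 - r ^ 2) / (h / 2) ^ 2 := by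
        apply div_le_div_of_nonneg_left _ (by positivity) (pow_le_pow_left₀ (by positivity) h10 2)
        nlinarith
      have h12 : (1 - r ^ 2) / (h / 2) ^ 2 ≤ 1 / 2 := by
        rw [div_le_iff₀ (by positivity)]
        have : 1 - r = h ^ 2 / 16 := by rw [hr]; ring
        nlinarith
      linarith
  have hlow2 : κ / 2 ≤ ∫ t in K, Real.circleAverage (fun w => (H (w * ee t)).re * I w) 0 r ∂ν := by
    have h1 : ∫ _ in K, (1 / 2 : ℝ) ∂ν = κ / 2 := by
      rw [setIntegral_const, smul_eq_mul, hκ]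
      ring
    rw [← h1]
    exact setIntegral_mono_on (integrable_const _) hji hK.measurableSet hlow
  rw [← hsw] at hlow2
  -- the upper bound
  have I1 := int_max hf hφ hr0 hr1 X
  have I2 : CircleIntegrable (fun w => c * max (uu f φ w - X) 0) 0 r := I1.const_mul _
  have I3 : CircleIntegrable (fun w => (c * Y) * I w) 0 r := hIc.const_mul _
  have I4 : CircleIntegrable (fun w => c * max (uu f φ w - X) 0 + (c * Y) * I w) 0 r := I2.add I3
  have hmono := Real.circleAverage_mono hJ I4 (by
    intro w hw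
    have hwr : ‖w‖ = r := by
      have : ‖w‖ = |r| := by simpa using hw
      rw [this, abs_of_pos hr0]
    have hw1 : ‖w‖ < 1 := by rw [hwr]; exact hr1
    have hwb : φ w ∈ Ball d := hφ.maps w (by simpa using hw1)
    obtain ⟨k1, k2⟩ := neg_log_eq hv ν hfe hwb
    have hx1 : ∀ t, ‖w * ee t‖ < 1 := fun t => by rw [norm_mul, ee_norm, mul_one]; exact hw1
    have k3 : Integrable (fun t => (H (w * ee t)).re) ν := by
      refine Integrable.of_bound (Complex.measurable_re.comp (H_meas.comp (ee_meas.const_mul w))).aestronglyMeasurable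
        (2 / (1 - r)) (Eventually.of_forall fun t => ?_)
      exact (Complex.abs_re_le_norm _).trans (H_norm hr1 (by rw [norm_mul, ee_norm, mul_one, hwr]))
    obtain ⟨V, hV⟩ : ∃ V, V = ∫ t, (H (w * ee t)).re ∂ν := ⟨_, rfl⟩
    have hVK : ∫ t in K, (H (w * ee t)).re ∂ν ≤ V := by
      rw [hV]
      exact setIntegral_le_integral k3 (Eventually.of_forall fun t => H_re_nonneg (hx1 t))
    have hV0 : 0 ≤ V := by rw [hV]; exact integral_nonneg fun t => H_re_nonneg (hx1 t)
    have hVu : c⁻¹ * V ≤ uu f φ w := by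
      show c⁻¹ * V ≤ -Real.log ‖ev f (φ w)‖
      rw [k2, hV, ← integral_const_mul]
      exact integral_mono (k3.const_mul _) k1 fun t => hlw t w hw1
    show ∫ t in K, (H (w * ee t)).re * I w ∂ν ≤ c * max (uu f φ w - X) 0 + (c * Y) * I w
    rw [integral_mul_const]
    obtain ⟨u, hu⟩ : ∃ u, u = uu f φ w := ⟨_, rfl⟩
    rw [← hu] at hVu ⊢
    obtain ⟨m, hm⟩ : ∃ m, m = max (u - X) 0 := ⟨_, rfl⟩
    have hm0 : 0 ≤ m := by rw [hm]; exact le_max_right _ _
    have hmu : u ≤ m + Y := by
      have : u - X ≤ m := by rw [hm]; exact le_max_left _ _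
      linarith
    have hVc : V ≤ c * u := by
      rw [inv_mul_le_iff₀ hc] at hVu
      exact hVu
    rw [← hm]
    rcases hI01 w with h1 | h1
    · rw [h1, mul_zero, mul_zero, add_zero]
      positivity
    · rw [h1, mul_one, mul_one]
      have : c * u ≤ c * (m + Y) := mul_le_mul_of_nonneg_left hmu hc.le
      linarith)
  rw [Real.circleAverage_fun_add I2 I3] at hmono
  have k1 : Real.circleAverage (fun w => c * max (uu f φ w - X) 0) 0 r =
      c * Real.circleAverage (fun w => max (uu f φ w - X) 0) 0 r :=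
    Real.circleAverage_fun_smul (a := c)
  have k2 : Real.circleAverage (fun w => (c * Y) * I w) 0 r = (c * Y) * Real.circleAverage I 0 r :=
    Real.circleAverage_fun_smul (a := c * Y)
  rw [k1, k2] at hmono
  have k3 : c * Real.circleAverage (fun w => max (uu f φ w - X) 0) 0 r ≤ c * (κ / (8 * c)) :=
    mul_le_mul_of_nonneg_left (hX r hr0 hr1) hc.le
  have k4 : (c * Y) * Real.circleAverage I 0 r ≤ (c * Y) * η := mul_le_mul_of_nonneg_left hIavg (by positivity)
  have k5 : (c * Y) * η = κ / 8 := by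
    rw [hη]
    field_simp
  have k6 : c * (κ / (8 * c)) = κ / 8 := by
    field_simp
  linarith

end UOD
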