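import Pool.Agent.UOD.B9

set_option autoImplicit false

/-!
# [UOD-J1] Schwarz-Pick and Julia's lemma
-/

open Filter Topology Finset Metric MeasureTheory

namespace UOD

/-- the involutive automorphism of the disc -/
noncomputable def mo (a x : ℂ) : ℂ := (a - x) / (1 - (starRingEnd ℂ) a * x)

theorem mo_ne {a x : ℂ} (ha : ‖a‖ < 1) (hx : ‖x‖ < 1) : 1 - (starRingEnd ℂ) a * x ≠ 0 := by
  apply one_sub_ne
  rw [norm_mul, RCLike.norm_conj]
  nlinarith [norm_nonneg a, norm_nonneg x]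

theorem mo_id {a x : ℂ} (ha : ‖a‖ < 1) (hx : ‖x‖ < 1) :
    1 - ‖mo a x‖ ^ 2 = (1 - ‖a‖ ^ 2) * (1 - ‖x‖ ^ 2) / ‖1 - (starRingEnd ℂ) a * x‖ ^ 2 := by
  have h1 := mo_ne ha hx
  have h2 : ‖1 - (starRingEnd ℂ) a * x‖ ^ 2 ≠ 0 := by
    have := norm_pos_iff.2 h1
    positivity
  unfold mo
  rw [norm_div, div_pow, eq_div_iff h2, sub_mul, div_mul_cancel₀ _ h2, one_mul]
  rw [← Complex.normSq_eq_norm_sq, ← Complex.normSq_eq_norm_sq, ← Complex.normSq_eq_norm_sq,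
    ← Complex.normSq_eq_norm_sq]
  simp only [Complex.normSq_apply, Complex.sub_re, Complex.sub_im, Complex.mul_re, Complex.mul_im,
    Complex.conj_re, Complex.conj_im, Complex.one_re, Complex.one_im]
  ring

theorem mo_lt {a x : ℂ} (ha : ‖a‖ < 1) (hx : ‖x‖ < 1) : ‖mo a x‖ < 1 := by
  have h1 := mo_id ha hx
  have h2 : 0 < (1 - ‖a‖ ^ 2) * (1 - ‖x‖ ^ 2) / ‖1 - (starRingEnd ℂ) a * x‖ ^ 2 := by
    have := norm_pos_iff.2 (mo_ne ha hx)
    have h3 : 0 < 1 - ‖a‖ ^ 2 := by nlinarith [norm_nonneg a]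
    have h4 : 0 < 1 - ‖x‖ ^ 2 := by nlinarith [norm_nonneg x]
    positivity
  nlinarith [norm_nonneg (mo a x)]

theorem mo_mo {a x : ℂ} (ha : ‖a‖ < 1) (hx : ‖x‖ < 1) : mo a (mo a x) = x := by
  have h1 := mo_ne ha hx
  have h2 := mo_ne ha (mo_lt ha hx)
  obtain ⟨q, hq⟩ : ∃ q, q = mo a x := ⟨_, rfl⟩
  have hqD : q * (1 - (starRingEnd ℂ) a * x) = a - x := by
    rw [hq]
    unfold mo
    exact div_mul_cancel₀ _ h1
  rw [← hq] at h2 ⊢
  unfold mo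
  rw [div_eq_iff h2]
  linear_combination -hqD

theorem mo_diff {a x : ℂ} (ha : ‖a‖ < 1) (hx : ‖x‖ < 1) : DifferentiableAt ℂ (mo a) x := by
  unfold mo
  exact ((differentiableAt_const _).sub differentiableAt_id).div
    ((differentiableAt_const _).sub (differentiableAt_id.const_mul _)) (mo_ne ha hx)

theorem schwarz_pick {g : ℂ → ℂ} (hg : DifferentiableOn ℂ g (ball 0 1))
    (hm : ∀ x ∈ ball (0 : ℂ) 1, ‖g x‖ < 1) {s x : ℂ} (hs : ‖s‖ < 1) (hx : ‖x‖ < 1) :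
    ‖mo (g s) (g x)‖ ≤ ‖mo s x‖ := by
  have hgs : ‖g s‖ < 1 := hm s (by simpa using hs)
  have hgx : ‖g x‖ < 1 := hm x (by simpa using hx)
  obtain ⟨F, hF⟩ : ∃ F : ℂ → ℂ, F = fun y => mo (g s) (g (mo s y)) := ⟨_, rfl⟩
  have hd : DifferentiableOn ℂ F (ball 0 1) := by
    intro y hy
    have hy1 : ‖y‖ < 1 := by simpa using hy
    have h1 := mo_diff hs hy1
    have h2 := mo_lt hs hy1
    have h3 : DifferentiableAt ℂ g (mo s y) :=
      (hg _ (by simpa using h2)).differentiableAt (isOpen_ball.mem_nhds (by simpa using h2))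
    have h4 : DifferentiableAt ℂ (mo (g s)) (g (mo s y)) := mo_diff hgs (hm _ (by simpa using h2))
    rw [hF]
    exact (DifferentiableAt.comp y (f := fun y => g (mo s y)) h4 (DifferentiableAt.comp y (f := mo s) h3 h1)).differentiableWithinAt
  have hmaps : Set.MapsTo F (ball 0 1) (closedBall 0 1) := by
    intro y hy
    have hy1 : ‖y‖ < 1 := by simpa using hy
    have h2 := mo_lt hs hy1
    rw [hF, mem_closedBall_zero_iff]
    exact (mo_lt hgs (hm _ (by simpa using h2))).le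
  have h0 : F 0 = 0 := by
    rw [hF]
    show mo (g s) (g (mo s 0)) = 0
    have : mo s 0 = s := by unfold mo; simp
    rw [this]
    unfold mo
    simp
  have h1 := Complex.norm_le_norm_of_mapsTo_ball hd hmaps h0 (mo_lt hs hx)
  rw [hF] at h1
  simp only [mo_mo hs hx] at h1
  exact h1

/-- Julia's lemma at a boundary point where `g` is Lipschitz along the radius -/
theorem julia {g : ℂ → ℂ} (hg : DifferentiableOn ℂ g (ball 0 1))
    (hm : ∀ x ∈ ball (0 : ℂ) 1, ‖g x‖ < 1) {C : ℝ} (hC : 0 < C)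
    (h1 : ∀ s : ℝ, 0 < s → s < 1 → ‖1 - g s‖ ≤ C * (1 - s)) {x : ℂ} (hx : ‖x‖ < 1) :
    C⁻¹ * (H x).re ≤ (H (g x)).re := by
  have hgx : ‖g x‖ < 1 := hm x (by simpa using hx)
  have hkey : ∀ s : ℝ, 0 < s → s < 1 → (1 + s) * ((1 - ‖x‖ ^ 2) / ‖1 - (s : ℂ) * x‖ ^ 2) ≤
      2 * C * ((1 - ‖g x‖ ^ 2) / ‖1 - (starRingEnd ℂ) (g s) * g x‖ ^ 2) := by
    intro s hs0 hs1
    have hs : ‖(s : ℂ)‖ < 1 := by rw [Complex.norm_real, Real.norm_of_nonneg hs0.le]; exact hs1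
    have hgs : ‖g s‖ < 1 := hm s (by simpa using hs)
    have h2 := schwarz_pick hg hm hs hx
    have h3 : 1 - ‖mo (s : ℂ) x‖ ^ 2 ≤ 1 - ‖mo (g s) (g x)‖ ^ 2 := by
      have := pow_le_pow_left₀ (norm_nonneg _) h2 2
      linarith
    rw [mo_id hs hx, mo_id hgs hgx, Complex.conj_ofReal, Complex.norm_real, Real.norm_of_nonneg hs0.le] at h3
    have h4 : 1 - ‖g s‖ ^ 2 ≤ 2 * (C * (1 - s)) := by
      have h5 := h1 s hs0 hs1
      have h6 := norm_sub_norm_le (1 : ℂ) (g s)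
      rw [norm_one] at h6
      nlinarith [norm_nonneg (g s)]
    obtain ⟨a, ha⟩ : ∃ a, a = (1 - ‖x‖ ^ 2) / ‖1 - (s : ℂ) * x‖ ^ 2 := ⟨_, rfl⟩
    obtain ⟨b, hb⟩ : ∃ b, b = (1 - ‖g x‖ ^ 2) / ‖1 - (starRingEnd ℂ) (g s) * g x‖ ^ 2 := ⟨_, rfl⟩
    rw [mul_div_assoc, mul_div_assoc, ← ha, ← hb] at h3
    rw [← ha, ← hb]
    have hb0 : 0 ≤ b := by
      rw [hb]
      apply div_nonneg _ (by positivity)
      nlinarith [norm_nonneg (g x)]
    have h5 : (1 - s ^ 2) * a ≤ 2 * (C * (1 - s)) * b := h3.trans (mul_le_mul_of_nonneg_right h4 hb0)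
    have h6 : (1 - s) * ((1 + s) * a) ≤ (1 - s) * (2 * C * b) := by
      calc (1 - s) * ((1 + s) * a) = (1 - s ^ 2) * a := by ring
        _ ≤ 2 * (C * (1 - s)) * b := h5
        _ = _ := by ring
    exact le_of_mul_le_mul_left h6 (by linarith)
  have hlim1 : Tendsto (fun s : ℝ => (1 + s) * ((1 - ‖x‖ ^ 2) / ‖1 - (s : ℂ) * x‖ ^ 2)) (𝓝[<] 1)
      (𝓝 ((1 + 1) * ((1 - ‖x‖ ^ 2) / ‖1 - ((1 : ℝ) : ℂ) * x‖ ^ 2))) := by
    refine Tendsto.mono_left ?_ nhdsWithin_le_nhds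
    have hne : ‖1 - ((1 : ℝ) : ℂ) * x‖ ^ 2 ≠ 0 := by
      rw [Complex.ofReal_one, one_mul]
      have := norm_pos_iff.2 (one_sub_ne hx)
      positivity
    have t1 : Tendsto (fun s : ℝ => 1 + s) (𝓝 1) (𝓝 (1 + 1)) :=
      (by fun_prop : Continuous fun s : ℝ => 1 + s).tendsto 1
    have t2 : Tendsto (fun s : ℝ => ‖1 - (s : ℂ) * x‖ ^ 2) (𝓝 1) (𝓝 (‖1 - ((1 : ℝ) : ℂ) * x‖ ^ 2)) :=
      (by fun_prop : Continuous fun s : ℝ => ‖1 - (s : ℂ) * x‖ ^ 2).tendsto 1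
    exact t1.mul (tendsto_const_nhds.div t2 hne)
  have hg1 : Tendsto (fun s : ℝ => g s) (𝓝[<] 1) (𝓝 1) := by
    rw [tendsto_iff_norm_sub_tendsto_zero]
    have h2 : Tendsto (fun s : ℝ => C * (1 - s)) (𝓝[<] 1) (𝓝 (C * (1 - 1))) := by
      refine Tendsto.mono_left ?_ nhdsWithin_le_nhds
      exact (by fun_prop : Continuous fun s : ℝ => C * (1 - s)).tendsto 1
    rw [sub_self, mul_zero] at h2
    have h4 : ∀ᶠ s : ℝ in 𝓝[<] 1, 0 < s :=
      (eventually_nhdsWithin_of_eventually_nhds (lt_mem_nhds zero_lt_one))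
    have h5 : ∀ᶠ s : ℝ in 𝓝[<] 1, s < 1 := eventually_mem_nhdsWithin
    refine squeeze_zero' (Eventually.of_forall fun s => norm_nonneg _) ?_ h2
    filter_upwards [h4, h5] with s hs0 hs1
    rw [norm_sub_rev]
    exact h1 s hs0 hs1
  have hlim2 : Tendsto (fun s : ℝ => 2 * C * ((1 - ‖g x‖ ^ 2) / ‖1 - (starRingEnd ℂ) (g s) * g x‖ ^ 2)) (𝓝[<] 1)
      (𝓝 (2 * C * ((1 - ‖g x‖ ^ 2) / ‖1 - (starRingEnd ℂ) 1 * g x‖ ^ 2))) := by
    have hne : ‖1 - (starRingEnd ℂ) 1 * g x‖ ^ 2 ≠ 0 := by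
      rw [map_one, one_mul]
      have := norm_pos_iff.2 (one_sub_ne hgx)
      positivity
    have hconj : Tendsto (fun s : ℝ => (starRingEnd ℂ) (g s)) (𝓝[<] 1) (𝓝 ((starRingEnd ℂ) 1)) :=
      (Complex.continuous_conj.tendsto 1).comp hg1
    refine Tendsto.const_mul _ (Tendsto.div tendsto_const_nhds ?_ hne)
    exact ((tendsto_const_nhds.sub (hconj.mul_const _)).norm).pow 2
  have hle := le_of_tendsto_of_tendsto hlim1 hlim2 (by
    have h4 : ∀ᶠ s : ℝ in 𝓝[<] 1, 0 < s :=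
      (eventually_nhdsWithin_of_eventually_nhds (lt_mem_nhds zero_lt_one))
    have h5 : ∀ᶠ s : ℝ in 𝓝[<] 1, s < 1 := eventually_mem_nhdsWithin
    filter_upwards [h4, h5] with s hs0 hs1
    exact hkey s hs0 hs1)
  rw [Complex.ofReal_one, one_mul, map_one, one_mul] at hle
  rw [H_re, H_re, inv_mul_le_iff₀ hC]
  linarith

end UOD
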